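import Pool.Agent.H433.TH.Ht

/-!
The double of a point at the simple zeros of the theta constants, and at the places where the
point is congruent to a point of order two.
-/

set_option autoImplicit false

open NumberField IsDedekindDomain Finset

namespace Pool.Agent.H433.TH

variable {K : Type} [Field K] {Γ : Type*} [LinearOrderedCommGroupWithZero Γ]

theorem Z_smul {R : Type*} [CommRing R] (k : Fin 4) (u x : Fin 4 → R) (t : R) :
    Z k u (t • x) = t * Z k u x := by
  fin_cases k <;> simp [Z] <;> ring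

theorem Q_smul {R : Type*} [CommRing R] (m : Fin 6) (u x : Fin 4 → R) (t : R) :
    Q m u (t • x) = t * Q m u x := by
  fin_cases m <;> simp [Q] <;> ring

theorem Q_smul2 {R : Type*} [CommRing R] (m : Fin 6) (x : Fin 4 → R) (t : R) :
    Q m (t • x) (t • x) = t ^ 2 * Q m x x := by
  fin_cases m <;> simp [Q] <;> ring

theorem Kummer.smul {c x : Fin 4 → K} (h : Kummer c x) {t : K} (ht : t ≠ 0) :
    Kummer c (t • x) := by
  refine ⟨smul_ne_zero ht h.1, fun m => ?_⟩
  rw [dbl_smul, Q_smul, Q_smul2]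
  linear_combination t ^ 4 * h.2 m

section val

theorem mul_lt1 {a b : Γ} (ha : a ≤ 1) (hb : b < 1) : a * b < 1 :=
  (mul_le_of_le_one_left' ha).trans_lt hb

theorem mul_lt1' {a b : Γ} (ha : a < 1) (hb : b ≤ 1) : a * b < 1 :=
  (mul_le_of_le_one_right' hb).trans_lt ha

variable (w : Valuation K Γ)

theorem w_add4 {a b c d : K} {r : Γ} (ha : w a ≤ r) (hb : w b ≤ r) (hc : w c ≤ r)
    (hd : w d ≤ r) : w (a + b + c + d) ≤ r :=
  w.map_add_le (w.map_add_le (w.map_add_le ha hb) hc) hd

theorem w_add4_lt {a b c d : K} {r : Γ} (ha : w a < r) (hb : w b < r) (hc : w c < r)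
    (hd : w d < r) : w (a + b + c + d) < r :=
  w.map_add_lt (w.map_add_lt (w.map_add_lt ha hb) hc) hd

theorem w_Hd (p : Fin 4 × Fin 4) : w (Hd K p) = 1 := by
  obtain ⟨i, j⟩ := p
  fin_cases i <;> fin_cases j <;> simp [Hd, Valuation.map_neg]

theorem w_Z_le {u x : Fin 4 → K} {r : Γ} (h : ∀ b, w (u b * x b) ≤ r) (k : Fin 4) :
    w (Z k u x) ≤ r := by
  rw [Z_eq, Fin.sum_univ_four]
  refine w_add4 w ?_ ?_ ?_ ?_ <;>
  · rw [map_mul, w_Hd, one_mul]
    exact h _

theorem w_Z_lt {u x : Fin 4 → K} {r : Γ} (h : ∀ b, w (u b * x b) < r) (k : Fin 4) :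
    w (Z k u x) < r := by
  rw [Z_eq, Fin.sum_univ_four]
  refine w_add4_lt w ?_ ?_ ?_ ?_ <;>
  · rw [map_mul, w_Hd, one_mul]
    exact h _

theorem w_Q_le {u x : Fin 4 → K} {r : Γ} (h : ∀ i j, w (u i * x j) ≤ r) (m : Fin 6) :
    w (Q m u x) ≤ r := by
  fin_cases m <;> simp only [Q, Fin.isValue] <;>
  first
  | exact w.map_add_le (w.map_add_le (h _ _) (h _ _)) (w.map_add_le (h _ _) (h _ _))
  | exact w.map_sub_le (w.map_add_le (h _ _) (h _ _)) (w.map_add_le (h _ _) (h _ _))

theorem w_Q_lt {u x : Fin 4 → K} {r : Γ} (h : ∀ i j, w (u i * x j) < r) (m : Fin 6) :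
    w (Q m u x) < r := by
  have hs {a b : K} (ha : w a < r) (hb : w b < r) : w (a - b) < r := by
    rw [sub_eq_add_neg]
    exact w.map_add_lt ha (by rwa [Valuation.map_neg])
  fin_cases m <;> simp only [Q, Fin.isValue] <;>
  first
  | exact w.map_add_lt (w.map_add_lt (h _ _) (h _ _)) (w.map_add_lt (h _ _) (h _ _))
  | exact hs (w.map_add_lt (h _ _) (h _ _)) (w.map_add_lt (h _ _) (h _ _))

theorem w_four (h2 : w 2 = 1) : w 4 = 1 := by
  rw [show (4 : K) = 2 * 2 by norm_num, map_mul, h2, one_mul]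

/-- the normalised multiple of a vector -/
theorem exists_norm {x : Fin 4 → K} (hx : x ≠ 0) : ∃ i, x i ≠ 0 ∧
    ∀ j, w ((x i)⁻¹ * x j) ≤ 1 := by
  obtain ⟨i, -, hi⟩ := Finset.exists_max_image (univ : Finset (Fin 4)) (fun i => w (x i))
    univ_nonempty
  have h0 : x i ≠ 0 := by
    intro h0
    apply hx
    funext j
    have h1 := hi j (mem_univ j)
    simp only [h0, map_zero, le_zero_iff, map_eq_zero] at h1
    exact h1
  refine ⟨i, h0, fun j => ?_⟩
  rw [map_mul, map_inv₀]
  have h1 : w (x i) ≠ 0 := by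
    rwa [Ne, map_eq_zero]
  rw [inv_mul_le_iff₀ (zero_lt_iff.2 h1), mul_one]
  exact hi j (mem_univ j)

variable {w} [CharZero K] {c x : Fin 4 → K}

/-- good coordinates: no cancellation in the doubling -/
theorem dbl_unit (h2 : w 2 = 1) (hc : ∀ b, w (c b) = 1) (hC : ∀ k, w (Z k c c) = 1)
    (hx : ∀ j, w (x j) ≤ 1) {i : Fin 4} (hi : x i = 1) :
    (∀ b, w (dbl c x b) ≤ 1) ∧ ∃ b, 1 ≤ w (dbl c x b) := by
  have h4 := w_four w h2
  have hc0 (b : Fin 4) : c b ≠ 0 := by
    intro h
    have := hc b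
    rw [h, map_zero] at this
    exact zero_ne_one this
  have hy (k : Fin 4) : w (Z k x x) ≤ 1 := by
    refine w_Z_le w (fun b => ?_) k
    rw [map_mul]
    exact mul_le_one' (hx b) (hx b)
  have hz (k : Fin 4) : w (Z k x x ^ 2 / Z k c c) ≤ 1 := by
    rw [map_div₀, hC k, div_one, map_pow]
    exact pow_le_one' (hy k) 2
  constructor
  · intro b
    unfold dbl
    rw [map_div₀, map_mul, h4, hc, one_mul, div_one]
    refine w_Z_le w (fun b => ?_) b
    rw [Pi.one_apply, mul_one]
    exact hz b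
  · by_contra hcon
    push Not at hcon
    have h5 (k : Fin 4) : w (Z k x x ^ 2 / Z k c c) < 1 := by
      rw [← Z_dbl hc0 k]
      refine w_Z_lt w (fun b => ?_) k
      rw [map_mul, hc, one_mul]
      exact hcon b
    have h6 (k : Fin 4) : w (Z k x x) < 1 := by
      have := h5 k
      rw [map_div₀, hC k, div_one, map_pow] at this
      by_contra h7
      push Not at h7
      exact absurd (one_le_pow_of_one_le' h7 2) (not_le.2 this)
    have h7 : w (Z i (fun k => Z k x x) 1) < 1 := by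
      refine w_Z_lt w (fun b => ?_) i
      rw [Pi.one_apply, mul_one]
      exact h6 b
    rw [Z_Z, hi, one_pow, mul_one, h4] at h7
    exact lt_irrefl _ h7

/-- At a simple zero of a theta constant the double of a point of the Kummer surface has the
same zero. -/
theorem dbl_simple (h2 : w 2 = 1) (hc : ∀ b, w (c b) = 1) (hC : ∀ k, w (Z k c c) = 1)
    {m : Fin 6} (hm : w (Q m c c) < 1) (hd : ∀ y : K, w y < 1 → w y ≤ w (Q m c c))
    (hm0 : Q m c c ≠ 0) (hx : Kummer c x) {t : K} (ht : ∀ b, w (t * dbl c x b) ≤ 1) :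
    w (Q m c (t • dbl c x)) < 1 := by
  obtain ⟨i, hi0, hi⟩ := exists_norm w hx.1
  set x' : Fin 4 → K := (x i)⁻¹ • x with hx'
  have hK : Kummer c x' := hx.smul (inv_ne_zero hi0)
  have hxx : x = x i • x' := by
    rw [hx', smul_smul, mul_inv_cancel₀ hi0, one_smul]
  have h1 : x' i = 1 := by
    rw [hx']
    simp [hi0]
  obtain ⟨h3, b, hb⟩ := dbl_unit (c := c) h2 hc hC hi h1
  rw [hxx, dbl_smul] at ht ⊢
  rw [smul_smul]
  set t' : K := t * x i ^ 4 with ht'
  have h5 : w t' ≤ 1 := by
    have h6 := ht b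
    rw [Pi.smul_apply, smul_eq_mul, ← mul_assoc, ← ht', map_mul] at h6
    by_contra h7
    push Not at h7
    have h8 : 1 < w t' * w (dbl c x' b) := h7.trans_le (le_mul_of_one_le_right' hb)
    exact absurd h6 (not_le.2 h8)
  rw [Q_smul, map_mul]
  have h6 : w (Q m c (dbl c x')) ≤ 1 := by
    refine w_Q_le w (fun k l => ?_) m
    rw [map_mul, hc, one_mul]
    exact h3 l
  have h7 := hK.2 m
  have h8 : w (Q m x' x') ^ 2 ≤ w (Q m c c) := by
    rw [← map_pow, ← h7, map_mul]
    exact mul_le_of_le_one_right' h6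
  have h9 : w (Q m x' x') < 1 := by
    by_contra h10
    push Not at h10
    exact absurd (one_le_pow_of_one_le' h10 2) (not_le.2 (h8.trans_lt hm))
  have h10 := hd _ h9
  have hq0 : 0 < w (Q m c c) := by
    rw [zero_lt_iff, Ne, map_eq_zero]
    exact hm0
  have h11 : w (Q m c c) * w (Q m c (dbl c x')) ≤ w (Q m c c) * w (Q m c c) := by
    rw [← map_mul, h7, map_pow, pow_two]
    exact mul_le_mul' h10 h10
  have h12 : w (Q m c (dbl c x')) ≤ w (Q m c c) := le_of_mul_le_mul_left h11 hq0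
  calc w t' * w (Q m c (dbl c x')) ≤ 1 * w (Q m c (dbl c x')) := mul_le_mul_left h5 _
    _ = w (Q m c (dbl c x')) := one_mul _
    _ < 1 := h12.trans_lt hm

set_option linter.unusedSectionVars false

theorem two_Z {R : Type*} [CommRing R] (e s k : Fin 4) (c : Fin 4 → R) :
    Z k (two e s c) (two e s c) ^ 2 = Z k c c ^ 2 := by
  fin_cases e <;> fin_cases s <;> fin_cases k <;> simp [Z, two] <;> ring

theorem two_Q {R : Type*} [CommRing R] (e s : Fin 4) (m : Fin 6) (c : Fin 4 → R) :
    Q m (two e s c) (two e s c) ^ 2 = Q m c c ^ 2 := by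
  fin_cases e <;> fin_cases s <;> fin_cases m <;> simp [Q, two] <;> ring

theorem Z_add (k : Fin 4) (u d : Fin 4 → K) :
    Z k (u + d) (u + d) - Z k u u = Z k (u + u + d) d := by
  fin_cases k <;> simp [Z] <;> ring

theorem Q_add (m : Fin 6) (u d : Fin 4 → K) :
    Q m (u + d) (u + d) - Q m u u = Q m (u + u + d) d := by
  fin_cases m <;> simp [Q] <;> ring

theorem Z_sub (k : Fin 4) (u a b : Fin 4 → K) : Z k u (a - b) = Z k u a - Z k u b := by
  fin_cases k <;> simp [Z] <;> ring

theorem Q_sub (m : Fin 6) (u a b : Fin 4 → K) : Q m u (a - b) = Q m u a - Q m u b := by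
  fin_cases m <;> simp [Q] <;> ring

/-- the values `c_i D_j + c_j D_i` in terms of the forms -/
theorem pair_eq (c D : Fin 4 → K) (i j : Fin 4) (hij : i ≠ j) : ∃ m m' : Fin 6,
    ∃ s s' : K, (s = 1 ∨ s = -1) ∧ (s' = 1 ∨ s' = -1) ∧
    2 * (c i * D j + c j * D i) = s * Q m c D + s' * Q m' c D := by
  fin_cases i <;> fin_cases j <;> first
  | exact absurd rfl hij
  | exact ⟨0, 1, 1, 1, Or.inl rfl, Or.inl rfl, by simp [Q]; ring1⟩
  | exact ⟨2, 3, 1, 1, Or.inl rfl, Or.inl rfl, by simp [Q]; ring1⟩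
  | exact ⟨4, 5, 1, 1, Or.inl rfl, Or.inl rfl, by simp [Q]; ring1⟩
  | exact ⟨0, 1, 1, -1, Or.inl rfl, Or.inr rfl, by simp [Q]; ring1⟩
  | exact ⟨2, 3, 1, -1, Or.inl rfl, Or.inr rfl, by simp [Q]; ring1⟩
  | exact ⟨4, 5, 1, -1, Or.inl rfl, Or.inr rfl, by simp [Q]; ring1⟩

theorem w_two_le {e s : Fin 4} {r : Γ} (h : ∀ b, w (c b) ≤ r) (j : Fin 4) :
    w (two e s c j) ≤ r := by
  fin_cases e <;> fin_cases s <;> fin_cases j <;> simp [two, Valuation.map_neg, h]

theorem w_two_lt {e s : Fin 4} {r : Γ} (h : ∀ j, w (two e s c j) < r) (b : Fin 4) :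
    w (c b) < r := by
  have h0 := h 0
  have h1 := h 1
  have h2 := h 2
  have h3 := h 3
  fin_cases e <;> fin_cases s <;> simp [two, Valuation.map_neg] at h0 h1 h2 h3 <;>
    fin_cases b <;> assumption

/-- If the point is congruent to a point of order two, then its double is congruent to zero. -/
theorem dbl_two (h2 : w 2 = 1) (hc0 : ∀ b, c b ≠ 0) (hc : ∀ b, w (c b) ≤ 1)
    (hC : ∀ k, w (Z k c c) = 1)
    (hQ : ∀ m, w (Q m c c) = 1) (hx : Kummer c x) {e s : Fin 4}
    (hT : ∀ i j, ∃ l, w (x i * two e s c j - x j * two e s c i) < w (x l))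
    {t : K} (ht : ∀ b, w (t * dbl c x b) ≤ 1) (i j : Fin 4) :
    w (c i * (t * dbl c x j) - c j * (t * dbl c x i)) < 1 := by
  have h4 := w_four w h2
  obtain ⟨a, ha0, ha⟩ := exists_norm w hx.1
  set x' : Fin 4 → K := (x a)⁻¹ • x with hx'
  have hK : Kummer c x' := hx.smul (inv_ne_zero ha0)
  have hxx : x = x a • x' := by
    rw [hx', smul_smul, mul_inv_cancel₀ ha0, one_smul]
  have h1 : x' a = 1 := by
    rw [hx']
    simp [ha0]
  set T := two e s c with hTd
  have hwa : w (x a) ≠ 0 := by rwa [Ne, map_eq_zero]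
  have hTn (i j : Fin 4) : w (x' i * T j - x' j * T i) < 1 := by
    obtain ⟨l, hl⟩ := hT i j
    have h5 : w (x l) ≤ w (x a) := by
      have := ha l
      rw [map_mul, map_inv₀, inv_mul_le_iff₀ (zero_lt_iff.2 hwa), mul_one] at this
      exact this
    have h6 : x' i * T j - x' j * T i = (x a)⁻¹ * (x i * T j - x j * T i) := by
      rw [hx']
      simp only [Pi.smul_apply, smul_eq_mul]
      ring
    rw [h6, map_mul, map_inv₀, inv_mul_lt_iff₀ (zero_lt_iff.2 hwa), mul_one]
    exact hl.trans_le h5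
  have hT1 (j : Fin 4) : w (T j) ≤ 1 := w_two_le hc j
  have hTa : w (T a) = 1 := by
    refine le_antisymm (hT1 a) ?_
    by_contra h5
    push Not at h5
    have h6 (j : Fin 4) : w (T j) < 1 := by
      have h7 := hTn a j
      rw [h1, one_mul] at h7
      have h8 : w (x' j * T a) < 1 := by
        rw [map_mul]
        exact mul_lt1 (ha j) h5
      have h9 := w.map_add_lt h7 h8
      rwa [sub_add_cancel] at h9
    have h7 := w_two_lt h6
    have h8 := w_Z_lt w (u := c) (x := c) (r := 1) (fun b => by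
      rw [map_mul]
      exact mul_lt1 (hc b) (h7 b)) 0
    rw [hC] at h8
    exact lt_irrefl _ h8
  have hTa0 : T a ≠ 0 := by
    intro h
    rw [h, map_zero] at hTa
    exact zero_ne_one hTa
  set lam : K := (T a)⁻¹ with hlam
  have hlw : w lam = 1 := by
    rw [hlam, map_inv₀, hTa, inv_one]
  set U : Fin 4 → K := lam • T with hU
  set d : Fin 4 → K := x' - U with hd
  have hdw (j : Fin 4) : w (d j) < 1 := by
    have h7 := hTn a j
    have h8 : d j = - (lam * (x' a * T j - x' j * T a)) := by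
      rw [hd, hU, h1, hlam]
      simp only [Pi.sub_apply, Pi.smul_apply, smul_eq_mul]
      field_simp
      ring
    rw [h8, Valuation.map_neg, map_mul, hlw, one_mul]
    exact h7
  have hUw (j : Fin 4) : w (U j) ≤ 1 := by
    rw [hU, Pi.smul_apply, smul_eq_mul, map_mul, hlw, one_mul]
    exact hT1 j
  have hx'd : x' = U + d := by
    rw [hd]
    abel
  have hud (b : Fin 4) : w ((U + U + d) b) ≤ 1 := by
    simp only [Pi.add_apply]
    exact w.map_add_le (w.map_add_le (hUw b) (hUw b)) (hdw b).le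
  -- the congruences of the squares
  have hZ (k : Fin 4) : w (Z k x' x' ^ 2 - lam ^ 4 * Z k c c ^ 2) < 1 := by
    have h5 : Z k x' x' ^ 2 - lam ^ 4 * Z k c c ^ 2 =
        (Z k x' x' - Z k U U) * (Z k x' x' + Z k U U) := by
      have h6 : Z k U U ^ 2 = lam ^ 4 * Z k c c ^ 2 := by
        rw [← two_Z e s k c, hU, Z_smul]
        have h7 : Z k (lam • T) T = lam * Z k T T := by
          fin_cases k <;> simp [Z] <;> ring
        rw [h7]
        ring
      rw [← h6]
      ring
    rw [h5, hx'd, Z_add, map_mul]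
    refine mul_lt1' (w_Z_lt w (fun b => ?_) k) ?_
    · rw [map_mul]
      exact mul_lt1 (hud b) (hdw b)
    · refine w.map_add_le (w_Z_le w (fun b => ?_) k) (w_Z_le w (fun b => ?_) k)
      · rw [map_mul]
        have : w ((U + d) b) ≤ 1 := by
          simp only [Pi.add_apply]
          exact w.map_add_le (hUw b) (hdw b).le
        exact mul_le_one' this this
      · rw [map_mul]
        exact mul_le_one' (hUw b) (hUw b)
  have hQ2 (m : Fin 6) : w (Q m x' x' ^ 2 - lam ^ 4 * Q m c c ^ 2) < 1 := by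
    have h5 : Q m x' x' ^ 2 - lam ^ 4 * Q m c c ^ 2 =
        (Q m x' x' - Q m U U) * (Q m x' x' + Q m U U) := by
      have h6 : Q m U U ^ 2 = lam ^ 4 * Q m c c ^ 2 := by
        rw [← two_Q e s m c, hU, Q_smul2]
        ring
      rw [← h6]
      ring
    rw [h5, hx'd, Q_add, map_mul]
    refine mul_lt1' (w_Q_lt w (fun k l => ?_) m) ?_
    · rw [map_mul]
      exact mul_lt1 (hud k) (hdw l)
    · have hUd (b : Fin 4) : w ((U + d) b) ≤ 1 := by
        simp only [Pi.add_apply]
        exact w.map_add_le (hUw b) (hdw b).le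
      refine w.map_add_le (w_Q_le w (fun k l => ?_) m) (w_Q_le w (fun k l => ?_) m)
      · rw [map_mul]
        exact mul_le_one' (hUd k) (hUd l)
      · rw [map_mul]
        exact mul_le_one' (hUw k) (hUw l)
  -- the difference of the double and of the multiple of `c`
  set D : Fin 4 → K := dbl c x' - lam ^ 4 • c with hD
  have hDZ (k : Fin 4) : w (Z k c D) < 1 := by
    have h5 : Z k c D = (Z k x' x' ^ 2 - lam ^ 4 * Z k c c ^ 2) / Z k c c := by
      have h6 : Z k c c ≠ 0 := by
        intro h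
        have := hC k
        rw [h, map_zero] at this
        exact zero_ne_one this
      rw [hD, Z_sub, Z_dbl hc0, Z_smul k c c (lam ^ 4)]
      field_simp
    rw [h5, map_div₀, hC, div_one]
    exact hZ k
  have hDQ (m : Fin 6) : w (Q m c D) < 1 := by
    have h5 : Q m c D = (Q m x' x' ^ 2 - lam ^ 4 * Q m c c ^ 2) / Q m c c := by
      have h6 : Q m c c ≠ 0 := by
        intro h
        have := hQ m
        rw [h, map_zero] at this
        exact zero_ne_one this
      have h7 := hK.2 m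
      rw [hD, Q_sub, Q_smul m c c (lam ^ 4), eq_div_iff h6]
      linear_combination h7
    rw [h5, map_div₀, hQ, div_one]
    exact hQ2 m
  obtain ⟨b0, hb0⟩ : ∃ b0, w (c b0) = 1 := by
    by_contra hcon
    push Not at hcon
    have h5 (b : Fin 4) : w (c b) < 1 := lt_of_le_of_ne (hc b) (hcon b)
    have h8 := w_Z_lt w (u := c) (x := c) (r := 1) (fun b => by
      rw [map_mul]
      exact mul_lt1 (hc b) (h5 b)) 0
    rw [hC] at h8
    exact lt_irrefl _ h8
  have hDb (b : Fin 4) : w (c b * D b) < 1 := by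
    have h5 : 4 * (c b * D b) = Z b (fun k => Z k c D) 1 := by
      fin_cases b <;> simp [Z] <;> ring
    have h6 : w (4 * (c b * D b)) < 1 := by
      rw [h5]
      refine w_Z_lt w (fun b => ?_) b
      rw [Pi.one_apply, mul_one]
      exact hDZ b
    rwa [map_mul, h4, one_mul] at h6
  have hD0 : w (D b0) < 1 := by
    have := hDb b0
    rwa [map_mul, hb0, one_mul] at this
  have hDw (j : Fin 4) : w (D j) < 1 := by
    rcases eq_or_ne b0 j with rfl | hj
    · exact hD0
    obtain ⟨m, m', s1, s2, hs1, hs2, he⟩ := pair_eq c D b0 j hj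
    have h5 : w (2 * (c b0 * D j + c j * D b0)) < 1 := by
      rw [he]
      have hs (s : K) (hs : s = 1 ∨ s = -1) : w s = 1 := by
        rcases hs with rfl | rfl
        · exact map_one w
        · rw [Valuation.map_neg, map_one]
      refine w.map_add_lt ?_ ?_
      · rw [map_mul, hs s1 hs1, one_mul]
        exact hDQ m
      · rw [map_mul, hs s2 hs2, one_mul]
        exact hDQ m'
    rw [map_mul, h2, one_mul] at h5
    have h6 : w (-(c j * D b0)) < 1 := by
      rw [Valuation.map_neg, map_mul]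
      exact mul_lt1 (hc j) hD0
    have h7 := w.map_add_lt h5 h6
    rw [add_neg_cancel_right, map_mul, hb0, one_mul] at h7
    exact h7
  have hX (j : Fin 4) : dbl c x' j = D j + lam ^ 4 * c j := by
    rw [hD]
    simp
  have h5 : 1 ≤ w (dbl c x' b0) := by
    by_contra h6
    push Not at h6
    have h7 : lam ^ 4 * c b0 = dbl c x' b0 + -D b0 := by
      rw [hX]
      ring
    have h8 : w (lam ^ 4 * c b0) < 1 := by
      rw [h7]
      exact w.map_add_lt h6 (by rwa [Valuation.map_neg])
    rw [map_mul, map_pow, hlw, hb0, one_pow, one_mul] at h8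
    exact lt_irrefl _ h8
  rw [hxx, dbl_smul]
  rw [hxx, dbl_smul] at ht
  set t' : K := t * x a ^ 4 with ht'
  have h6 : w t' ≤ 1 := by
    have h6 := ht b0
    rw [Pi.smul_apply, smul_eq_mul, ← mul_assoc, ← ht', map_mul] at h6
    by_contra h7
    push Not at h7
    have h8 : 1 < w t' * w (dbl c x' b0) := h7.trans_le (le_mul_of_one_le_right' h5)
    exact absurd h6 (not_le.2 h8)
  have h7 : c i * (t * (x a ^ 4 • dbl c x') j) - c j * (t * (x a ^ 4 • dbl c x') i) =
      t' * (c i * D j + -(c j * D i)) := by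
    simp only [Pi.smul_apply, smul_eq_mul, hX, ht']
    ring
  rw [h7, map_mul]
  refine mul_lt1 h6 (w.map_add_lt ?_ ?_)
  · rw [map_mul]
    exact mul_lt1 (hc i) (hDw j)
  · rw [Valuation.map_neg, map_mul]
    exact mul_lt1 (hc j) (hDw i)

end val

end Pool.Agent.H433.TH
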