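import Pool.Agent.H433.TH.Ht
import Mathlib.NumberTheory.NumberField.CanonicalEmbedding.ConvexBody
import Mathlib.RingTheory.FractionalIdeal.Norm
import Mathlib.RingTheory.ClassGroup.Basic

/-!
Integral coordinates of points of projective space, with balanced conjugates.
-/

set_option autoImplicit false

open NumberField IsDedekindDomain Finset MeasureTheory NumberField.mixedEmbedding
open scoped nonZeroDivisors NNReal ENNReal

namespace Pool.Agent.H433.TH

open Classical in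
theorem exists_small (K : Type) [Field K] [NumberField K] : ∃ C : ℝ, 1 ≤ C ∧
    ∀ (I : Ideal (𝓞 K)) (M : InfinitePlace K → ℝ), I ≠ ⊥ → (∀ w, 0 < M w) →
      ∃ a : K, a ≠ 0 ∧ (∀ y ∈ I, ∃ z : 𝓞 K, (z : K) = a * y) ∧
        ∀ w : InfinitePlace K, w a * M w ≤
          C * ((∏ w, M w ^ w.mult) / Ideal.absNorm I) ^ ((Module.finrank ℚ K : ℝ)⁻¹) := by
  set B0 : ℝ := (minkowskiBound K 1).toReal with hB0
  have hB00 : 0 ≤ B0 := ENNReal.toReal_nonneg
  refine ⟨B0 + 1, by linarith, fun I M hI hM => ?_⟩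
  set d : ℕ := Module.finrank ℚ K with hd
  have hd0 : d ≠ 0 := Module.finrank_pos.ne'
  have hNI : (0 : ℝ) < Ideal.absNorm I := by
    have : Ideal.absNorm I ≠ 0 := by
      rwa [Ne, Ideal.absNorm_eq_zero_iff]
    exact_mod_cast Nat.pos_of_ne_zero this
  set P : ℝ := ∏ w, M w ^ w.mult with hP
  have hP0 : 0 < P := prod_pos fun w _ => pow_pos (hM w) _
  set H : ℝ := P / Ideal.absNorm I with hH
  have hH0 : 0 < H := div_pos hP0 hNI
  set R : ℝ := (B0 + 1) * H ^ ((d : ℝ)⁻¹) with hR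
  have hR0 : 0 < R := by positivity
  set f : InfinitePlace K → ℝ≥0 := fun w => (R / M w).toNNReal with hf
  have hI0 : I ∈ (Ideal (𝓞 K))⁰ := mem_nonZeroDivisors_iff_ne_zero.2 hI
  set J : (FractionalIdeal (𝓞 K)⁰ K)ˣ := (FractionalIdeal.mk0 K ⟨I, hI0⟩)⁻¹ with hJ
  have hJn : ((FractionalIdeal.absNorm (J : FractionalIdeal (𝓞 K)⁰ K) : ℚ) : ℝ) =
      (Ideal.absNorm I : ℝ)⁻¹ := by
    rw [hJ, Units.val_inv_eq_inv_val, map_inv₀, FractionalIdeal.coe_mk0,
      FractionalIdeal.coeIdeal_absNorm]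
    push_cast
    rfl
  have hfp : ((∏ w, f w ^ w.mult : ℝ≥0) : ℝ) = R ^ d / P := by
    push_cast
    have h1 (w : InfinitePlace K) : ((f w : ℝ≥0) : ℝ) = R / M w := by
      simp only [hf]
      exact Real.coe_toNNReal _ (div_pos hR0 (hM w)).le
    simp only [h1, div_pow, prod_div_distrib, prod_pow_eq_pow_sum]
    rw [InfinitePlace.sum_mult_eq]
  have hmb : minkowskiBound K J < volume (convexBodyLT K f) := by
    have h1 : minkowskiBound K J = ENNReal.ofReal ((Ideal.absNorm I : ℝ)⁻¹ * B0) := by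
      have h2 : minkowskiBound K J = ENNReal.ofReal ((Ideal.absNorm I : ℝ)⁻¹) *
          minkowskiBound K 1 := by
        unfold minkowskiBound
        rw [volume_fundamentalDomain_fractionalIdealLatticeBasis,
          volume_fundamentalDomain_fractionalIdealLatticeBasis, hJn]
        simp [mul_assoc]
      rw [h2, ENNReal.ofReal_mul (by positivity), hB0, ENNReal.ofReal_toReal
        (minkowskiBound_lt_top K 1).ne]
    rw [h1, convexBodyLT_volume]
    have h3 : ENNReal.ofReal ((Ideal.absNorm I : ℝ)⁻¹ * B0) <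
        ((∏ w, f w ^ w.mult : ℝ≥0) : ℝ≥0∞) := by
      rw [ENNReal.ofReal_lt_coe_iff (by positivity), hfp]
      have h4 : R ^ d = (B0 + 1) ^ d * H := by
        rw [hR, mul_pow, ← Real.rpow_natCast (H ^ _), ← Real.rpow_mul hH0.le, inv_mul_cancel₀
          (by exact_mod_cast hd0), Real.rpow_one]
      rw [h4, hH]
      have h5 : (B0 + 1) ^ d * (P / Ideal.absNorm I) / P = (Ideal.absNorm I : ℝ)⁻¹ *
          (B0 + 1) ^ d := by
        field_simp
      rw [h5]
      refine mul_lt_mul_of_pos_left ?_ (by positivity)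
      calc B0 < B0 + 1 := by linarith
        _ = (B0 + 1) ^ 1 := (pow_one _).symm
        _ ≤ (B0 + 1) ^ d := pow_le_pow_right₀ (by linarith) (Nat.one_le_iff_ne_zero.2 hd0)
    refine h3.trans_le ?_
    have h6 : (1 : ℝ≥0∞) ≤ (convexBodyLTFactor K : ℝ≥0∞) := by
      exact_mod_cast one_le_convexBodyLTFactor K
    have h7 : ((∏ w, f w ^ w.mult : ℝ≥0) : ℝ≥0∞) = ∏ w, (f w : ℝ≥0∞) ^ w.mult := by
      push_cast
      rfl
    rw [h7]
    exact le_mul_of_one_le_left' h6
  obtain ⟨a, haJ, ha0, ha⟩ := exists_ne_zero_mem_ideal_lt K J hmb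
  refine ⟨a, ha0, fun y hy => ?_, fun w => ?_⟩
  · have h1 : a ∈ ((FractionalIdeal.mk0 K ⟨I, hI0⟩ : (FractionalIdeal (𝓞 K)⁰ K)ˣ) :
        FractionalIdeal (𝓞 K)⁰ K)⁻¹ := by
      rw [hJ, Units.val_inv_eq_inv_val] at haJ
      exact haJ
    rw [FractionalIdeal.coe_mk0, FractionalIdeal.mem_inv_iff
      (by exact FractionalIdeal.coeIdeal_ne_zero.2 hI)] at h1
    have h2 := h1 (y : K) (FractionalIdeal.mem_coeIdeal_of_mem _ hy)
    rw [FractionalIdeal.mem_one_iff] at h2
    exact h2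
  · have h1 := (ha w).le
    simp only [hf] at h1
    rw [Real.coe_toNNReal _ (div_pos hR0 (hM w)).le, le_div_iff₀ (hM w)] at h1
    exact h1

theorem exists_rep (K : Type) [Field K] [NumberField K] : ∃ C : ℝ, 1 ≤ C ∧
    ∀ x : Fin 4 → K, x ≠ 0 → ∃ (t : K) (y : Fin 4 → 𝓞 K), t ≠ 0 ∧
      (∀ i, (y i : K) = t * x i) ∧ ∀ (σ : K →+* ℂ) (i : Fin 4),
        ‖σ (y i : K)‖ ≤ C * Height.mulHeight x ^ ((Module.finrank ℚ K : ℝ)⁻¹) := by
  obtain ⟨C, hC, h⟩ := exists_small K
  refine ⟨C, hC, fun x hx => ?_⟩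
  obtain ⟨b, hb⟩ := IsLocalization.exist_integer_multiples_of_finite (𝓞 K)⁰ x
  choose x0 hx0 using hb
  have hb0 : ((b : 𝓞 K) : K) ≠ 0 := by
    have := nonZeroDivisors.coe_ne_zero b
    exact_mod_cast this
  have hx0' (i : Fin 4) : (x0 i : K) = (b : 𝓞 K) * x i := by
    have := hx0 i
    rw [Algebra.smul_def] at this
    exact this
  have hx1 : (fun i => (x0 i : K)) = ((b : 𝓞 K) : K) • x := by
    funext i
    rw [hx0' i, Pi.smul_apply, smul_eq_mul]
  have hH : Height.mulHeight x = Height.mulHeight (fun i => (x0 i : K)) := by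
    rw [hx1, Height.mulHeight_smul_eq_mulHeight _ hb0]
  have hne : (fun i => (x0 i : K)) ≠ 0 := by
    rw [hx1]
    exact smul_ne_zero hb0 hx
  have hx00 : x0 ≠ 0 := by
    rintro rfl
    apply hne
    funext i
    simp
  obtain ⟨i0, hi0⟩ := Function.ne_iff.1 hx00
  have hi0' : (x0 i0 : K) ≠ 0 := by exact_mod_cast hi0
  have hI : Ideal.span (Set.range x0) ≠ ⊥ := by
    intro h0
    rw [Ideal.span_eq_bot] at h0
    exact hi0 (h0 _ ⟨i0, rfl⟩)
  have hM (w : InfinitePlace K) : 0 < ⨆ i, w (x0 i : K) := by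
    have h1 : 0 < w (x0 i0 : K) := w.pos_iff.2 hi0'
    exact h1.trans_le (le_ciSup (f := fun i => w (x0 i : K)) (Set.finite_range _).bddAbove i0)
  obtain ⟨a, ha0, hay, haw⟩ := h (Ideal.span (Set.range x0)) (fun w => ⨆ i, w (x0 i : K)) hI hM
  have h1 (i : Fin 4) := hay (x0 i) (Ideal.subset_span ⟨i, rfl⟩)
  choose y hy using h1
  refine ⟨a * ((b : 𝓞 K) : K), y, mul_ne_zero ha0 hb0, fun i => ?_, fun σ i => ?_⟩
  · rw [hy, hx0' i, mul_assoc]
  · have h2 : (∏ w : InfinitePlace K, (⨆ i, w (x0 i : K)) ^ w.mult) /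
        Ideal.absNorm (Ideal.span (Set.range x0)) = Height.mulHeight x := by
      rw [hH, NumberField.mulHeight_eq hne, div_eq_mul_inv]
      congr 1
      exact (eq_inv_of_mul_eq_one_right
        (NumberField.absNorm_mul_finprod_finitePlace_eq_one hx00)).symm
    have h3 := haw (InfinitePlace.mk σ)
    rw [h2] at h3
    refine le_trans ?_ h3
    rw [hy, map_mul, norm_mul]
    have h4 (z : K) : ‖σ z‖ = InfinitePlace.mk σ z := (InfinitePlace.apply σ z).symm
    rw [h4, h4]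
    refine mul_le_mul_of_nonneg_left ?_ (apply_nonneg _ _)
    exact le_ciSup (f := fun i => (InfinitePlace.mk σ) (x0 i : K)) (Set.finite_range _).bddAbove i

end Pool.Agent.H433.TH
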