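import Pool.Agent.H433.TH.ExcCnt
import Pool.Agent.H433.TH.Loc
import Pool.Agent.H433.TH.Rep
import Pool.Agent.H433.AC.Fac

/-!
The values of the forms at a double are divisible by the theta constants.
-/

set_option autoImplicit false
set_option linter.unusedSectionVars false

open NumberField IsDedekindDomain Finset

namespace Pool.Agent.H433.TH

open Pool.Agent.H433.AC

variable {K : Type} [Field K] [NumberField K]

open Classical in
/-- An integer divides, up to a small factor, every integer which vanishes at all its good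
places. -/
theorem bad_part {ι : Type*} (T : Finset ι) {x : 𝓞 K} (hx : x ≠ 0) (y : ι → 𝓞 K) (N : ι → ℝ)
    {Y : ℝ} (hY : 1 ≤ Y)
    (hI : ∀ τ ∈ T, ∀ I : Ideal (𝓞 K), x ∈ I → y τ ∈ I → (Ideal.absNorm I : ℝ) ≤ N τ)
    (hsq : ∀ I : Ideal (𝓞 K), x ∈ I ^ 2 → (Ideal.absNorm I : ℝ) ≤ Y) :
    ∃ e : ℕ, e ≠ 0 ∧ (e : ℝ) ≤ Y ^ 3 * ∏ τ ∈ T, N τ ∧
      ∀ z : 𝓞 K, (∀ v : HeightOneSpectrum (𝓞 K), x ∈ v.asIdeal → x ∉ v.asIdeal ^ 2 →
        (∀ τ ∈ T, y τ ∉ v.asIdeal) → z ∈ v.asIdeal) → x ∣ (e : 𝓞 K) * z := by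
  set V := (finite_mem hx).toFinset with hVd
  have hV (v : HeightOneSpectrum (𝓞 K)) : v ∈ V ↔ x ∈ v.asIdeal := by
    exact Set.Finite.mem_toFinset _
  set G : HeightOneSpectrum (𝓞 K) → Prop := fun v => x ∉ v.asIdeal ^ 2 ∧
    ∀ τ ∈ T, y τ ∉ v.asIdeal with hG
  have hnv : ∀ v : HeightOneSpectrum (𝓞 K), (1 : ℝ) ≤ nv v := fun v => by
    exact_mod_cast (one_lt_nv v).le
  refine ⟨∏ v ∈ V.filter fun v => ¬ G v, nv v ^ mp v x, ?_, ?_, fun z hz => ?_⟩
  · rw [prod_ne_zero_iff]
    intro v _
    have := one_lt_nv v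
    positivity
  · push_cast
    set u : HeightOneSpectrum (𝓞 K) → ℝ := fun v => if 2 ≤ mp v x then (nv v : ℝ) ^ mp v x else 1
      with hu
    set g : ι → HeightOneSpectrum (𝓞 K) → ℝ := fun τ v => if y τ ∈ v.asIdeal then (nv v : ℝ) else 1
      with hg
    have hu1 : ∀ v, 1 ≤ u v := fun v => by
      simp only [hu]
      split_ifs
      · exact one_le_pow₀ (hnv v)
      · exact le_refl _
    have hg1 : ∀ τ v, 1 ≤ g τ v := fun τ v => by
      simp only [hg]
      split_ifs
      · exact hnv v
      · exact le_refl _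
    have hG1 : ∀ v, 1 ≤ ∏ τ ∈ T, g τ v := fun v => by
      rw [← prod_const_one (s := T)]
      exact prod_le_prod (fun _ _ => zero_le_one) fun τ _ => hg1 τ v
    have hloc : ∀ v ∈ V.filter fun v => ¬ G v,
        (nv v : ℝ) ^ mp v x ≤ u v * ∏ τ ∈ T, g τ v := by
      intro v hv
      rw [mem_filter, hV] at hv
      by_cases h2 : 2 ≤ mp v x
      · have : u v = (nv v : ℝ) ^ mp v x := if_pos h2
        rw [this]
        exact le_mul_of_one_le_right (by positivity) (hG1 v)
      · have h1 : mp v x = 1 := by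
          have := (mem_iff_mp hx).1 hv.1
          omega
        have h3 : x ∉ v.asIdeal ^ 2 := by
          rw [le_mp hx]
          omega
        obtain ⟨τ, hτ, hτv⟩ : ∃ τ ∈ T, y τ ∈ v.asIdeal := by
          by_contra hcon
          push Not at hcon
          exact hv.2 ⟨h3, hcon⟩
        rw [h1, pow_one]
        have h4 : g τ v = nv v := if_pos hτv
        have h5 : (nv v : ℝ) ≤ ∏ τ ∈ T, g τ v := by
          rw [← h4, ← mul_prod_erase _ _ hτ]
          refine le_mul_of_one_le_right (by linarith [hg1 τ v]) ?_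
          rw [← prod_const_one (s := T.erase τ)]
          exact prod_le_prod (fun _ _ => zero_le_one) fun q _ => hg1 q v
        exact h5.trans (le_mul_of_one_le_left (by linarith [hG1 v]) (hu1 v))
    have hU : ∏ v ∈ V, u v ≤ Y ^ 3 := by
      set S := V.filter fun v => 2 ≤ mp v x with hS
      have e1 : ∏ v ∈ V, u v = ∏ v ∈ S, (nv v : ℝ) ^ mp v x := by
        rw [hS, prod_filter]
      have e2 : ∏ v ∈ S, (nv v : ℝ) ^ mp v x ≤ (∏ v ∈ S, (nv v : ℝ) ^ (mp v x / 2)) ^ 3 := by
        rw [← prod_pow]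
        refine prod_le_prod (fun v _ => by positivity) fun v hv => ?_
        rw [← pow_mul]
        rw [hS, mem_filter] at hv
        exact pow_le_pow_right₀ (hnv v) (by omega)
      have e3 : ∏ v ∈ S, (nv v : ℝ) ^ (mp v x / 2) ≤ Y := by
        have f1 := hsq (∏ v ∈ S, v.asIdeal ^ (mp v x / 2)) ?_
        · rw [absNorm_prod] at f1
          push_cast at f1
          exact f1
        · rw [← prod_pow, ← Ideal.dvd_span_singleton]
          have f2 := prod_dvd S (fun v => mp v x / 2 * 2) (Ideal.span {x}) fun v _ => by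
            rw [Ideal.dvd_span_singleton, le_mp hx]
            omega
          simpa only [pow_mul] using f2
      rw [e1]
      exact e2.trans (pow_le_pow_left₀ (prod_nonneg fun v _ => by positivity) e3 3)
    have hGq : ∀ τ ∈ T, ∏ v ∈ V, g τ v ≤ N τ := by
      intro τ hτ
      set S := V.filter fun v => y τ ∈ v.asIdeal with hS
      have e1 : ∏ v ∈ V, g τ v = ∏ v ∈ S, (nv v : ℝ) := by
        rw [hS, prod_filter]
      have e2 : ∏ v ∈ S, v.asIdeal ∣ Ideal.span {x} := by
        refine prod_one_dvd S _ fun v hv => ?_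
        rw [hS, mem_filter, hV] at hv
        exact Ideal.dvd_span_singleton.2 hv.1
      have e3 : ∏ v ∈ S, v.asIdeal ∣ Ideal.span {y τ} := by
        refine prod_one_dvd S _ fun v hv => ?_
        rw [hS, mem_filter] at hv
        exact Ideal.dvd_span_singleton.2 hv.2
      have e4 := hI τ hτ _ (Ideal.dvd_span_singleton.1 e2) (Ideal.dvd_span_singleton.1 e3)
      rw [map_prod] at e4
      push_cast at e4
      rw [e1]
      exact e4
    calc ∏ v ∈ V.filter (fun v => ¬ G v), (nv v : ℝ) ^ mp v x
        ≤ ∏ v ∈ V.filter (fun v => ¬ G v), u v * ∏ τ ∈ T, g τ v :=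
          prod_le_prod (fun v _ => by positivity) hloc
      _ ≤ ∏ v ∈ V, u v * ∏ τ ∈ T, g τ v := by
          have hp (W : Finset (HeightOneSpectrum (𝓞 K))) : 1 ≤ ∏ v ∈ W, u v * ∏ τ ∈ T, g τ v := by
            rw [← prod_const_one (s := W)]
            exact prod_le_prod (fun _ _ => zero_le_one) fun v _ =>
              one_le_mul_of_one_le_of_one_le (hu1 v) (hG1 v)
          rw [← prod_filter_mul_prod_filter_not V G]
          exact le_mul_of_one_le_left (zero_le_one.trans (hp _)) (hp _)
      _ = (∏ v ∈ V, u v) * ∏ τ ∈ T, ∏ v ∈ V, g τ v := by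
          rw [prod_mul_distrib, prod_comm]
      _ ≤ Y ^ 3 * ∏ τ ∈ T, N τ := by
          refine mul_le_mul hU ?_ ?_ (by positivity)
          · exact prod_le_prod (fun τ _ => prod_nonneg fun v _ => by linarith [hg1 τ v]) hGq
          · exact prod_nonneg fun τ _ => prod_nonneg fun v _ => by linarith [hg1 τ v]
  · set I : Ideal (𝓞 K) := ∏ v ∈ V.filter (fun v => ¬ G v), v.asIdeal ^ mp v x with hId
    set J : Ideal (𝓞 K) := ∏ v ∈ V.filter G, v.asIdeal with hJd
    have h1 : ((∏ v ∈ V.filter (fun v => ¬ G v), nv v ^ mp v x : ℕ) : 𝓞 K) ∈ I := by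
      rw [← absNorm_prod]
      exact Ideal.absNorm_mem _
    have h2 : z ∈ J := by
      rw [← Ideal.dvd_span_singleton]
      refine prod_one_dvd _ _ fun v hv => ?_
      rw [mem_filter, hV] at hv
      exact Ideal.dvd_span_singleton.2 (hz v hv.1 hv.2.1 hv.2.2)
    have h3 : Ideal.span {x} = I * J := by
      have h4 : Ideal.span {x} ≠ ⊥ := by
        rw [Ne, Ideal.span_singleton_eq_bot]
        exact hx
      have h5 := Ideal.finprod_heightOneSpectrum_pow_multiplicity h4
      rw [finprod_eq_prod_of_mulSupport_subset (s := V) _ ?_] at h5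
      · rw [← h5, ← prod_filter_mul_prod_filter_not V G, mul_comm]
        congr 1
        refine prod_congr rfl fun v hv => ?_
        rw [mem_filter, hV] at hv
        have h6 : mp v x = 1 := by
          have h7 := (mem_iff_mp hx).1 hv.1
          have h8 := hv.2.1
          rw [le_mp hx] at h8
          omega
        unfold mp at h6
        rw [h6, pow_one]
      · intro v hv
        rw [Function.mem_mulSupport] at hv
        rw [Finset.mem_coe, hV, mem_iff_mp hx]
        by_contra h
        apply hv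
        have : mp v x = 0 := by omega
        unfold mp at this
        rw [this, pow_zero]
    have h4 := Ideal.mul_mem_mul h1 h2
    rw [← h3, Ideal.mem_span_singleton] at h4
    exact h4

end Pool.Agent.H433.TH
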