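import Pool.Agent.H433.AC.Def
import Mathlib.NumberTheory.Height.NumberField

/-!
Definitions: principally polarised abelian surfaces in theta coordinates.

Let `c = (c_0, c_1, c_2, c_3)` be the values at `0` of the four theta functions of the second order
of a principally polarised abelian surface `A` (a point of level `(2,4)`). The Kummer surface of
`A` lies in the projective space with the coordinates `x = (x_0, x_1, x_2, x_3)`, the four theta
functions of the second order. The forms `Z k` and `Q m` are the ten even bilinear forms with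
`θ_m (z) ^ 2 = Z m c x`, `θ_m (0) θ_m (2 z) = Z m x x`.
-/

set_option autoImplicit false

open NumberField IsDedekindDomain Finset Filter Topology

namespace Pool.Agent.H433.TH

open Pool.Agent.H433.AC

section forms

variable {R : Type*} [CommRing R]

/-- the four forms `∑ χ(b) u_b w_b`, `χ` a character of `(ℤ/2)²` -/
def Z (k : Fin 4) (u w : Fin 4 → R) : R :=
  ![u 0 * w 0 + u 1 * w 1 + u 2 * w 2 + u 3 * w 3,
    u 0 * w 0 + u 1 * w 1 - u 2 * w 2 - u 3 * w 3,
    u 0 * w 0 - u 1 * w 1 + u 2 * w 2 - u 3 * w 3,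
    u 0 * w 0 - u 1 * w 1 - u 2 * w 2 + u 3 * w 3] k

/-- the six forms `∑ χ(b) u_(a+b) w_b`, `a ≠ 0` in `(ℤ/2)²` and `χ` with `χ(a) = 1` -/
def Q (m : Fin 6) (u w : Fin 4 → R) : R :=
  ![(u 0 * w 1 + u 1 * w 0) + (u 2 * w 3 + u 3 * w 2),
    (u 0 * w 1 + u 1 * w 0) - (u 2 * w 3 + u 3 * w 2),
    (u 0 * w 2 + u 2 * w 0) + (u 1 * w 3 + u 3 * w 1),
    (u 0 * w 2 + u 2 * w 0) - (u 1 * w 3 + u 3 * w 1),
    (u 0 * w 3 + u 3 * w 0) + (u 1 * w 2 + u 2 * w 1),
    (u 0 * w 3 + u 3 * w 0) - (u 1 * w 2 + u 2 * w 1)] m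

/-- the translates of `c` by the sixteen points of order two -/
def two (e s : Fin 4) (c : Fin 4 → R) : Fin 4 → R :=
  ![![c 0, c 1, c 2, c 3], ![c 1, c 0, c 3, c 2], ![c 2, c 3, c 0, c 1], ![c 3, c 2, c 1, c 0]] e *
  ![![1, 1, 1, 1], ![1, 1, -1, -1], ![1, -1, 1, -1], ![1, -1, -1, 1]] s

end forms

variable {K : Type} [Field K]

/-- the theta constants and the coordinates do not vanish -/
def Theta (c : Fin 4 → K) : Prop :=
  (∀ b, c b ≠ 0) ∧ (∀ k, Z k c c ≠ 0) ∧ ∀ m, Q m c c ≠ 0

/-- the duplication on the Kummer surface -/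
def dbl (c x : Fin 4 → K) : Fin 4 → K := fun b =>
  Z b (fun k => Z k x x ^ 2 / Z k c c) 1 / (4 * c b)

/-- `x` is a point of the Kummer surface. -/
def Kummer (c x : Fin 4 → K) : Prop :=
  x ≠ 0 ∧ ∀ m, Q m c c * Q m c (dbl c x) = Q m x x ^ 2

/-- two vectors are proportional -/
def Prop2 (x y : Fin 4 → K) : Prop := ∀ i j, x i * y j = x j * y i

variable [NumberField K]

/-- the canonical height, relative to `K` -/
noncomputable def hhat (c x : Fin 4 → K) : ℝ :=
  limUnder atTop fun n : ℕ => Height.logHeight ((dbl c)^[n] x) / 4 ^ n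

/-- The place `v` does not divide two, the surface has good reduction at `v`, irreducible (not a
product of elliptic curves), and the point with the coordinates `x` is congruent modulo `v` to a
point of order two. -/
def TwoMod (c : Fin 4 → 𝓞 K) (x : Fin 4 → K) (v : HeightOneSpectrum (𝓞 K)) : Prop :=
  (2 : 𝓞 K) ∉ v.asIdeal ∧ (∀ k, Z k c c ∉ v.asIdeal) ∧ (∀ m, Q m c c ∉ v.asIdeal) ∧
    ∃ e s, ∀ i j, ∃ l, v.valuation K (x i * (two e s c j : 𝓞 K) - x j * (two e s c i : 𝓞 K)) <
      v.valuation K (x l)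

/-- The inequality of Lang and Silverman, with explicit constants, for the principally polarised
abelian surface with the theta constants `c`, for all its quadratic twists, and for all the points
of these twists which are not of order two. The inequality `(1 - ε) [K : ℚ] log H ≤ h (c)` says
that the height of `c` is not smaller than expected. -/
def LangSilverman (ε : ℝ) (H : ℕ) (c : Fin 4 → 𝓞 K) : Prop :=
  (Theta fun i => (c i : K)) ∧
  (1 - ε) * (Module.finrank ℚ K * Real.log H) ≤ Height.logHeight (fun i => (c i : K)) ∧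
  ∀ x : Fin 4 → K, Kummer (fun i => (c i : K)) x →
    Tendsto (fun n : ℕ => Height.logHeight ((dbl fun i => (c i : K))^[n] x) / 4 ^ n) atTop
      (𝓝 (hhat (fun i => (c i : K)) x)) ∧
    (Prop2 (dbl (fun i => (c i : K)) x) (fun i => (c i : K)) ∨
      (1 / 12 - ε) * Height.logHeight (fun i => (c i : K)) ≤ hhat (fun i => (c i : K)) x ∧
      ∀ S : Finset (HeightOneSpectrum (𝓞 K)), (∀ v ∈ S, TwoMod c x v) →
        (1 / 172 - ε) * (12 * Height.logHeight (fun i => (c i : K)) +
          ∑ v ∈ S, Real.log (nv v)) ≤ hhat (fun i => (c i : K)) x)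

end Pool.Agent.H433.TH
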