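import Pool.Agent.H433.AC.Exc
import Mathlib.NumberTheory.NumberField.Units.DirichletTheorem
import Mathlib.Data.Multiset.Interval

/-!
Divisors of ideals, units of bounded height, and factorizations of an integer in a box.
-/

set_option autoImplicit false

open NumberField IsDedekindDomain Finset UniqueFactorizationMonoid
open NumberField.Units NumberField.Units.dirichletUnitTheorem

namespace Pool.Agent.H433.TH

open Pool.Agent.H433.AC

theorem real_aux {ε : ℝ} (hε : 0 < ε) (e : ℕ) {x : ℝ} (hx : 2 ≤ x) :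
    (e + 1 : ℝ) ≤ (1 + 1 / (ε * Real.log 2)) * (x ^ e) ^ ε := by
  have hl : 0 < Real.log 2 := Real.log_pos (by norm_num)
  have h1 : (2 : ℝ) ^ (ε * e) ≤ (x ^ e) ^ ε := by
    rw [← Real.rpow_natCast x e, ← Real.rpow_mul (by linarith), mul_comm (e : ℝ)]
    exact Real.rpow_le_rpow (by norm_num) hx (by positivity)
  have h2 : 1 + ε * e * Real.log 2 ≤ (2 : ℝ) ^ (ε * e) := by
    rw [Real.rpow_def_of_pos (by norm_num)]
    have := Real.add_one_le_exp (Real.log 2 * (ε * e))
    linarith
  have h3 : (e : ℝ) + 1 ≤ (1 + 1 / (ε * Real.log 2)) * (1 + ε * e * Real.log 2) := by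
    have h4 : (1 + 1 / (ε * Real.log 2)) * (1 + ε * e * Real.log 2) =
        1 + e + ε * e * Real.log 2 + 1 / (ε * Real.log 2) := by
      field_simp
      ring
    rw [h4]
    have : 0 ≤ ε * e * Real.log 2 := by positivity
    have : 0 ≤ 1 / (ε * Real.log 2) := by positivity
    linarith
  calc (e + 1 : ℝ) ≤ (1 + 1 / (ε * Real.log 2)) * (1 + ε * e * Real.log 2) := h3
    _ ≤ _ := mul_le_mul_of_nonneg_left (h2.trans h1) (by positivity)

theorem real_aux2 {ε : ℝ} (hε : 0 < ε) (e : ℕ) {x : ℝ} (hx : (2 : ℝ) ^ (1 / ε) ≤ x) :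
    (e + 1 : ℝ) ≤ (x ^ e) ^ ε := by
  have h0 : 0 < x := lt_of_lt_of_le (by positivity) hx
  have h1 : 2 ≤ x ^ ε := by
    have := Real.rpow_le_rpow (by positivity) hx hε.le
    rwa [← Real.rpow_mul (by norm_num), one_div, inv_mul_cancel₀ hε.ne', Real.rpow_one] at this
  rw [← Real.rpow_natCast x e, ← Real.rpow_mul h0.le, mul_comm (e : ℝ), Real.rpow_mul h0.le,
    Real.rpow_natCast]
  calc (e + 1 : ℝ) ≤ 2 ^ e := by
        have := Nat.lt_two_pow_self (n := e)
        exact_mod_cast this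
    _ ≤ _ := pow_le_pow_left₀ (by norm_num) h1 e

/-- the number of the divisors of an ideal -/
theorem ideal_div (K : Type) [Field K] [NumberField K] {ε : ℝ} (hε : 0 < ε) : ∃ C : ℝ, 1 ≤ C ∧
    ∀ J : Ideal (𝓞 K), J ≠ ⊥ → ∀ S : Finset (Ideal (𝓞 K)), (∀ I ∈ S, I ∣ J) →
      (S.card : ℝ) ≤ C * (Ideal.absNorm J : ℝ) ^ ε := by
  classical
  obtain ⟨C₁, hC₁, h1⟩ := card_ideals K
  set T : ℝ := (2 : ℝ) ^ (1 / ε) with hT
  have hT1 : 1 ≤ T := Real.one_le_rpow (by norm_num) (by positivity)
  set C0 : ℝ := 1 + 1 / (ε * Real.log 2) with hC0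
  have hl : 0 < Real.log 2 := Real.log_pos (by norm_num)
  have hC01 : 1 ≤ C0 := by
    have : 0 ≤ 1 / (ε * Real.log 2) := by positivity
    linarith
  refine ⟨C0 ^ ⌈C₁ * T⌉₊, one_le_pow₀ hC01, fun J hJ S hS => ?_⟩
  have hJ0 : J ≠ 0 := hJ
  set s := normalizedFactors J with hs
  have hle : S.card ≤ (Finset.Iic s).card := by
    refine Finset.card_le_card_of_injOn normalizedFactors (fun I hI => ?_) ?_
    · have hI0 : I ≠ 0 := ne_zero_of_dvd_ne_zero hJ0 (hS I hI)
      have := (dvd_iff_normalizedFactors_le_normalizedFactors hI0 hJ0).1 (hS I hI)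
      simpa using this
    · intro I hI I' hI' h
      have hI0 : I ≠ 0 := ne_zero_of_dvd_ne_zero hJ0 (hS I hI)
      have hI0' : I' ≠ 0 := ne_zero_of_dvd_ne_zero hJ0 (hS I' hI')
      rw [← Ideal.prod_normalizedFactors_eq_self hI0, ← Ideal.prod_normalizedFactors_eq_self hI0',
        h]
  have hN : (Ideal.absNorm J : ℝ) = ∏ p ∈ s.toFinset, (Ideal.absNorm p : ℝ) ^ s.count p := by
    have h2 : Ideal.absNorm J = ∏ p ∈ s.toFinset, Ideal.absNorm p ^ s.count p := by
      conv_lhs => rw [← Ideal.prod_normalizedFactors_eq_self hJ0]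
      rw [map_multiset_prod, Finset.prod_multiset_map_count]
    rw [h2]
    push_cast
    rfl
  have hp2 (p : Ideal (𝓞 K)) (hp : p ∈ s.toFinset) : (2 : ℝ) ≤ Ideal.absNorm p := by
    rw [Multiset.mem_toFinset] at hp
    have hpr := prime_of_normalized_factor p hp
    have h3 : Ideal.absNorm p ≠ 0 := by
      rw [Ne, Ideal.absNorm_eq_zero_iff]
      exact hpr.ne_zero
    have h4 : Ideal.absNorm p ≠ 1 := by
      rw [Ne, Ideal.absNorm_eq_one_iff]
      intro h
      exact hpr.not_isUnit (Ideal.isUnit_iff.2 h)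
    have : 2 ≤ Ideal.absNorm p := by omega
    exact_mod_cast this
  calc (S.card : ℝ) ≤ ((Finset.Iic s).card : ℝ) := by exact_mod_cast hle
    _ = ∏ p ∈ s.toFinset, ((s.count p : ℝ) + 1) := by
      rw [Multiset.card_Iic]
      push_cast
      rfl
    _ ≤ ∏ p ∈ s.toFinset, (if (Ideal.absNorm p : ℝ) < T then C0 else 1) *
        ((Ideal.absNorm p : ℝ) ^ s.count p) ^ ε := by
      refine Finset.prod_le_prod (fun p _ => by positivity) fun p hp => ?_
      split_ifs with h
      · exact real_aux hε _ (hp2 p hp)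
      · rw [one_mul]
        exact real_aux2 hε _ (not_lt.1 h)
    _ = (∏ p ∈ s.toFinset, (if (Ideal.absNorm p : ℝ) < T then C0 else 1)) *
        (Ideal.absNorm J : ℝ) ^ ε := by
      rw [Finset.prod_mul_distrib, hN, Real.finsetProd_rpow _ _ (fun p _ => by positivity)]
    _ ≤ _ := by
      refine mul_le_mul_of_nonneg_right ?_ (by positivity)
      rw [Finset.prod_ite, Finset.prod_const, Finset.prod_const_one, mul_one]
      refine pow_le_pow_right₀ hC01 ?_
      have h5 := h1 T hT1 (s.toFinset.filter fun p => (Ideal.absNorm p : ℝ) < T) fun I hI =>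
        (Finset.mem_filter.1 hI).2.le
      exact_mod_cast h5.trans (Nat.le_ceil _)

open Classical in
/-- the number of the units of bounded height -/
theorem units_card (K : Type) [Field K] [NumberField K] : ∃ (C : ℝ) (r : ℕ), 1 ≤ C ∧
    ∀ T : ℝ, 0 ≤ T → ∀ S : Finset (𝓞 K)ˣ,
      (∀ u ∈ S, ∀ w : InfinitePlace K, |Real.log (w ((u : 𝓞 K) : K))| ≤ T) →
        (S.card : ℝ) ≤ C * (1 + T) ^ r := by
  let B := (basisUnitLattice K).ofZLatticeBasis ℝ (unitLattice K)
  have hb (i : Fin (rank K)) : ∃ M : ℝ, 0 ≤ M ∧ ∀ x : logSpace K, |B.repr x i| ≤ M * ‖x‖ := by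
    refine ⟨‖LinearMap.toContinuousLinearMap (B.coord i)‖, norm_nonneg _, fun x => ?_⟩
    have := (LinearMap.toContinuousLinearMap (B.coord i)).le_opNorm x
    simpa using this
  choose M hM0 hM using hb
  set M' : ℝ := 1 + ∑ i, M i with hM'
  have hM'1 : 1 ≤ M' := by
    have : 0 ≤ ∑ i, M i := Finset.sum_nonneg fun i _ => hM0 i
    linarith
  refine ⟨(torsionOrder K + 1) * (7 * M') ^ rank K, rank K, ?_, fun T hT S hS => ?_⟩
  · have h1 : (1 : ℝ) ≤ (7 * M') ^ rank K := one_le_pow₀ (by linarith)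
    have h2 : (0 : ℝ) ≤ torsionOrder K := Nat.cast_nonneg _
    nlinarith
  have hmem (u : (𝓞 K)ˣ) : logEmbedding K (Additive.ofMul u) ∈ unitLattice K := by
    exact ⟨Additive.ofMul u, by simp, rfl⟩
  set F : (𝓞 K)ˣ → Fin (rank K) → ℤ := fun u i =>
    (basisUnitLattice K).repr ⟨logEmbedding K (Additive.ofMul u), hmem u⟩ i with hF
  have hFr (u : (𝓞 K)ˣ) (i : Fin (rank K)) :
      (F u i : ℝ) = B.repr (logEmbedding K (Additive.ofMul u)) i := by
    have := Module.Basis.ofZLatticeBasis_repr_apply ℝ (unitLattice K) (basisUnitLattice K)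
      ⟨logEmbedding K (Additive.ofMul u), hmem u⟩ i
    rw [this]
  set N : ℕ := ⌊M' * (2 * T)⌋₊ with hN
  have hbound (u : (𝓞 K)ˣ) (hu : u ∈ S) (i : Fin (rank K)) : |F u i| ≤ (N : ℤ) := by
    have h1 : ‖logEmbedding K (Additive.ofMul u)‖ ≤ 2 * T := by
      rw [pi_norm_le_iff_of_nonneg (by linarith)]
      intro w
      rw [logEmbedding_component, Real.norm_eq_abs, abs_mul]
      have h2 : |(w.1.mult : ℝ)| ≤ 2 := by
        rw [abs_of_nonneg (Nat.cast_nonneg _)]
        have : w.1.mult ≤ 2 := by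
          unfold InfinitePlace.mult
          split_ifs <;> simp
        exact_mod_cast this
      exact mul_le_mul h2 (hS u hu w.1) (abs_nonneg _) (by norm_num)
    have h2 : (|F u i| : ℝ) ≤ M' * (2 * T) := by
      rw [hFr]
      refine (hM i _).trans ?_
      refine mul_le_mul ?_ h1 (norm_nonneg _) (by linarith)
      have := Finset.single_le_sum (f := M) (fun i _ => hM0 i) (Finset.mem_univ i)
      linarith
    have h3 : ((|F u i|).toNat : ℝ) ≤ M' * (2 * T) := by
      have : (((|F u i|).toNat : ℤ) : ℝ) = |F u i| := by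
        rw [Int.toNat_of_nonneg (abs_nonneg _)]
      have h4 : ((|F u i|).toNat : ℝ) = (((|F u i|).toNat : ℤ) : ℝ) := by push_cast; rfl
      rw [h4, this, Int.cast_abs]
      exact h2
    have h4 := Nat.le_floor h3
    rw [← hN] at h4
    omega
  have : Fintype (torsion K) := Fintype.ofFinite _
  have hto : Fintype.card (torsion K) = torsionOrder K := by
    rw [torsionOrder, Nat.card_eq_fintype_card]
  have hcard : S.card ≤ torsionOrder K * (S.image F).card := by
    refine Finset.card_le_mul_card_image S (torsionOrder K) fun a ha => ?_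
    obtain ⟨u0, hu0, rfl⟩ := Finset.mem_image.1 ha
    have h1 : (S.filter fun u => F u = F u0).card ≤
        (univ : Finset (torsion K)).card := by
      refine Finset.card_le_card_of_surjOn (fun z : torsion K => (z : (𝓞 K)ˣ) * u0) ?_
      intro u hu
      rw [Finset.mem_coe, Finset.mem_filter] at hu
      have h2 : logEmbedding K (Additive.ofMul u) = logEmbedding K (Additive.ofMul u0) := by
        apply B.repr.injective
        ext i
        rw [← hFr, ← hFr, hu.2]
      have h3 : u * u0⁻¹ ∈ torsion K := by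
        rw [← logEmbedding_eq_zero_iff, ofMul_mul, map_add, ofMul_inv, map_neg, h2,
          add_neg_cancel]
      exact ⟨⟨u * u0⁻¹, h3⟩, by simp, by simp⟩
    rw [Finset.card_univ, hto] at h1
    exact h1
  have himg : (S.image F).card ≤ (2 * N + 1) ^ rank K := by
    have h1 : S.image F ⊆ Fintype.piFinset fun _ : Fin (rank K) => Finset.Icc (-(N : ℤ)) N := by
      intro a ha
      obtain ⟨u, hu, rfl⟩ := Finset.mem_image.1 ha
      rw [Fintype.mem_piFinset]
      intro i
      rw [Finset.mem_Icc]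
      exact abs_le.1 (hbound u hu i)
    refine (Finset.card_le_card h1).trans ?_
    rw [Fintype.card_piFinset, Finset.prod_const, Finset.card_univ, Fintype.card_fin,
      Int.card_Icc]
    refine Nat.pow_le_pow_left ?_ _
    omega
  have hN1 : ((2 * N + 1 : ℕ) : ℝ) ≤ 7 * M' * (1 + T) := by
    have h1 : (N : ℝ) ≤ M' * (2 * T) := Nat.floor_le (by positivity)
    push_cast
    nlinarith
  calc (S.card : ℝ) ≤ ((torsionOrder K * (S.image F).card : ℕ) : ℝ) := by exact_mod_cast hcard
    _ ≤ (torsionOrder K : ℝ) * ((2 * N + 1 : ℕ) : ℝ) ^ rank K := by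
      push_cast
      refine mul_le_mul_of_nonneg_left ?_ (Nat.cast_nonneg _)
      exact_mod_cast himg
    _ ≤ (torsionOrder K + 1 : ℝ) * (7 * M' * (1 + T)) ^ rank K := by
      refine mul_le_mul (by linarith) (pow_le_pow_left₀ (Nat.cast_nonneg _) hN1 _)
        (by positivity) (by positivity)
    _ = _ := by rw [mul_pow]; ring

/-- a power of the logarithm against a power -/
theorem log_pow_le (r : ℕ) (a b : ℝ) (ha : 0 ≤ a) (hb : 0 ≤ b) {ε : ℝ} (hε : 0 < ε) :
    ∃ C : ℝ, 1 ≤ C ∧ ∀ x : ℝ, 1 ≤ x → (a + b * Real.log x) ^ r ≤ C * x ^ ε := by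
  set δ : ℝ := ε / (r + 1) with hδ
  have hδ0 : 0 < δ := by positivity
  refine ⟨(1 + a + b / δ) ^ r, one_le_pow₀ (by have : 0 ≤ b / δ := by positivity
                                               linarith), fun x hx => ?_⟩
  have hx0 : 0 < x := by linarith
  have h1 : Real.log x ≤ x ^ δ / δ := Real.log_le_rpow_div hx0.le hδ0
  have h2 : 1 ≤ x ^ δ := Real.one_le_rpow hx hδ0.le
  have h3 : a + b * Real.log x ≤ (1 + a + b / δ) * x ^ δ := by
    have h4 : b * Real.log x ≤ b / δ * x ^ δ := by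
      calc b * Real.log x ≤ b * (x ^ δ / δ) := mul_le_mul_of_nonneg_left h1 hb
        _ = _ := by ring
    nlinarith
  have h4 : 0 ≤ a + b * Real.log x := by
    have := Real.log_nonneg hx
    positivity
  calc (a + b * Real.log x) ^ r ≤ ((1 + a + b / δ) * x ^ δ) ^ r := pow_le_pow_left₀ h4 h3 r
    _ = (1 + a + b / δ) ^ r * x ^ (δ * r) := by
      rw [mul_pow, ← Real.rpow_natCast (x ^ δ), ← Real.rpow_mul hx0.le]
    _ ≤ _ := by
      refine mul_le_mul_of_nonneg_left (Real.rpow_le_rpow_of_exponent_le hx ?_) (by positivity)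
      rw [hδ, div_mul_eq_mul_div, div_le_iff₀ (by positivity)]
      nlinarith

/-- the number of the factorizations of an integer in a box -/
theorem pairs (K : Type) [Field K] [NumberField K] {ε : ℝ} (hε : 0 < ε) : ∃ C : ℝ, 1 ≤ C ∧
    ∀ H : ℕ, 1 ≤ H → ∀ n : 𝓞 K, n ≠ 0 → ∀ S : Finset (𝓞 K × 𝓞 K),
      (∀ p ∈ S, p.1 ∈ box K H ∧ p.2 ∈ box K H ∧ p.1 * p.2 = n) →
        (S.card : ℝ) ≤ C * (H : ℝ) ^ ε := by
  classical
  set d := Module.finrank ℚ K with hd
  have hd0 : (0 : ℝ) < d := by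
    have : 0 < d := Module.finrank_pos
    exact_mod_cast this
  obtain ⟨C₀, hC₀, hsz, hNm⟩ := Nm_box K
  obtain ⟨C₁, hC₁, hdiv⟩ := ideal_div K (ε := ε / (4 * d)) (by positivity)
  obtain ⟨C₂, r, hC₂, hun⟩ := units_card K
  have hlC : 0 ≤ Real.log C₀ := Real.log_nonneg hC₀
  obtain ⟨C₃, hC₃, hlog⟩ := log_pow_le r (1 + 2 * d * Real.log C₀) (2 * d) (by positivity)
    (by positivity) (ε := ε / 2) (by positivity)
  refine ⟨C₁ * C₀ ^ (2 * d * (ε / (4 * d))) * C₂ * C₃, ?_, fun H hH n hn S hS => ?_⟩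
  · have h1 : 1 ≤ C₀ ^ (2 * d * (ε / (4 * d))) := Real.one_le_rpow hC₀ (by positivity)
    have h2 : 1 ≤ C₁ * C₀ ^ (2 * d * (ε / (4 * d))) := one_le_mul_of_one_le_of_one_le hC₁ h1
    have h3 := one_le_mul_of_one_le_of_one_le h2 hC₂
    exact one_le_mul_of_one_le_of_one_le h3 hC₃
  have hHR : (1 : ℝ) ≤ H := by exact_mod_cast hH
  have hCH : 1 ≤ C₀ * H := by nlinarith
  have hLH : 0 ≤ Real.log H := Real.log_nonneg hHR
  -- the sizes
  have hlow (u : 𝓞 K) (hu : u ∈ box K H) (hu0 : u ≠ 0) (w : InfinitePlace K) :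
      |Real.log (w (u : K))| ≤ d * Real.log (C₀ * H) := by
    have hdd : (1 : ℝ) ≤ d := by
      have : 1 ≤ d := Module.finrank_pos
      exact_mod_cast this
    have hL : 0 ≤ Real.log (C₀ * H) := Real.log_nonneg hCH
    have hpos : 0 < w (u : K) := w.pos_iff.2 (by exact_mod_cast hu0)
    have hup : w (u : K) ≤ C₀ * H := by
      rw [← InfinitePlace.norm_embedding_eq]
      exact hsz H u hu _
    rw [abs_le]
    constructor
    · have h1 : (1 : ℝ) ≤ Nm u := by
        exact_mod_cast Nat.one_le_iff_ne_zero.2 (Nm_ne hu0)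
      rw [Nm_emb, ← Finset.mul_prod_erase univ _ (Finset.mem_univ w.embedding),
        InfinitePlace.norm_embedding_eq] at h1
      have h2 : ∏ σ ∈ univ.erase w.embedding, ‖σ (u : K)‖ ≤ (C₀ * H) ^ (d - 1) := by
        have h3 : (univ.erase w.embedding).card = d - 1 := by
          rw [Finset.card_erase_of_mem (Finset.mem_univ _), Finset.card_univ, Embeddings.card]
        rw [← h3]
        rw [← Finset.prod_const]
        exact Finset.prod_le_prod (fun _ _ => norm_nonneg _) fun σ _ => hsz H u hu σ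
      have h3 : 1 ≤ w (u : K) * (C₀ * H) ^ (d - 1) :=
        h1.trans (mul_le_mul_of_nonneg_left h2 hpos.le)
      have h4 := Real.log_le_log one_pos h3
      rw [Real.log_one, Real.log_mul hpos.ne' (by positivity), Real.log_pow] at h4
      have h5 : ((d - 1 : ℕ) : ℝ) ≤ d := by
        have : d - 1 ≤ d := Nat.sub_le _ _
        exact_mod_cast this
      nlinarith
    · calc Real.log (w (u : K)) ≤ Real.log (C₀ * H) := Real.log_le_log hpos hup
        _ ≤ _ := by nlinarith
  -- the ideals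
  have himg : ((S.image fun p => Ideal.span {p.1}).card : ℝ) ≤
      C₁ * (C₀ ^ (2 * d * (ε / (4 * d))) * (H : ℝ) ^ (ε / 2)) := by
    rcases S.eq_empty_or_nonempty with rfl | ⟨p0, hp0⟩
    · simp only [Finset.image_empty, Finset.card_empty, Nat.cast_zero]
      positivity
    have hn0 : Ideal.span {n} ≠ ⊥ := by
      rwa [Ne, Ideal.span_singleton_eq_bot]
    refine (hdiv (Ideal.span {n}) hn0 _ fun I hI => ?_).trans ?_
    · obtain ⟨p, hp, rfl⟩ := Finset.mem_image.1 hI
      rw [Ideal.dvd_span_singleton, Ideal.mem_span_singleton]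
      exact ⟨p.2, (hS p hp).2.2.symm⟩
    refine mul_le_mul_of_nonneg_left ?_ (by linarith)
    have h1 : (Ideal.absNorm (Ideal.span {n}) : ℝ) ≤ (C₀ * H) ^ (2 * d) := by
      obtain ⟨h2, h3, h4⟩ := hS p0 hp0
      have h5 := hNm H _ h2
      have h6 := hNm H _ h3
      have h7 : (Ideal.absNorm (Ideal.span {n}) : ℝ) = (Nm p0.1 : ℝ) * Nm p0.2 := by
        have := Nm_mul p0.1 p0.2
        rw [h4] at this
        exact_mod_cast this
      rw [h7, two_mul, pow_add]
      exact mul_le_mul h5 h6 (Nat.cast_nonneg _) (by positivity)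
    calc (Ideal.absNorm (Ideal.span {n}) : ℝ) ^ (ε / (4 * d))
        ≤ ((C₀ * H) ^ (2 * d)) ^ (ε / (4 * d)) :=
          Real.rpow_le_rpow (Nat.cast_nonneg _) h1 (by positivity)
      _ = (C₀ * H) ^ (2 * d * (ε / (4 * d))) := by
          rw [← Real.rpow_natCast, ← Real.rpow_mul (by positivity)]
          push_cast
          rfl
      _ = _ := by
          rw [Real.mul_rpow (by linarith) (by linarith)]
          congr 2
          field_simp
          ring
  -- the fibres
  have hfib : ∀ I ∈ S.image fun p => Ideal.span {p.1},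
      (((S.filter fun p => Ideal.span {p.1} = I).card : ℕ) : ℝ) ≤
        C₂ * (C₃ * (H : ℝ) ^ (ε / 2)) := by
    intro I hI
    obtain ⟨p0, hp0, rfl⟩ := Finset.mem_image.1 hI
    have hne (p : 𝓞 K × 𝓞 K) (hp : p ∈ S) : p.1 ≠ 0 := by
      intro h
      have := (hS p hp).2.2
      rw [h, zero_mul] at this
      exact hn this.symm
    have hu (p : 𝓞 K × 𝓞 K) : ∃ u : (𝓞 K)ˣ,
        Ideal.span {p.1} = Ideal.span {p0.1} → p.1 = p0.1 * u := by
      by_cases h : Ideal.span {p.1} = Ideal.span {p0.1}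
      · obtain ⟨u, hu⟩ := Ideal.span_singleton_eq_span_singleton.1 h.symm
        exact ⟨u, fun _ => hu.symm⟩
      · exact ⟨1, fun h' => absurd h' h⟩
    choose U hU using hu
    set F := S.filter fun p => Ideal.span {p.1} = Ideal.span {p0.1} with hF
    have hinj : Set.InjOn U F := by
      intro p hp q hq h
      rw [Finset.mem_coe, hF, Finset.mem_filter] at hp hq
      have h1 : p.1 = q.1 := by rw [hU p hp.2, hU q hq.2, h]
      refine Prod.ext h1 ?_
      have h2 := (hS p hp.1).2.2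
      rw [← (hS q hq.1).2.2, ← h1] at h2
      exact mul_left_cancel₀ (hne p hp.1) h2
    have h1 := hun (2 * (d * Real.log (C₀ * H)))
      (by have := Real.log_nonneg hCH; positivity) (F.image U) (by
        intro u hu w
        obtain ⟨p, hp, rfl⟩ := Finset.mem_image.1 hu
        rw [hF, Finset.mem_filter] at hp
        have h2 : (p.1 : K) = (p0.1 : K) * ((U p : 𝓞 K) : K) := by
          have := hU p hp.2
          exact_mod_cast congrArg (fun z : 𝓞 K => (z : K)) this
        have h3 : Real.log (w ((U p : 𝓞 K) : K)) = Real.log (w (p.1 : K)) -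
            Real.log (w (p0.1 : K)) := by
          have h4 : w (p0.1 : K) ≠ 0 := (w.pos_iff.2 (by exact_mod_cast hne p0 hp0)).ne'
          have h5 : w ((U p : 𝓞 K) : K) ≠ 0 := (w.pos_iff.2 (by
            exact_mod_cast (U p).ne_zero)).ne'
          rw [h2, map_mul, Real.log_mul h4 h5]
          ring
        rw [h3]
        have h4 := hlow p.1 (hS p hp.1).1 (hne p hp.1) w
        have h5 := hlow p0.1 (hS p0 hp0).1 (hne p0 hp0) w
        have h6 := abs_sub (Real.log (w (p.1 : K))) (Real.log (w (p0.1 : K)))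
        linarith)
    rw [Finset.card_image_of_injOn hinj] at h1
    refine h1.trans (mul_le_mul_of_nonneg_left ?_ (by linarith))
    have h2 := hlog H hHR
    refine le_trans (le_of_eq ?_) h2
    rw [Real.log_mul (by linarith) (by linarith)]
    ring
  have h1 : (S.card : ℝ) ≤ ((S.image fun p => Ideal.span {p.1}).card : ℝ) *
      (C₂ * (C₃ * (H : ℝ) ^ (ε / 2))) := by
    have h2 := Finset.card_eq_sum_card_image (fun p : 𝓞 K × 𝓞 K => Ideal.span {p.1}) S
    have h3 : (S.card : ℝ) = ∑ I ∈ S.image fun p => Ideal.span {p.1},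
        (((S.filter fun p => Ideal.span {p.1} = I).card : ℕ) : ℝ) := by
      exact_mod_cast h2
    rw [h3, ← nsmul_eq_mul]
    exact Finset.sum_le_card_nsmul _ _ _ hfib
  calc (S.card : ℝ) ≤ _ := h1
    _ ≤ (C₁ * (C₀ ^ (2 * d * (ε / (4 * d))) * (H : ℝ) ^ (ε / 2))) *
        (C₂ * (C₃ * (H : ℝ) ^ (ε / 2))) := mul_le_mul_of_nonneg_right himg (by positivity)
    _ = C₁ * C₀ ^ (2 * d * (ε / (4 * d))) * C₂ * C₃ *
        ((H : ℝ) ^ (ε / 2) * (H : ℝ) ^ (ε / 2)) := by ring
    _ = _ := by
      rw [← Real.rpow_add (by linarith), add_halves]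

end Pool.Agent.H433.TH
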