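import Pool.Agent.H433.TH.Def
import Mathlib.NumberTheory.Height.MvPolynomial

/-!
The height of the double of a point.
-/

set_option autoImplicit false

open NumberField IsDedekindDomain Finset Filter Topology Height

namespace Pool.Agent.H433.TH

section field

variable {K : Type} [Field K]

/-- the Hadamard matrix -/
def Hd (R : Type*) [CommRing R] : Fin 4 × Fin 4 → R := fun p =>
  ![![1, 1, 1, 1], ![1, 1, -1, -1], ![1, -1, 1, -1], ![1, -1, -1, 1]] p.1 p.2

theorem Z_eq {R : Type*} [CommRing R] (k : Fin 4) (u w : Fin 4 → R) :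
    Z k u w = ∑ b, Hd R (k, b) * (u b * w b) := by
  fin_cases k <;> simp [Z, Hd, Fin.sum_univ_four] <;> ring

theorem Z_inv [CharZero K] (y : Fin 4 → K) (k : Fin 4) :
    ∑ b, Hd K (k, b) * (Z b y 1 / 4) = y k := by
  rw [Fin.sum_univ_four]
  fin_cases k <;> simp [Z, Hd] <;> ring

/-- the forms `Z k c (2 x)` -/
theorem Z_dbl [CharZero K] {c x : Fin 4 → K} (hc : ∀ b, c b ≠ 0) (k : Fin 4) :
    Z k c (dbl c x) = Z k x x ^ 2 / Z k c c := by
  have h (b : Fin 4) : c b * dbl c x b =
      Z b (fun k => Z k x x ^ 2 / Z k c c) 1 / 4 := by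
    unfold dbl
    have := hc b
    field_simp
  rw [Z_eq]
  simp only [h]
  exact Z_inv (fun k => Z k x x ^ 2 / Z k c c) k

theorem Z_Z (x : Fin 4 → K) (i : Fin 4) : Z i (fun k => Z k x x) 1 = 4 * x i ^ 2 := by
  fin_cases i <;> simp [Z] <;> ring

theorem exists_Z [CharZero K] {x : Fin 4 → K} (hx : x ≠ 0) : (fun k => Z k x x) ≠ 0 := by
  intro h
  apply hx
  funext i
  have h1 := Z_Z x i
  rw [h] at h1
  have h2 : Z i (0 : Fin 4 → K) 1 = 0 := by
    fin_cases i <;> simp [Z]
  rw [h2] at h1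
  have h3 : x i ^ 2 = 0 := by
    have : (4 : K) ≠ 0 := by norm_num
    rcases mul_eq_zero.1 h1.symm with h | h
    · exact absurd h this
    · exact h
  exact pow_eq_zero_iff (two_ne_zero) |>.1 h3

theorem dbl_ne [CharZero K] {c x : Fin 4 → K} (hc : ∀ b, c b ≠ 0) (hC : ∀ k, Z k c c ≠ 0)
    (hx : x ≠ 0) : dbl c x ≠ 0 := by
  intro h
  apply exists_Z hx
  funext k
  have h1 := Z_dbl (x := x) hc k
  rw [h] at h1
  have h2 : Z k c (0 : Fin 4 → K) = 0 := by
    fin_cases k <;> simp [Z]
  rw [h2, eq_comm, div_eq_zero_iff] at h1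
  rcases h1 with h1 | h1
  · exact pow_eq_zero_iff (two_ne_zero) |>.1 h1
  · exact absurd h1 (hC k)

theorem iter_ne [CharZero K] {c x : Fin 4 → K} (hc : ∀ b, c b ≠ 0) (hC : ∀ k, Z k c c ≠ 0)
    (hx : x ≠ 0) (n : ℕ) : (dbl c)^[n] x ≠ 0 := by
  induction n with
  | zero => exact hx
  | succ n ih =>
    rw [Function.iterate_succ_apply']
    exact dbl_ne hc hC ih

/-- homogeneity -/
theorem dbl_smul (c x : Fin 4 → K) (t : K) : dbl c (t • x) = t ^ 4 • dbl c x := by
  funext b
  have h (k : Fin 4) : Z k (t • x) (t • x) = t ^ 2 * Z k x x := by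
    fin_cases k <;> simp [Z] <;> ring
  simp only [dbl, h, Pi.smul_apply, smul_eq_mul]
  fin_cases b <;> simp [Z] <;> ring

end field

variable {K : Type} [Field K] [NumberField K]

theorem ht_low (K : Type) [Field K] [NumberField K] : ∃ C : ℝ, 0 ≤ C ∧ ∀ c x : Fin 4 → K,
    (∀ b, c b ≠ 0) → (∀ k, Z k c c ≠ 0) → x ≠ 0 →
      4 * logHeight x ≤ logHeight (dbl c x) + 3 * logHeight c + 3 * C := by
  set A : ℝ := (totalWeight K : ℝ) * Real.log (Nat.card (Fin 4)) + logHeight (Hd K)
    with hA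
  have hA0 : 0 ≤ A := by
    have h1 : 0 ≤ logHeight (Hd K) := logHeight_nonneg _
    have h2 : 0 ≤ Real.log (Nat.card (Fin 4)) := Real.log_natCast_nonneg _
    positivity
  have key (u w : Fin 4 → K) : logHeight (fun k => Z k u w) ≤ A + logHeight (u * w) := by
    have h1 := logHeight_linearMap_apply_le (Hd K) (u * w)
    have h2 : (fun k => Z k u w) = fun j => ∑ i, Hd K (j, i) * (u * w) i := by
      funext k
      rw [Z_eq]
      rfl
    rw [h2]
    linarith
  refine ⟨2 * A, by linarith, fun c x hc hC hx => ?_⟩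
  have h1 : 2 * logHeight x ≤ A + logHeight (fun k => Z k x x) := by
    have h2 := key (fun k => Z k x x) 1
    rw [mul_one] at h2
    have h3 : (fun k => Z k (fun k => Z k x x) 1) = (4 : K) • x ^ 2 := by
      funext i
      rw [Z_Z]
      simp
    rw [h3, logHeight_smul_eq_logHeight _ (by norm_num), logHeight_pow] at h2
    exact_mod_cast h2
  have h4 : 2 * logHeight (fun k => Z k x x) ≤ 2 * A + 3 * logHeight c + logHeight (dbl c x) := by
    have h5 : (fun k => Z k x x) ^ 2 = (fun k => Z k c c) * fun k => Z k c (dbl c x) := by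
      funext k
      simp only [Pi.pow_apply, Pi.mul_apply]
      rw [Z_dbl hc, mul_div_cancel₀ _ (hC k)]
    have h6 := logHeight_pow (fun k => Z k x x) 2
    rw [h5] at h6
    have h7 := logHeight_mul_le (fun k => Z k c c) fun k => Z k c (dbl c x)
    have h8 := key c c
    have h9 := key c (dbl c x)
    have h10 := logHeight_mul_le c c
    have h11 := logHeight_mul_le c (dbl c x)
    push_cast at h6
    linarith
  linarith

theorem ht_up (c : Fin 4 → K) (hc : ∀ b, c b ≠ 0) : ∃ C : ℝ, 0 ≤ C ∧ ∀ x : Fin 4 → K,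
      logHeight (dbl c x) ≤ 4 * logHeight x + C := by
  set A : ℝ := (totalWeight K : ℝ) * Real.log (Nat.card (Fin 4)) + logHeight (Hd K)
    with hA
  have hA0 : 0 ≤ A := by
    have h1 : 0 ≤ logHeight (Hd K) := logHeight_nonneg _
    have h2 : 0 ≤ Real.log (Nat.card (Fin 4)) := Real.log_natCast_nonneg _
    positivity
  set M : Fin 4 × Fin 4 → K := fun p => Hd K p / (4 * c p.1 * Z p.2 c c) with hM
  set B : ℝ := (totalWeight K : ℝ) * Real.log (Nat.card (Fin 4)) + logHeight M
    with hB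
  have hB0 : 0 ≤ B := by
    have h1 : 0 ≤ logHeight M := logHeight_nonneg _
    have h2 : 0 ≤ Real.log (Nat.card (Fin 4)) := Real.log_natCast_nonneg _
    positivity
  refine ⟨B + 2 * A, by linarith, fun x => ?_⟩
  have h1 : logHeight (fun k => Z k x x) ≤ A + 2 * logHeight x := by
    have h1 := logHeight_linearMap_apply_le (Hd K) (x * x)
    have h2 : (fun k => Z k x x) = fun j => ∑ i, Hd K (j, i) * (x * x) i := by
      funext k
      rw [Z_eq]
      rfl
    have h3 := logHeight_mul_le x x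
    rw [h2]
    linarith
  have h2 : dbl c x = fun j => ∑ i, M (j, i) * ((fun k => Z k x x) ^ 2) i := by
    funext b
    unfold dbl
    rw [Z_eq, Finset.sum_div]
    refine Finset.sum_congr rfl fun i _ => ?_
    simp only [hM, Pi.pow_apply, Pi.one_apply, mul_one]
    rw [div_mul_eq_mul_div, mul_div_assoc', div_div]
    congr 1
    ring
  have h3 := logHeight_linearMap_apply_le M ((fun k => Z k x x) ^ 2)
  rw [← h2, logHeight_pow] at h3
  push_cast at h3
  linarith

/-- The limit exists, and the canonical height is bounded from below. -/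
theorem hhat_spec (K : Type) [Field K] [NumberField K] : ∃ C : ℝ, 0 ≤ C ∧ ∀ c x : Fin 4 → K,
    (∀ b, c b ≠ 0) → (∀ k, Z k c c ≠ 0) → x ≠ 0 →
      Tendsto (fun n : ℕ => logHeight ((dbl c)^[n] x) / 4 ^ n) atTop (𝓝 (hhat c x)) ∧
      logHeight (dbl c x) - logHeight c - C ≤ 4 * hhat c x := by
  obtain ⟨C, hC, h⟩ := ht_low K
  refine ⟨C, hC, fun c x hc hCc hx => ?_⟩
  obtain ⟨D, hD, hup⟩ := ht_up c hc
  set a : ℕ → ℝ := fun n => logHeight ((dbl c)^[n] x) / 4 ^ n with ha
  set E : ℝ := 3 * logHeight c + 3 * C + D with hE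
  have hE0 : 0 ≤ E := by
    have := logHeight_nonneg c
    positivity
  have h1 (n : ℕ) : dist (a n) (a (n + 1)) ≤ E / 4 * (1 / 4) ^ n := by
    have h2 := h c _ hc hCc (iter_ne hc hCc hx n)
    have h3 := hup ((dbl c)^[n] x)
    rw [← Function.iterate_succ_apply' (dbl c) n x] at h2 h3
    have h4 := logHeight_nonneg c
    have h6 : (0 : ℝ) < 4 ^ n := by positivity
    have h5 : a n - a (n + 1) = (4 * logHeight ((dbl c)^[n] x) - logHeight ((dbl c)^[n + 1] x)) /
        (4 * 4 ^ n) := by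
      simp only [ha]
      rw [pow_succ]
      field_simp
    have h7 : E / 4 * (1 / 4) ^ n = E / (4 * 4 ^ n) := by
      rw [one_div, inv_pow]
      field_simp
    rw [Real.dist_eq, h5, h7, abs_div, abs_of_pos (show (0:ℝ) < 4 * 4 ^ n by positivity)]
    gcongr
    rw [abs_le]
    constructor <;> linarith
  have hcau : CauchySeq a := cauchySeq_of_le_geometric (1 / 4) (E / 4) (by norm_num) h1
  obtain ⟨l, hl⟩ := cauchySeq_tendsto_of_complete hcau
  have hlim : hhat c x = l := hl.limUnder_eq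
  rw [hlim]
  refine ⟨hl, ?_⟩
  have h8 (n : ℕ) : 4 ^ n * (logHeight (dbl c x) - logHeight c - C) ≤
      logHeight ((dbl c)^[n + 1] x) - logHeight c - C := by
    induction n with
    | zero => simp
    | succ n ih =>
      have h2 := h c _ hc hCc (iter_ne hc hCc hx (n + 1))
      rw [← Function.iterate_succ_apply' (dbl c) (n + 1) x] at h2
      rw [pow_succ]
      nlinarith
  have h9 : Tendsto (fun n => 4 * a (n + 1)) atTop (𝓝 (4 * l)) :=
    ((tendsto_add_atTop_iff_nat 1).2 hl).const_mul 4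
  refine ge_of_tendsto' h9 fun n => ?_
  have h10 := h8 n
  have h11 : 4 * a (n + 1) = logHeight ((dbl c)^[n + 1] x) / 4 ^ n := by
    simp only [ha]
    rw [pow_succ]
    field_simp
  rw [h11, le_div_iff₀ (by positivity)]
  have h12 := logHeight_nonneg c
  linarith

end Pool.Agent.H433.TH
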