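import Pool.Agent.H433.TH.Fib
import Pool.Agent.H433.TH.Ht
import Mathlib.Algebra.MvPolynomial.SchwartzZippel

/-!
The exceptional vectors and their number.
-/

set_option autoImplicit false
set_option linter.unusedSectionVars false

open NumberField IsDedekindDomain Finset

namespace Pool.Agent.H433.TH

open Pool.Agent.H433.AC

section forms

variable {R : Type*} [CommRing R]

/-- the index `j` of the form `c_0 c_j ± c_k c_l` -/
def ja (m : Fin 6) : Fin 4 := ![1, 1, 2, 2, 3, 3] m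
/-- the index `k` -/
def ka (m : Fin 6) : Fin 4 := ![2, 2, 1, 1, 1, 1] m
/-- the index `l` -/
def la (m : Fin 6) : Fin 4 := ![3, 3, 3, 3, 2, 2] m
/-- the sign -/
def ep (m : Fin 6) : ℤ := ![1, -1, 1, -1, 1, -1] m

/-- the form `c_0 c_j ± c_k c_l` -/
def q (m : Fin 6) (c : Fin 4 → R) : R := c 0 * c (ja m) + ep m * (c (ka m) * c (la m))

theorem Q_q (m : Fin 6) (c : Fin 4 → R) : Q m c c = 2 * q m c := by
  fin_cases m <;> simp [Q, q, ja, ka, la, ep] <;> ring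

theorem ep_sq (m : Fin 6) : ep m = 1 ∨ ep m = -1 := by
  fin_cases m <;> simp [ep]

theorem ja_ne (m : Fin 6) : (0 : Fin 4) ≠ ja m := by
  revert m; decide

theorem ka_0 (m : Fin 6) : ka m ≠ 0 := by revert m; decide
theorem la_0 (m : Fin 6) : la m ≠ 0 := by revert m; decide
theorem ka_ja (m : Fin 6) : ka m ≠ ja m := by revert m; decide
theorem la_ja (m : Fin 6) : la m ≠ ja m := by revert m; decide
theorem ka_la (m : Fin 6) : ka m ≠ la m := by revert m; decide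

/-- the two forms have a common zero only if a further form vanishes -/
theorem Z_q (m : Fin 6) (k : Fin 4) : ∃ s s' : ℤ, (s = 1 ∨ s = -1) ∧ (s' = 1 ∨ s' = -1) ∧
    ∀ c : Fin 4 → R, c (ja m) ^ 2 * Z k c c =
      (c (ka m) ^ 2 + s * c (ja m) ^ 2) * (c (la m) ^ 2 + s' * c (ja m) ^ 2) +
        (c 0 * c (ja m) - ep m * (c (ka m) * c (la m))) * q m c := by
  refine ⟨Hd ℤ (k, la m), Hd ℤ (k, ka m), ?_, ?_, fun c => ?_⟩
  · fin_cases m <;> fin_cases k <;> simp [Hd, la]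
  · fin_cases m <;> fin_cases k <;> simp [Hd, ka]
  · fin_cases m <;> fin_cases k <;> simp [Hd, Z, q, ja, ka, la, ep] <;> ring

/-- the two relations -/
def P1 (T : Fin 3 → R) (c : Fin 4 → R) : R :=
  2 * T 0 * (c 0 * c 1 * c 2 * c 3) + T 1 * (c 0 ^ 2 * c 1 ^ 2 + c 2 ^ 2 * c 3 ^ 2) -
    T 2 * (c 0 ^ 2 * c 2 ^ 2 + c 1 ^ 2 * c 3 ^ 2)

/-- the two relations -/
def P2 (T : Fin 3 → R) (c : Fin 4 → R) : R :=
  2 * T 0 * (c 0 * c 1 * c 2 * c 3) + T 1 * (c 0 ^ 2 * c 1 ^ 2 + c 2 ^ 2 * c 3 ^ 2) -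
    T 2 * (c 0 ^ 2 * c 3 ^ 2 + c 1 ^ 2 * c 2 ^ 2)

end forms

variable {K : Type} [Field K] [NumberField K]

/-- the exceptional vectors -/
def Exc (Y R₁ R₂ : ℝ) (E : ℕ) (c : Fin 4 → 𝓞 K) : Prop :=
  (∃ b, ∃ σ : K →+* ℂ, ‖σ (c b : K)‖ ≤ R₁) ∨
  (∃ m, ∃ σ : K →+* ℂ, ‖σ ((q m c : 𝓞 K) : K)‖ ≤ R₂) ∨
  (∃ i j, i ≠ j ∧ ∃ I : Ideal (𝓞 K), Y ≤ Ideal.absNorm I ∧ c i ∈ I ∧ c j ∈ I) ∨
  (∃ m, ∃ I : Ideal (𝓞 K), Y ≤ Ideal.absNorm I ∧ q m c ∈ I ^ 2) ∨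
  (∃ m k, ∃ I : Ideal (𝓞 K), Y ^ 4 ≤ Ideal.absNorm I ∧ q m c ∈ I ∧ Z k c c ∈ I) ∨
  (∃ i j, i ≠ j ∧ (c i ^ 2 = c j ^ 2 ∨ c i ^ 2 = -c j ^ 2)) ∨
  ∃ T : Fin 3 → 𝓞 K, (∀ i, T i ∈ box K E) ∧ T ≠ 0 ∧ (P1 T c = 0 ∨ P2 T c = 0)

section counts

/-- few translates have a small conjugate -/
theorem small_conj' (a : 𝓞 K) (R : ℝ) (w : (K →+* ℂ) → ℂ)
    (Z : Finset ℤ) (hZ : ∀ t ∈ Z, ∃ σ : K →+* ℂ, ‖σ ((a + (t : 𝓞 K) : 𝓞 K) : K) + w σ‖ ≤ R)
    (hR : 0 ≤ R) : (Z.card : ℝ) ≤ Module.finrank ℚ K * (2 * R + 1) := by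
  classical
  have h1 : Z ⊆ (univ : Finset (K →+* ℂ)).biUnion fun σ =>
      Z.filter fun t : ℤ => ‖σ ((a + (t : 𝓞 K) : 𝓞 K) : K) + w σ‖ ≤ R := by
    intro t ht
    obtain ⟨σ, hσ⟩ := hZ t ht
    rw [mem_biUnion]
    exact ⟨σ, mem_univ _, mem_filter.2 ⟨ht, hσ⟩⟩
  have h2 : ∀ σ ∈ (univ : Finset (K →+* ℂ)),
      ((Z.filter fun t : ℤ => ‖σ ((a + (t : 𝓞 K) : 𝓞 K) : K) + w σ‖ ≤ R).card : ℝ) ≤
        2 * R + 1 := by
    intro σ _
    set x : ℝ := (σ (a : K)).re + (w σ).re with hx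
    have h3 : (Z.filter fun t : ℤ => ‖σ ((a + (t : 𝓞 K) : 𝓞 K) : K) + w σ‖ ≤ R) ⊆
        Icc ⌈-x - R⌉ ⌊-x + R⌋ := by
      intro t ht
      rw [mem_filter] at ht
      have h4 : |x + t| ≤ R := by
        refine le_trans ?_ ht.2
        have h5 : x + t = (σ ((a + (t : 𝓞 K) : 𝓞 K) : K) + w σ).re := by
          simp [hx]
          ring
        rw [h5]
        exact Complex.abs_re_le_norm _
      rw [abs_le] at h4
      rw [mem_Icc, Int.ceil_le, Int.le_floor]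
      constructor <;> linarith [h4.1, h4.2]
    have h4 : ((Z.filter fun t : ℤ => ‖σ ((a + (t : 𝓞 K) : 𝓞 K) : K) + w σ‖ ≤ R).card : ℝ) ≤
        ((Icc ⌈-x - R⌉ ⌊-x + R⌋).card : ℝ) := by exact_mod_cast card_le_card h3
    refine h4.trans ?_
    rw [Int.card_Icc]
    have h5 := Int.floor_le (-x + R)
    have h6 := Int.le_ceil (-x - R)
    rcases le_or_gt 0 (⌊-x + R⌋ + 1 - ⌈-x - R⌉) with h7 | h7
    · have h8 : ((⌊-x + R⌋ + 1 - ⌈-x - R⌉).toNat : ℝ) = ((⌊-x + R⌋ + 1 - ⌈-x - R⌉ : ℤ) : ℝ) := by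
        have := Int.toNat_of_nonneg h7
        exact_mod_cast congrArg (Int.cast : ℤ → ℝ) this
      rw [h8]
      push_cast
      linarith
    · rw [Int.toNat_of_nonpos h7.le]
      push_cast
      linarith
  have h3 : (Z.card : ℝ) ≤ ∑ σ : K →+* ℂ,
      ((Z.filter fun t : ℤ => ‖σ ((a + (t : 𝓞 K) : 𝓞 K) : K) + w σ‖ ≤ R).card : ℝ) := by
    exact_mod_cast (card_le_card h1).trans card_biUnion_le
  refine h3.trans ((sum_le_card_nsmul _ _ _ h2).trans ?_)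
  rw [card_univ, Embeddings.card, nsmul_eq_mul]

/-- few elements of a box have a conjugate near a given number -/
theorem small_count' (K : Type) [Field K] [NumberField K] : ∃ C : ℝ, 1 ≤ C ∧ ∀ H : ℕ, 1 ≤ H →
    ∀ R : ℝ, 1 ≤ R → ∀ (w : (K →+* ℂ) → ℂ) (S : Finset (𝓞 K)),
      (∀ x ∈ S, x ∈ box K H ∧ ∃ σ : K →+* ℂ, ‖σ (x : K) + w σ‖ ≤ R) →
      (S.card : ℝ) ≤ C * (H : ℝ) ^ Module.finrank ℚ K * (R / H) := by
  classical
  obtain ⟨A, hA1, hA⟩ := box_shift K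
  set d := Module.finrank ℚ K with hd
  have hd1 : 1 ≤ d := Module.finrank_pos
  have hdR : (1 : ℝ) ≤ d := by exact_mod_cast hd1
  have hAR : (1 : ℝ) ≤ A := by exact_mod_cast hA1
  have h3A : (1 : ℝ) ≤ (3 * A) ^ d := one_le_pow₀ (by linarith)
  refine ⟨(3 * A) ^ d * (d * 3), by nlinarith, fun H hH R hR w S hS => ?_⟩
  have hHR : (1 : ℝ) ≤ H := by exact_mod_cast hH
  set T := Icc (-(H : ℤ)) H with hT
  -- pairs `(x - t, t)`
  set G := (S ×ˢ T).image fun y => (y.1 - (y.2 : 𝓞 K), y.2) with hG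
  have hGc : G.card = S.card * T.card := by
    rw [hG, card_image_of_injective, card_product]
    rintro ⟨x, t⟩ ⟨y, u⟩ h
    simp only [Prod.mk.injEq] at h
    obtain ⟨h1, h2⟩ := h
    subst h2
    rw [Prod.mk.injEq]
    exact ⟨sub_left_injective h1, rfl⟩
  have hGs : G ⊆ (box K (A * H)).biUnion fun y => (T.filter fun t : ℤ =>
      ∃ σ : K →+* ℂ, ‖σ ((y + (t : 𝓞 K) : 𝓞 K) : K) + w σ‖ ≤ R).image fun t => (y, t) := by
    intro y hy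
    rw [hG, mem_image] at hy
    obtain ⟨⟨x, t⟩, hxt, rfl⟩ := hy
    rw [mem_product] at hxt
    obtain ⟨h1, h2⟩ := hS x hxt.1
    rw [mem_biUnion]
    refine ⟨x - (t : 𝓞 K), hA H x h1 t hxt.2, ?_⟩
    rw [mem_image]
    refine ⟨t, ?_, rfl⟩
    rw [mem_filter]
    refine ⟨hxt.2, ?_⟩
    rw [sub_add_cancel]
    exact h2
  have h1 : (G.card : ℝ) ≤ (box K (A * H)).card * (d * (2 * R + 1)) := by
    have h2 : G.card ≤ ∑ y ∈ box K (A * H), (T.filter fun t : ℤ =>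
      ∃ σ : K →+* ℂ, ‖σ ((y + (t : 𝓞 K) : 𝓞 K) : K) + w σ‖ ≤ R).card :=
      (card_le_card hGs).trans (card_biUnion_le.trans (sum_le_sum fun y _ => card_image_le))
    have h3 : (G.card : ℝ) ≤ ∑ y ∈ box K (A * H), ((T.filter fun t : ℤ =>
      ∃ σ : K →+* ℂ, ‖σ ((y + (t : 𝓞 K) : 𝓞 K) : K) + w σ‖ ≤ R).card : ℝ) := by exact_mod_cast h2
    refine h3.trans ((sum_le_card_nsmul _ _ _ fun y _ => small_conj' y R w _ (fun t ht => ?_)
      (by linarith)).trans (le_of_eq ?_))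
    · rw [mem_filter] at ht
      exact ht.2
    · rw [nsmul_eq_mul]
  rw [hGc, card_box, hT, Int.card_Icc] at h1
  have h2 : ((((H : ℤ) + 1 - -(H : ℤ)).toNat : ℕ) : ℝ) = 2 * H + 1 := by
    have : ((H : ℤ) + 1 - -(H : ℤ)).toNat = 2 * H + 1 := by omega
    rw [this]
    push_cast
    ring
  push_cast at h1
  rw [show ((((H : ℤ) + 1 - -(H : ℤ)).toNat : ℕ) : ℝ) = 2 * H + 1 from h2] at h1
  have h3 : (2 * ((A : ℝ) * H) + 1) ^ d ≤ (3 * A) ^ d * (H : ℝ) ^ d := by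
    rw [← mul_pow]
    refine pow_le_pow_left₀ (by positivity) ?_ _
    nlinarith
  have h4 : (d : ℝ) * (2 * R + 1) ≤ d * 3 * R := by nlinarith
  have h5 : (S.card : ℝ) * (2 * H + 1) ≤ (3 * A) ^ d * (H : ℝ) ^ d * (d * 3 * R) :=
    h1.trans (mul_le_mul h3 h4 (by positivity) (by positivity))
  have h6 : (S.card : ℝ) * H ≤ (3 * A) ^ d * (H : ℝ) ^ d * (d * 3 * R) := by
    refine le_trans ?_ h5
    refine mul_le_mul_of_nonneg_left ?_ (Nat.cast_nonneg _)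
    linarith
  have hH0 : (0 : ℝ) < H := by linarith
  rw [← le_div_iff₀ hH0] at h6
  refine h6.trans (le_of_eq ?_)
  ring

/-- the products of elements of a box -/
theorem q_box (K : Type) [Field K] [NumberField K] : ∃ A : ℕ, 1 ≤ A ∧ ∀ H : ℕ,
    ∀ c : Fin 4 → 𝓞 K, (∀ l, c l ∈ box K H) → ∀ m, q m c ∈ box K (A * H ^ 2) := by
  obtain ⟨C₀, hC₀, hsz⟩ := box_size K
  obtain ⟨C₁, hC₁, hbx⟩ := mem_box_of_conj K
  refine ⟨⌈C₁ * (2 * C₀ ^ 2)⌉₊, ?_, fun H c hc m => hbx _ (2 * (C₀ * H) ^ 2) _ (fun σ => ?_) ?_⟩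
  · rw [Nat.one_le_ceil_iff]
    positivity
  · have h1 (i j : Fin 4) : ‖σ (c i : K)‖ * ‖σ (c j : K)‖ ≤ (C₀ * H) ^ 2 := by
      rw [pow_two]
      exact mul_le_mul (hsz H _ (hc i) σ) (hsz H _ (hc j) σ) (norm_nonneg _) (by positivity)
    have h2 : σ ((q m c : 𝓞 K) : K) = σ (c 0 : K) * σ (c (ja m) : K) +
        (ep m : ℂ) * (σ (c (ka m) : K) * σ (c (la m) : K)) := by
      unfold q
      simp
    rw [h2]
    refine (norm_add_le _ _).trans ?_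
    have h3 : ‖((ep m : ℤ) : ℂ)‖ = 1 := by
      rcases ep_sq m with h | h <;> rw [h] <;> simp
    rw [norm_mul, norm_mul, norm_mul, h3, one_mul]
    have h4 := h1 0 (ja m)
    have h5 := h1 (ka m) (la m)
    linarith
  · push_cast
    have h1 := Nat.le_ceil (C₁ * (2 * C₀ ^ 2))
    calc C₁ * (2 * (C₀ * H) ^ 2) = C₁ * (2 * C₀ ^ 2) * (H : ℝ) ^ 2 := by ring
      _ ≤ _ := mul_le_mul_of_nonneg_right h1 (by positivity)

end counts

end Pool.Agent.H433.TH
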