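import Pool.Agent.H433.TH.Exc

/-!
The number of the exceptional vectors.
-/

set_option autoImplicit false
set_option linter.unusedSectionVars false

open NumberField IsDedekindDomain Finset

namespace Pool.Agent.H433.TH

open Pool.Agent.H433.AC

variable {K : Type} [Field K] [NumberField K]

/-- there are at most `N` vectors with coordinates in `B` and the property `P` -/
def Cnt (B : Finset (𝓞 K)) (P : (Fin 4 → 𝓞 K) → Prop) (N : ℝ) : Prop :=
  ∀ S : Finset (Fin 4 → 𝓞 K), (∀ a ∈ S, (∀ l, a l ∈ B) ∧ P a) → (S.card : ℝ) ≤ N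

variable {B : Finset (𝓞 K)}

theorem Cnt.mono {P Q : (Fin 4 → 𝓞 K) → Prop} {N M : ℝ} (h : Cnt B P N)
    (hPQ : ∀ a, (∀ l, a l ∈ B) → Q a → P a) (hNM : N ≤ M) : Cnt B Q M := fun S hS =>
  (h S fun a ha => ⟨(hS a ha).1, hPQ a (hS a ha).1 (hS a ha).2⟩).trans hNM

theorem Cnt.or {P Q : (Fin 4 → 𝓞 K) → Prop} {N M : ℝ} (h : Cnt B P N) (h' : Cnt B Q M) :
    Cnt B (fun a => P a ∨ Q a) (N + M) := by
  classical
  intro S hS
  have h1 := h (S.filter P) fun a ha => by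
    rw [mem_filter] at ha
    exact ⟨(hS a ha.1).1, ha.2⟩
  have h2 := h' (S.filter Q) fun a ha => by
    rw [mem_filter] at ha
    exact ⟨(hS a ha.1).1, ha.2⟩
  have h3 : S ⊆ S.filter P ∪ S.filter Q := by
    intro a ha
    rw [mem_union, mem_filter, mem_filter]
    rcases (hS a ha).2 with h | h
    · exact Or.inl ⟨ha, h⟩
    · exact Or.inr ⟨ha, h⟩
  have h4 : (S.card : ℝ) ≤ (S.filter P).card + (S.filter Q).card := by
    exact_mod_cast (card_le_card h3).trans (card_union_le _ _)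
  linarith

theorem Cnt.exs {ι : Type*} (s : Finset ι) {P : ι → (Fin 4 → 𝓞 K) → Prop} {N : ℝ}
    (h : ∀ i ∈ s, Cnt B (P i) N) : Cnt B (fun a => ∃ i ∈ s, P i a) (s.card * N) := by
  classical
  intro S hS
  have h3 : S ⊆ s.biUnion fun i => S.filter (P i) := by
    intro a ha
    obtain ⟨i, hi, h⟩ := (hS a ha).2
    rw [mem_biUnion]
    exact ⟨i, hi, mem_filter.2 ⟨ha, h⟩⟩
  have h4 : (S.card : ℝ) ≤ ∑ i ∈ s, ((S.filter (P i)).card : ℝ) := by
    exact_mod_cast (card_le_card h3).trans card_biUnion_le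
  refine h4.trans ((sum_le_card_nsmul _ _ N fun i hi => ?_).trans (by rw [nsmul_eq_mul]))
  exact h i hi _ fun a ha => by
    rw [mem_filter] at ha
    exact ⟨(hS a ha.1).1, ha.2⟩

theorem Cnt.ex {ι : Type*} [Fintype ι] {P : ι → (Fin 4 → 𝓞 K) → Prop} {N : ℝ}
    (h : ∀ i, Cnt B (P i) N) : Cnt B (fun a => ∃ i, P i a) (Fintype.card ι * N) := by
  have := Cnt.exs (B := B) (univ : Finset ι) fun i _ => h i
  rw [card_univ] at this
  exact this.mono (fun a _ ⟨i, hi⟩ => ⟨i, mem_univ i, hi⟩) le_rfl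

/-- a vector without zero coordinates -/
def NZ (c : Fin 4 → 𝓞 K) : Prop := ∀ b, c b ≠ 0

theorem cntA (K : Type) [Field K] [NumberField K] : ∃ C : ℝ, 1 ≤ C ∧ ∀ H : ℕ, 1 ≤ H →
    ∀ R : ℝ, 1 ≤ R → Cnt (box K H) (fun c => ∃ b, ∃ σ : K →+* ℂ, ‖σ (c b : K)‖ ≤ R)
      (4 * (((box K H).card : ℝ) ^ 3 * (C * (H : ℝ) ^ Module.finrank ℚ K * (R / H)))) := by
  obtain ⟨C, hC, h⟩ := small_count K
  refine ⟨C, hC, fun H hH R hR => ?_⟩
  have := Cnt.ex (B := box K H) (ι := Fin 4)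
    (P := fun b c => ∃ σ : K →+* ℂ, ‖σ (c b : K)‖ ≤ R)
    (N := ((box K H).card : ℝ) ^ 3 * (C * (H : ℝ) ^ Module.finrank ℚ K * (R / H))) fun b => ?_
  · simpa using this
  intro S hS
  refine fiber1 (box K H) S b _ (by positivity) (fun a ha => (hS a ha).1) fun a _ T hT => ?_
  refine h H hH R hR T fun x hx => ?_
  have h1 := hS _ (hT x hx)
  have h2 := h1.1 b
  have h3 := h1.2
  simp only [Function.update_self] at h2 h3
  exact ⟨h2, h3⟩

theorem cntB (K : Type) [Field K] [NumberField K] : ∃ C : ℝ, 1 ≤ C ∧ ∀ H : ℕ, 1 ≤ H →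
    ∀ R₁ R₂ : ℝ, 1 ≤ R₁ → R₁ ≤ R₂ → Cnt (box K H)
      (fun c => (∀ b, ∀ σ : K →+* ℂ, R₁ < ‖σ (c b : K)‖) ∧
        ∃ m, ∃ σ : K →+* ℂ, ‖σ ((q m c : 𝓞 K) : K)‖ ≤ R₂)
      (6 * (((box K H).card : ℝ) ^ 3 *
        (C * (H : ℝ) ^ Module.finrank ℚ K * (R₂ / R₁ / H)))) := by
  obtain ⟨C, hC, h⟩ := small_count' K
  refine ⟨C, hC, fun H hH R₁ R₂ hR₁ hR₂ => ?_⟩
  have hR0 : 0 < R₁ := by linarith
  have hRR : 1 ≤ R₂ / R₁ := by
    rw [le_div_iff₀ hR0, one_mul]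
    exact hR₂
  have := Cnt.ex (B := box K H) (ι := Fin 6)
    (P := fun m c => (∀ b, ∀ σ : K →+* ℂ, R₁ < ‖σ (c b : K)‖) ∧
        ∃ σ : K →+* ℂ, ‖σ ((q m c : 𝓞 K) : K)‖ ≤ R₂)
    (N := ((box K H).card : ℝ) ^ 3 *
        (C * (H : ℝ) ^ Module.finrank ℚ K * (R₂ / R₁ / H))) fun m => ?_
  · refine this.mono (fun a _ ⟨h1, m, h2⟩ => ⟨m, h1, h2⟩) (by simp)
  intro S hS
  refine fiber1 (box K H) S 0 _ (by positivity) (fun a ha => (hS a ha).1) fun a _ T hT => ?_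
  set w : (K →+* ℂ) → ℂ := fun σ => (ep m : ℂ) * (σ (a (ka m) : K) * σ (a (la m) : K)) /
    σ (a (ja m) : K) with hw
  refine h H hH _ hRR w T fun x hx => ?_
  obtain ⟨h1, h2, σ, h3⟩ := hS _ (hT x hx)
  have h4 := h1 0
  rw [Function.update_self] at h4
  refine ⟨h4, σ, ?_⟩
  have hj : Function.update a 0 x (ja m) = a (ja m) := Function.update_of_ne (ja_ne m).symm _ _
  have hk : Function.update a 0 x (ka m) = a (ka m) := Function.update_of_ne (ka_0 m) _ _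
  have hl : Function.update a 0 x (la m) = a (la m) := Function.update_of_ne (la_0 m) _ _
  have h5 := h2 (ja m) σ
  rw [hj] at h5
  have h6 : σ ((q m (Function.update a 0 x) : 𝓞 K) : K) =
      (σ (x : K) + w σ) * σ (a (ja m) : K) := by
    have h7 : σ (a (ja m) : K) ≠ 0 := by
      rw [← norm_pos_iff]
      linarith
    unfold q
    rw [Function.update_self, hj, hk, hl, hw]
    simp only [map_add, map_mul, map_intCast]
    field_simp
  rw [h6, norm_mul] at h3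
  rw [le_div_iff₀ hR0]
  exact (mul_le_mul_of_nonneg_left h5.le (norm_nonneg _)).trans h3

theorem cntC (K : Type) [Field K] [NumberField K] : ∃ C : ℝ, 1 ≤ C ∧ ∀ H : ℕ, 1 ≤ H →
    ∀ Y : ℝ, 1 ≤ Y → Cnt (box K H)
      (fun c => NZ c ∧ ∃ i j, i ≠ j ∧ ∃ I : Ideal (𝓞 K), Y ≤ Ideal.absNorm I ∧ c i ∈ I ∧ c j ∈ I)
      (16 * (((box K H).card : ℝ) ^ 2 * (C * ((H : ℝ) ^ Module.finrank ℚ K) ^ 2 / Y))) := by
  obtain ⟨C, hC, h⟩ := gcd_count K
  refine ⟨C, hC, fun H hH Y hY => ?_⟩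
  have := Cnt.ex (B := box K H) (ι := Fin 4 × Fin 4)
    (P := fun p c => NZ c ∧ p.1 ≠ p.2 ∧ ∃ I : Ideal (𝓞 K), Y ≤ Ideal.absNorm I ∧
      c p.1 ∈ I ∧ c p.2 ∈ I)
    (N := ((box K H).card : ℝ) ^ 2 * (C * ((H : ℝ) ^ Module.finrank ℚ K) ^ 2 / Y)) fun p => ?_
  · refine this.mono (fun a _ ⟨h1, i, j, h2, h3⟩ => ⟨(i, j), h1, h2, h3⟩) ?_
    rw [Fintype.card_prod, Fintype.card_fin]
    norm_num
  intro S hS
  by_cases hp : p.1 = p.2
  · have : S = ∅ := by
      rw [eq_empty_iff_forall_notMem]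
      intro a ha
      exact (hS a ha).2.2.1 hp
    rw [this, card_empty, Nat.cast_zero]
    positivity
  refine fiber2 (box K H) S p.1 p.2 hp _ (by positivity) (fun a ha => (hS a ha).1)
    fun a _ T hT => ?_
  refine h H hH Y hY T fun x hx => ?_
  obtain ⟨h1, h2, -, I, h3, h4, h5⟩ := hS _ (hT x hx)
  have h6 := h1 p.1
  have h7 := h1 p.2
  have h8 := h2 p.1
  have h9 := h2 p.2
  rw [Function.update_self] at h7 h9 h5
  rw [Function.update_of_ne hp, Function.update_self] at h6 h8 h4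
  exact ⟨⟨h6, h8⟩, ⟨h7, h9⟩, I, h3, h4, h5⟩

theorem cntD (K : Type) [Field K] [NumberField K] {ε : ℝ} (hε : 0 < ε) : ∃ C : ℝ, 1 ≤ C ∧
    ∀ H : ℕ, 1 ≤ H → ∀ Y : ℝ, 1 ≤ Y → Cnt (box K H)
      (fun c => NZ c ∧ (∀ m, q m c ≠ 0) ∧
        ∃ m, ∃ I : Ideal (𝓞 K), Y ≤ Ideal.absNorm I ∧ q m c ∈ I ^ 2)
      (6 * (((box K H).card : ℝ) ^ 2 *
        (C * ((H : ℝ) ^ Module.finrank ℚ K) ^ 2 / Y * (H : ℝ) ^ ε))) := by
  classical
  obtain ⟨C₁, hC₁, hsq⟩ := sq_count K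
  obtain ⟨C₂, hC₂, hpr⟩ := pairs K hε
  obtain ⟨A, hA, hqb⟩ := q_box K
  set d := Module.finrank ℚ K with hd
  have hAR : (1 : ℝ) ≤ (A : ℝ) ^ d := one_le_pow₀ (by exact_mod_cast hA)
  refine ⟨C₁ * (A : ℝ) ^ d * C₂, one_le_mul_of_one_le_of_one_le
    (one_le_mul_of_one_le_of_one_le hC₁ hAR) hC₂, fun H hH Y hY => ?_⟩
  have hHR : (1 : ℝ) ≤ H := by exact_mod_cast hH
  have := Cnt.ex (B := box K H) (ι := Fin 6)
    (P := fun m c => NZ c ∧ (∀ m, q m c ≠ 0) ∧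
      ∃ I : Ideal (𝓞 K), Y ≤ Ideal.absNorm I ∧ q m c ∈ I ^ 2)
    (N := ((box K H).card : ℝ) ^ 2 *
        (C₁ * (A : ℝ) ^ d * C₂ * ((H : ℝ) ^ d) ^ 2 / Y * (H : ℝ) ^ ε)) fun m => ?_
  · refine this.mono (fun a _ ⟨h1, h2, m, h3⟩ => ⟨m, h1, h2, h3⟩) ?_
    rw [Fintype.card_fin]
    norm_num
  intro S hS
  -- the values of the form
  set Qs : Finset (𝓞 K) := S.image (q m) with hQs
  have hQc : (Qs.card : ℝ) ≤ C₁ * ((A * H ^ 2 : ℕ) : ℝ) ^ d / Y := by
    refine hsq (A * H ^ 2) (Nat.one_le_iff_ne_zero.2 (by positivity)) Y hY Qs fun x hx => ?_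
    rw [hQs, mem_image] at hx
    obtain ⟨c, hc, rfl⟩ := hx
    obtain ⟨h1, -, h3, h4⟩ := hS c hc
    exact ⟨hqb H c h1 m, h3 m, h4⟩
  refine fiber2 (box K H) S 0 (ja m) (ja_ne m) _ (by positivity) (fun a ha => (hS a ha).1)
    fun a _ T hT => ?_
  set u : 𝓞 K := (ep m : 𝓞 K) * (a (ka m) * a (la m)) with hu
  have hqv (x : 𝓞 K × 𝓞 K) : q m (Function.update (Function.update a 0 x.1) (ja m) x.2) =
      x.1 * x.2 + u := by
    have hj : Function.update (Function.update a 0 x.1) (ja m) x.2 (ja m) = x.2 :=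
      Function.update_self _ _ _
    have h0 : Function.update (Function.update a 0 x.1) (ja m) x.2 0 = x.1 := by
      rw [Function.update_of_ne (ja_ne m), Function.update_self]
    have hk : Function.update (Function.update a 0 x.1) (ja m) x.2 (ka m) = a (ka m) := by
      rw [Function.update_of_ne (ka_ja m), Function.update_of_ne (ka_0 m)]
    have hl : Function.update (Function.update a 0 x.1) (ja m) x.2 (la m) = a (la m) := by
      rw [Function.update_of_ne (la_ja m), Function.update_of_ne (la_0 m)]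
    unfold q
    rw [hj, h0, hk, hl]
  have h1 : (T.card : ℝ) = ∑ z ∈ T.image (fun x => x.1 * x.2 + u),
      ((T.filter fun x => x.1 * x.2 + u = z).card : ℝ) := by
    exact_mod_cast card_eq_sum_card_image (fun x : 𝓞 K × 𝓞 K => x.1 * x.2 + u) T
  have h2 : ((T.image fun x => x.1 * x.2 + u).card : ℝ) ≤ Qs.card := by
    have : T.image (fun x => x.1 * x.2 + u) ⊆ Qs := by
      intro z hz
      obtain ⟨x, hx, rfl⟩ := mem_image.1 hz
      rw [hQs, mem_image]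
      exact ⟨_, hT x hx, hqv x⟩
    exact_mod_cast card_le_card this
  have h3 : ∀ z ∈ T.image (fun x => x.1 * x.2 + u),
      ((T.filter fun x => x.1 * x.2 + u = z).card : ℝ) ≤ C₂ * (H : ℝ) ^ ε := by
    intro z hz
    obtain ⟨x0, hx0, rfl⟩ := mem_image.1 hz
    have hbx (x : 𝓞 K × 𝓞 K) (hx : x ∈ T) : (x.1 ∈ box K H ∧ x.1 ≠ 0) ∧
        (x.2 ∈ box K H ∧ x.2 ≠ 0) := by
      obtain ⟨h1, h2, -⟩ := hS _ (hT x hx)
      have h6 := h1 0
      have h7 := h1 (ja m)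
      have h8 := h2 0
      have h9 := h2 (ja m)
      rw [Function.update_self] at h7 h9
      rw [Function.update_of_ne (ja_ne m), Function.update_self] at h6 h8
      exact ⟨⟨h6, h8⟩, h7, h9⟩
    refine hpr H hH (x0.1 * x0.2) (mul_ne_zero (hbx x0 hx0).1.2 (hbx x0 hx0).2.2) _
      fun x hx => ?_
    rw [mem_filter] at hx
    exact ⟨(hbx x hx.1).1.1, (hbx x hx.1).2.1, add_right_cancel hx.2⟩
  have h4 : (0 : ℝ) ≤ C₂ * (H : ℝ) ^ ε := by positivity
  calc (T.card : ℝ) ≤ (T.image fun x => x.1 * x.2 + u).card • (C₂ * (H : ℝ) ^ ε) := by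
        rw [h1]
        exact sum_le_card_nsmul _ _ _ h3
    _ = ((T.image fun x => x.1 * x.2 + u).card : ℝ) * (C₂ * (H : ℝ) ^ ε) := by
        rw [nsmul_eq_mul]
    _ ≤ C₁ * ((A * H ^ 2 : ℕ) : ℝ) ^ d / Y * (C₂ * (H : ℝ) ^ ε) :=
        mul_le_mul_of_nonneg_right (h2.trans hQc) h4
    _ = _ := by
        push_cast
        rw [mul_pow]
        ring

theorem sq_card (T : Finset (𝓞 K)) (b : 𝓞 K) (hT : ∀ x ∈ T, x ^ 2 = b) : T.card ≤ 2 := by
  classical
  rcases T.eq_empty_or_nonempty with rfl | ⟨x0, hx0⟩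
  · simp
  have h : T ⊆ {x0, -x0} := by
    intro x hx
    rw [mem_insert, mem_singleton]
    exact sq_eq_sq_iff_eq_or_eq_neg.1 ((hT x hx).trans (hT x0 hx0).symm)
  exact (card_le_card h).trans card_le_two

theorem cntF (H : ℕ) : Cnt (box K H)
      (fun c => ∃ i j, i ≠ j ∧ (c i ^ 2 = c j ^ 2 ∨ c i ^ 2 = -c j ^ 2))
      (16 * (((box K H).card : ℝ) ^ 3 * 4)) := by
  classical
  have := Cnt.ex (B := box K H) (ι := Fin 4 × Fin 4)
    (P := fun p c => p.1 ≠ p.2 ∧ (c p.1 ^ 2 = c p.2 ^ 2 ∨ c p.1 ^ 2 = -c p.2 ^ 2))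
    (N := ((box K H).card : ℝ) ^ 3 * 4) fun p => ?_
  · refine this.mono (fun a _ ⟨i, j, h2, h3⟩ => ⟨(i, j), h2, h3⟩) ?_
    rw [Fintype.card_prod, Fintype.card_fin]
    norm_num
  intro S hS
  by_cases hp : p.1 = p.2
  · have : S = ∅ := by
      rw [eq_empty_iff_forall_notMem]
      intro a ha
      exact (hS a ha).2.1 hp
    rw [this, card_empty, Nat.cast_zero]
    positivity
  refine fiber1 (box K H) S p.1 _ (by norm_num) (fun a ha => (hS a ha).1) fun a _ T hT => ?_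
  have h1 : T ⊆ (T.filter fun x => x ^ 2 = a p.2 ^ 2) ∪ T.filter fun x => x ^ 2 = -a p.2 ^ 2 := by
    intro x hx
    obtain ⟨-, -, h⟩ := hS _ (hT x hx)
    rw [Function.update_self, Function.update_of_ne (Ne.symm hp)] at h
    rw [mem_union, mem_filter, mem_filter]
    rcases h with h | h
    · exact Or.inl ⟨hx, h⟩
    · exact Or.inr ⟨hx, h⟩
  have h2 := sq_card (T.filter fun x => x ^ 2 = a p.2 ^ 2) (a p.2 ^ 2)
    fun x hx => (mem_filter.1 hx).2
  have h3 := sq_card (T.filter fun x => x ^ 2 = -a p.2 ^ 2) (-a p.2 ^ 2)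
    fun x hx => (mem_filter.1 hx).2
  have h4 : T.card ≤ 4 := (card_le_card h1).trans ((card_union_le _ _).trans (by omega))
  exact_mod_cast h4

/-- if `c_i` and the form lie in an ideal, then two coordinates have a large common divisor -/
theorem two_coord {m : Fin 6} {c : Fin 4 → 𝓞 K} {b : Fin 4} {I : Ideal (𝓞 K)} {Y : ℝ}
    (hY : 1 ≤ Y) (hq : q m c ∈ I) (hb : c b ∈ I) (hI : Y ^ 2 ≤ Ideal.absNorm I) :
    ∃ i j, i ≠ j ∧ ∃ J : Ideal (𝓞 K), Y ≤ Ideal.absNorm J ∧ c i ∈ J ∧ c j ∈ J := by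
  -- it is enough to have a product of two other coordinates in the ideal
  have key : ∀ i j : Fin 4, b ≠ i → b ≠ j → c i * c j ∈ I →
      ∃ i j, i ≠ j ∧ ∃ J : Ideal (𝓞 K), Y ≤ Ideal.absNorm J ∧ c i ∈ J ∧ c j ∈ J := by
    intro i j hbi hbj hij
    have h1 : I ∣ Ideal.span {c i} * Ideal.span {c j} := by
      rw [Ideal.span_singleton_mul_span_singleton, Ideal.dvd_span_singleton]
      exact hij
    obtain ⟨J₁, J₂, h2, h3, h4⟩ := exists_dvd_and_dvd_of_dvd_mul h1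
    rw [Ideal.dvd_span_singleton] at h2 h3
    have hb1 : c b ∈ J₁ := (h4 ▸ Ideal.mul_le_left) hb
    have hb2 : c b ∈ J₂ := (h4 ▸ Ideal.mul_le_right) hb
    rw [h4, map_mul] at hI
    push_cast at hI
    by_cases h5 : Y ≤ Ideal.absNorm J₁
    · exact ⟨b, i, hbi, J₁, h5, hb1, h2⟩
    · by_cases h6 : Y ≤ Ideal.absNorm J₂
      · exact ⟨b, j, hbj, J₂, h6, hb2, h3⟩
      · exfalso
        push Not at h5 h6
        have : (Ideal.absNorm J₁ : ℝ) * Ideal.absNorm J₂ < Y * Y :=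
          mul_lt_mul'' h5 h6 (Nat.cast_nonneg _) (Nat.cast_nonneg _)
        nlinarith
  have hs : ∀ x : 𝓞 K, (ep m : 𝓞 K) * x ∈ I → x ∈ I := by
    intro x hx
    rcases ep_sq m with h | h
    · simpa [h] using hx
    · simpa [h] using hx
  by_cases h0 : b = 0 ∨ b = ja m
  · have h1 : c 0 * c (ja m) ∈ I := by
      rcases h0 with h0 | h0
      · rw [h0] at hb
        exact Ideal.mul_mem_right _ _ hb
      · rw [h0] at hb
        exact Ideal.mul_mem_left _ _ hb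
    have h2 : (ep m : 𝓞 K) * (c (ka m) * c (la m)) ∈ I := by
      have := I.sub_mem hq h1
      unfold q at this
      rwa [add_sub_cancel_left] at this
    refine key (ka m) (la m) ?_ ?_ (hs _ h2)
    · rcases h0 with h0 | h0
      · rw [h0]; exact (ka_0 m).symm
      · rw [h0]; exact (ka_ja m).symm
    · rcases h0 with h0 | h0
      · rw [h0]; exact (la_0 m).symm
      · rw [h0]; exact (la_ja m).symm
  · push Not at h0
    have hbkl : b = ka m ∨ b = la m := by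
      revert h0
      have : ∀ (m : Fin 6) (b : Fin 4), b ≠ 0 ∧ b ≠ ja m → b = ka m ∨ b = la m := by decide
      exact this m b
    have h1 : (ep m : 𝓞 K) * (c (ka m) * c (la m)) ∈ I := by
      refine Ideal.mul_mem_left _ _ ?_
      rcases hbkl with h | h
      · rw [h] at hb
        exact Ideal.mul_mem_right _ _ hb
      · rw [h] at hb
        exact Ideal.mul_mem_left _ _ hb
    have h2 : c 0 * c (ja m) ∈ I := by
      have := I.sub_mem hq h1
      unfold q at this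
      rwa [add_sub_cancel_right] at this
    exact key 0 (ja m) h0.1 h0.2 h2

theorem cntE (K : Type) [Field K] [NumberField K] {ε : ℝ} (hε : 0 < ε) : ∃ C : ℝ, 1 ≤ C ∧
    ∀ H : ℕ, 1 ≤ H → ∀ Y : ℝ, 1 ≤ Y → Cnt (box K H)
      (fun c => NZ c ∧
        (¬ ∃ i j, i ≠ j ∧ ∃ I : Ideal (𝓞 K), Y ≤ Ideal.absNorm I ∧ c i ∈ I ∧ c j ∈ I) ∧
        (¬ ∃ i j, i ≠ j ∧ (c i ^ 2 = c j ^ 2 ∨ c i ^ 2 = -c j ^ 2)) ∧
        ∃ m k, ∃ I : Ideal (𝓞 K), Y ^ 4 ≤ Ideal.absNorm I ∧ q m c ∈ I ∧ Z k c c ∈ I)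
      (24 * (((box K H).card : ℝ) ^ 3 *
        (C * (H : ℝ) ^ ε * (1 + C * (H : ℝ) ^ Module.finrank ℚ K / Y ^ 2)))) := by
  classical
  set d := Module.finrank ℚ K with hd
  have hd0 : (0 : ℝ) < d := by
    have : 0 < d := Module.finrank_pos
    exact_mod_cast this
  obtain ⟨C₀, hC₀, hsz⟩ := box_size K
  obtain ⟨C₁, hC₁, hdiv⟩ := ideal_div K (ε := ε / (4 * d)) (by positivity)
  obtain ⟨C₂, hC₂, hcid⟩ := card_ideal K
  set C₃ : ℝ := C₁ * ((2 * C₀ ^ 2) ^ (2 * d)) ^ (ε / (4 * d)) with hC₃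
  have hC₃1 : 1 ≤ C₃ := by
    refine one_le_mul_of_one_le_of_one_le hC₁ (Real.one_le_rpow (one_le_pow₀ ?_) (by positivity))
    nlinarith
  have h2d : (1 : ℝ) ≤ 2 ^ d := one_le_pow₀ (by norm_num)
  refine ⟨C₃ * (C₂ * 2 ^ d), one_le_mul_of_one_le_of_one_le hC₃1
    (one_le_mul_of_one_le_of_one_le hC₂ h2d), fun H hH Y hY => ?_⟩
  have hHR : (1 : ℝ) ≤ H := by exact_mod_cast hH
  have := Cnt.ex (B := box K H) (ι := Fin 6 × Fin 4)
    (P := fun p c => NZ c ∧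
        (¬ ∃ i j, i ≠ j ∧ ∃ I : Ideal (𝓞 K), Y ≤ Ideal.absNorm I ∧ c i ∈ I ∧ c j ∈ I) ∧
        (¬ ∃ i j, i ≠ j ∧ (c i ^ 2 = c j ^ 2 ∨ c i ^ 2 = -c j ^ 2)) ∧
        ∃ I : Ideal (𝓞 K), Y ^ 4 ≤ Ideal.absNorm I ∧ q p.1 c ∈ I ∧ Z p.2 c c ∈ I)
    (N := ((box K H).card : ℝ) ^ 3 * (C₃ * (C₂ * 2 ^ d) * (H : ℝ) ^ ε *
        (1 + C₃ * (C₂ * 2 ^ d) * (H : ℝ) ^ d / Y ^ 2))) fun p => ?_
  · refine this.mono (fun a _ ⟨h1, h2, h3, m, k, h4⟩ => ⟨(m, k), h1, h2, h3, h4⟩) ?_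
    rw [Fintype.card_prod, Fintype.card_fin, Fintype.card_fin]
    norm_num
  obtain ⟨m, k⟩ := p
  intro S hS
  simp only at hS
  refine fiber1 (box K H) S 0 _ (by positivity) (fun a ha => (hS a ha).1) fun a ha T hT => ?_
  have hj (x : 𝓞 K) : Function.update a 0 x (ja m) = a (ja m) :=
    Function.update_of_ne (ja_ne m).symm _ _
  have hk (x : 𝓞 K) : Function.update a 0 x (ka m) = a (ka m) :=
    Function.update_of_ne (ka_0 m) _ _
  have hl (x : 𝓞 K) : Function.update a 0 x (la m) = a (la m) :=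
    Function.update_of_ne (la_0 m) _ _
  obtain ⟨s, s', hs, hs', hZ⟩ := Z_q (R := 𝓞 K) m k
  set F : 𝓞 K := (a (ka m) ^ 2 + s * a (ja m) ^ 2) * (a (la m) ^ 2 + s' * a (ja m) ^ 2) with hF
  have hsum (i j : Fin 4) (hij : i ≠ j) (s : ℤ) (hs : s = 1 ∨ s = -1) :
      a i ^ 2 + s * a j ^ 2 ≠ 0 := by
    intro h0
    apply (hS a ha).2.2.2.1
    refine ⟨i, j, hij, ?_⟩
    rcases hs with rfl | rfl
    · right
      push_cast at h0
      linear_combination h0
    · left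
      push_cast at h0
      linear_combination h0
  have hF0 : F ≠ 0 := mul_ne_zero (hsum _ _ (ka_ja m) s hs) (hsum _ _ (la_ja m) s' hs')
  -- the ideals
  have hI (x : 𝓞 K) : ∃ I : Ideal (𝓞 K), x ∈ T → Y ^ 4 ≤ Ideal.absNorm I ∧
      q m (Function.update a 0 x) ∈ I ∧ F ∈ I := by
    by_cases hx : x ∈ T
    · obtain ⟨-, -, -, -, I, h1, h2, h3⟩ := hS _ (hT x hx)
      refine ⟨I, fun _ => ⟨h1, h2, ?_⟩⟩
      have h4 := hZ (Function.update a 0 x)
      rw [hj, hk, hl, ← hF] at h4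
      have h5 : F = a (ja m) ^ 2 * Z k (Function.update a 0 x) (Function.update a 0 x) -
          (Function.update a 0 x 0 * a (ja m) - ep m * (a (ka m) * a (la m))) *
            q m (Function.update a 0 x) := by
        rw [h4]
        ring
      rw [h5]
      exact I.sub_mem (I.mul_mem_left _ h3) (I.mul_mem_left _ h2)
    · exact ⟨⊤, fun h => absurd h hx⟩
  choose I hI using hI
  have hTi : ((T.image I).card : ℝ) ≤ C₃ * (H : ℝ) ^ ε := by
    have h1 := hdiv (Ideal.span {F}) (by rwa [Ne, Ideal.span_singleton_eq_bot]) (T.image I)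
      (fun J hJ => by
        obtain ⟨x, hx, rfl⟩ := mem_image.1 hJ
        rw [Ideal.dvd_span_singleton]
        exact (hI x hx).2.2)
    have h2 : (Ideal.absNorm (Ideal.span {F}) : ℝ) ≤ (2 * C₀ ^ 2) ^ (2 * d) * (H : ℝ) ^ (4 * d) := by
      have h3 := Nm_emb F
      unfold Nm at h3
      rw [h3]
      have h4 (σ : K →+* ℂ) : ‖σ (F : K)‖ ≤ (2 * C₀ ^ 2) ^ 2 * (H : ℝ) ^ 4 := by
        have h5 (i j : Fin 4) (s : ℤ) (hs : s = 1 ∨ s = -1) :
            ‖σ ((a i ^ 2 + s * a j ^ 2 : 𝓞 K) : K)‖ ≤ 2 * C₀ ^ 2 * (H : ℝ) ^ 2 := by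
          have h6 (i : Fin 4) : ‖σ (a i : K)‖ ^ 2 ≤ (C₀ * H) ^ 2 :=
            pow_le_pow_left₀ (norm_nonneg _) (hsz H _ ((hS a ha).1 i) σ) 2
          have h7 : σ ((a i ^ 2 + s * a j ^ 2 : 𝓞 K) : K) =
              σ (a i : K) ^ 2 + (s : ℂ) * σ (a j : K) ^ 2 := by simp
          rw [h7]
          refine (norm_add_le _ _).trans ?_
          have h8 : ‖((s : ℤ) : ℂ)‖ = 1 := by
            rcases hs with h | h <;> rw [h] <;> simp
          rw [norm_mul, h8, one_mul, norm_pow, norm_pow]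
          have h9 := h6 i
          have h10 := h6 j
          nlinarith
        have h11 : σ (F : K) = σ ((a (ka m) ^ 2 + s * a (ja m) ^ 2 : 𝓞 K) : K) *
            σ ((a (la m) ^ 2 + s' * a (ja m) ^ 2 : 𝓞 K) : K) := by
          rw [hF]
          simp
        rw [h11, norm_mul]
        calc _ ≤ (2 * C₀ ^ 2 * (H : ℝ) ^ 2) * (2 * C₀ ^ 2 * (H : ℝ) ^ 2) :=
              mul_le_mul (h5 _ _ s hs) (h5 _ _ s' hs') (norm_nonneg _) (by positivity)
          _ = _ := by ring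
      calc ∏ σ : K →+* ℂ, ‖σ (F : K)‖ ≤ ∏ _σ : K →+* ℂ, ((2 * C₀ ^ 2) ^ 2 * (H : ℝ) ^ 4) :=
            prod_le_prod (fun _ _ => norm_nonneg _) fun σ _ => h4 σ
        _ = _ := by
            rw [prod_const, card_univ, Embeddings.card, mul_pow, ← pow_mul, ← pow_mul]
    calc ((T.image I).card : ℝ) ≤ _ := h1
      _ ≤ C₁ * ((2 * C₀ ^ 2) ^ (2 * d) * (H : ℝ) ^ (4 * d)) ^ (ε / (4 * d)) :=
          mul_le_mul_of_nonneg_left (Real.rpow_le_rpow (Nat.cast_nonneg _) h2 (by positivity))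
            (by linarith)
      _ = _ := by
          rw [Real.mul_rpow (by positivity) (by positivity), hC₃, ← Real.rpow_natCast (H : ℝ),
            ← Real.rpow_mul (by linarith)]
          have : ((4 * d : ℕ) : ℝ) * (ε / (4 * d)) = ε := by
            push_cast
            field_simp
          rw [this]
          ring
  have hfib : ∀ J ∈ T.image I, ((T.filter fun x => I x = J).card : ℝ) ≤
      1 + C₂ * 2 ^ d * (H : ℝ) ^ d / Y ^ 2 := by
    intro J hJ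
    obtain ⟨x0, hx0, rfl⟩ := mem_image.1 hJ
    set J := I x0 with hJd
    obtain ⟨hN, hq0, -⟩ := hI x0 hx0
    have hYJ : 0 < Ideal.absNorm J := by
      have h1 : (0 : ℝ) < Ideal.absNorm J := lt_of_lt_of_le (by positivity) hN
      exact_mod_cast h1
    -- the greatest common divisor with `a_j`
    set G : Ideal (𝓞 K) := J ⊔ Ideal.span {a (ja m)} with hG
    have hJG : J ≤ G := le_sup_left
    obtain ⟨L, hL⟩ := Ideal.dvd_iff_le.2 hJG
    have hGn : (Ideal.absNorm G : ℝ) < Y ^ 2 := by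
      by_contra hcon
      push Not at hcon
      apply (hS _ (hT x0 hx0)).2.2.1
      refine two_coord hY (m := m) (b := ja m) (hJG hq0) ?_ hcon
      rw [hj]
      exact (le_sup_right : Ideal.span {a (ja m)} ≤ G) (Ideal.mem_span_singleton_self _)
    have hLn : Y ^ 2 ≤ Ideal.absNorm L := by
      have h1 : (Ideal.absNorm J : ℝ) = Ideal.absNorm G * Ideal.absNorm L := by
        rw [hL, map_mul]
        push_cast
        rfl
      rw [h1] at hN
      by_contra hcon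
      push Not at hcon
      have h2 : (Ideal.absNorm G : ℝ) * Ideal.absNorm L < Y ^ 2 * Y ^ 2 :=
        mul_lt_mul'' hGn hcon (Nat.cast_nonneg _) (Nat.cast_nonneg _)
      have h3 : Y ^ 2 * Y ^ 2 = Y ^ 4 := by ring
      linarith
    have hL0 : L ≠ ⊥ := by
      intro h0
      rw [h0, Ideal.absNorm_bot] at hLn
      have : 0 < Y ^ 2 := by positivity
      simp only [Nat.cast_zero] at hLn
      linarith
    have hG0 : G ≠ 0 := by
      intro h0
      rw [h0, zero_mul] at hL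
      rw [hL] at hYJ
      simp at hYJ
    -- the differences
    set D := ((T.filter fun x => I x = J).erase x0).image fun x => x - x0 with hD
    have hDc : (D.card : ℝ) ≤ C₂ * ((2 * H : ℕ) : ℝ) ^ d / Ideal.absNorm L := by
      refine hcid (2 * H) (by omega) L hL0 D fun y hy => ?_
      obtain ⟨x, hx, rfl⟩ := mem_image.1 hy
      rw [mem_erase, mem_filter] at hx
      obtain ⟨hxne, hxT, hxJ⟩ := hx
      have hb (x : 𝓞 K) (hx : x ∈ T) : x ∈ box K H := by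
        have := (hS _ (hT x hx)).1 0
        rwa [Function.update_self] at this
      refine ⟨sub_mem_box (hb x hxT) (hb x0 hx0), sub_ne_zero.2 hxne, ?_⟩
      have hq1 := (hI x hxT).2.1
      rw [hxJ] at hq1
      have h1 : (x - x0) * a (ja m) ∈ J := by
        have h2 := J.sub_mem hq1 hq0
        unfold q at h2
        rw [Function.update_self, Function.update_self, hj, hj, hk, hk, hl, hl] at h2
        have h3 : x * a (ja m) + ep m * (a (ka m) * a (la m)) -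
            (x0 * a (ja m) + ep m * (a (ka m) * a (la m))) = (x - x0) * a (ja m) := by ring
        rwa [h3] at h2
      have h4 : Ideal.span {x - x0} * G ≤ J := by
        rw [hG, Ideal.mul_sup]
        refine sup_le Ideal.mul_le_right ?_
        rw [Ideal.span_singleton_mul_span_singleton, Ideal.span_singleton_le_iff_mem]
        exact h1
      have h5 : G * L ∣ G * Ideal.span {x - x0} := by
        rw [← hL, Ideal.dvd_iff_le, mul_comm]
        exact h4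
      have h6 := (mul_dvd_mul_iff_left hG0).1 h5
      exact (Ideal.dvd_span_singleton).1 h6
    have hDe : D.card = ((T.filter fun x => I x = J).erase x0).card :=
      card_image_of_injective _ sub_left_injective
    have hx0f : x0 ∈ T.filter fun x => I x = J := mem_filter.2 ⟨hx0, rfl⟩
    have h7 : ((T.filter fun x => I x = J).card : ℝ) = D.card + 1 := by
      rw [hDe, card_erase_of_mem hx0f]
      have : 1 ≤ (T.filter fun x => I x = J).card := card_pos.2 ⟨x0, hx0f⟩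
      push_cast [Nat.cast_sub this]
      ring
    rw [h7]
    have h8 : C₂ * ((2 * H : ℕ) : ℝ) ^ d / Ideal.absNorm L ≤ C₂ * 2 ^ d * (H : ℝ) ^ d / Y ^ 2 := by
      push_cast
      rw [mul_pow, ← mul_assoc]
      exact div_le_div_of_nonneg_left (by positivity) (by positivity) hLn
    linarith
  have h1 : (T.card : ℝ) = ∑ J ∈ T.image I, ((T.filter fun x => I x = J).card : ℝ) := by
    exact_mod_cast card_eq_sum_card_image I T
  have hpos : 0 ≤ 1 + C₂ * 2 ^ d * (H : ℝ) ^ d / Y ^ 2 := by positivity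
  calc (T.card : ℝ) ≤ (T.image I).card • (1 + C₂ * 2 ^ d * (H : ℝ) ^ d / Y ^ 2) := by
        rw [h1]
        exact sum_le_card_nsmul _ _ _ hfib
    _ = ((T.image I).card : ℝ) * (1 + C₂ * 2 ^ d * (H : ℝ) ^ d / Y ^ 2) := by rw [nsmul_eq_mul]
    _ ≤ (C₃ * (H : ℝ) ^ ε) * (1 + C₂ * 2 ^ d * (H : ℝ) ^ d / Y ^ 2) :=
        mul_le_mul_of_nonneg_right hTi hpos
    _ ≤ (C₃ * (C₂ * 2 ^ d) * (H : ℝ) ^ ε) *
        (1 + C₃ * (C₂ * 2 ^ d) * (H : ℝ) ^ d / Y ^ 2) := by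
        have h2 : 1 ≤ C₂ * 2 ^ d := one_le_mul_of_one_le_of_one_le hC₂ h2d
        have h3 : C₃ ≤ C₃ * (C₂ * 2 ^ d) := le_mul_of_one_le_right (by linarith) h2
        have h4 : C₂ * 2 ^ d ≤ C₃ * (C₂ * 2 ^ d) := le_mul_of_one_le_left (by linarith) hC₃1
        refine mul_le_mul (mul_le_mul_of_nonneg_right h3 (by positivity)) ?_ hpos (by positivity)
        gcongr

section sz

open MvPolynomial

theorem sz (B : Finset (𝓞 K)) (p : MvPolynomial (Fin 4) (𝓞 K)) (hp : p ≠ 0)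
    (hd : p.totalDegree ≤ 4) : Cnt B (fun c => eval c p = 0) (4 * (B.card : ℝ) ^ 3) := by
  classical
  intro S hS
  rcases S.eq_empty_or_nonempty with rfl | ⟨a, ha⟩
  · simp only [card_empty, Nat.cast_zero]
    positivity
  have hB : 0 < B.card := card_pos.2 ⟨_, (hS a ha).1 0⟩
  have hBq : (0 : ℚ≥0) < (B.card : ℚ≥0) := by exact_mod_cast hB
  have h1 := schwartz_zippel_totalDegree hp B
  have h2 : S ⊆ (Fintype.piFinset fun _ : Fin 4 => B).filter fun f => eval f p = 0 := by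
    intro b hb
    rw [mem_filter, Fintype.mem_piFinset]
    exact hS b hb
  rw [div_le_iff₀ (by positivity)] at h1
  have h3 : ((p.totalDegree : ℚ≥0) / B.card) * (B.card : ℚ≥0) ^ 4 =
      p.totalDegree * (B.card : ℚ≥0) ^ 3 := by
    field_simp
  rw [h3] at h1
  have h4 : ((Fintype.piFinset fun _ : Fin 4 => B).filter fun f => eval f p = 0).card ≤
      4 * B.card ^ 3 := by
    have h5 : ((Fintype.piFinset fun _ : Fin 4 => B).filter fun f => eval f p = 0).card ≤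
        p.totalDegree * B.card ^ 3 := by exact_mod_cast h1
    exact h5.trans (Nat.mul_le_mul_right _ hd)
  exact_mod_cast (card_le_card h2).trans h4

/-- the relations as polynomials -/
noncomputable def pl (i : Fin 4 × Fin 4 × Fin 4 × Fin 4) (T : Fin 3 → 𝓞 K) :
    MvPolynomial (Fin 4) (𝓞 K) :=
  C (2 * T 0) * (X 0 * X 1 * X 2 * X 3) + C (T 1) * (X 0 ^ 2 * X 1 ^ 2 + X 2 ^ 2 * X 3 ^ 2) -
    C (T 2) * (X i.1 ^ 2 * X i.2.1 ^ 2 + X i.2.2.1 ^ 2 * X i.2.2.2 ^ 2)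

theorem pl_deg (i : Fin 4 × Fin 4 × Fin 4 × Fin 4) (T : Fin 3 → 𝓞 K) :
    (pl i T).totalDegree ≤ 4 := by
  have h (j : Fin 4) : (X j : MvPolynomial (Fin 4) (𝓞 K)).IsHomogeneous 1 := isHomogeneous_X _ j
  have h2 (j k : Fin 4) : (X j ^ 2 * X k ^ 2 : MvPolynomial (Fin 4) (𝓞 K)).IsHomogeneous 4 :=
    ((h j).pow 2).mul ((h k).pow 2)
  have h3 : (X 0 * X 1 * X 2 * X 3 : MvPolynomial (Fin 4) (𝓞 K)).IsHomogeneous 4 :=
    (((h 0).mul (h 1)).mul (h 2)).mul (h 3)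
  have h4 (a : 𝓞 K) {p : MvPolynomial (Fin 4) (𝓞 K)} (hp : p.IsHomogeneous 4) :
      (C a * p).IsHomogeneous 4 := by
    have := (isHomogeneous_C (Fin 4) a).mul hp
    rwa [zero_add] at this
  have h5 : (pl i T).IsHomogeneous 4 := by
    unfold pl
    exact ((h4 _ h3).add (h4 _ ((h2 _ _).add (h2 _ _)))).sub (h4 _ ((h2 _ _).add (h2 _ _)))
  exact h5.totalDegree_le

theorem pl1_eval (T : Fin 3 → 𝓞 K) (c : Fin 4 → 𝓞 K) :
    eval c (pl (0, 2, 1, 3) T) = P1 T c := by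
  simp [pl, P1]

theorem pl2_eval (T : Fin 3 → 𝓞 K) (c : Fin 4 → 𝓞 K) :
    eval c (pl (0, 3, 1, 2) T) = P2 T c := by
  simp [pl, P2]

theorem pl1_ne {T : Fin 3 → 𝓞 K} (hT : T ≠ 0) : pl (0, 2, 1, 3) T ≠ 0 := by
  intro h0
  have h (c : Fin 4 → 𝓞 K) : P1 T c = 0 := by
    rw [← pl1_eval, h0, map_zero]
  have h1 : T 1 = 0 := by
    have := h ![1, 1, 0, 0]
    simpa [P1] using this
  have h2 : T 2 = 0 := by
    have := h ![1, 0, 1, 0]
    simpa [P1] using this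
  have h3 : T 0 = 0 := by
    have := h ![1, 1, 1, 1]
    simpa [P1, h1, h2] using this
  apply hT
  funext i
  fin_cases i
  · exact h3
  · exact h1
  · exact h2

theorem pl2_ne {T : Fin 3 → 𝓞 K} (hT : T ≠ 0) : pl (0, 3, 1, 2) T ≠ 0 := by
  intro h0
  have h (c : Fin 4 → 𝓞 K) : P2 T c = 0 := by
    rw [← pl2_eval, h0, map_zero]
  have h1 : T 1 = 0 := by
    have := h ![1, 1, 0, 0]
    simpa [P2] using this
  have h2 : T 2 = 0 := by
    have := h ![1, 0, 0, 1]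
    simpa [P2] using this
  have h3 : T 0 = 0 := by
    have := h ![1, 1, 1, 1]
    simpa [P2, h1, h2] using this
  apply hT
  funext i
  fin_cases i
  · exact h3
  · exact h1
  · exact h2

theorem cntG (H E : ℕ) : Cnt (box K H)
      (fun c => ∃ T : Fin 3 → 𝓞 K, (∀ i, T i ∈ box K E) ∧ T ≠ 0 ∧ (P1 T c = 0 ∨ P2 T c = 0))
      (((box K E).card : ℝ) ^ 3 * (8 * ((box K H).card : ℝ) ^ 3)) := by
  classical
  have h := Cnt.exs (B := box K H)
    ((Fintype.piFinset fun _ : Fin 3 => box K E).filter fun T => T ≠ 0)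
    (P := fun T c => P1 T c = 0 ∨ P2 T c = 0) (N := 8 * ((box K H).card : ℝ) ^ 3) fun T hT => ?_
  · refine h.mono (fun c _ ⟨T, h1, h2, h3⟩ => ⟨T, ?_, h3⟩) ?_
    · rw [mem_filter, Fintype.mem_piFinset]
      exact ⟨h1, h2⟩
    · refine mul_le_mul_of_nonneg_right ?_ (by positivity)
      have h1 := card_filter_le (Fintype.piFinset fun _ : Fin 3 => box K E) fun T => T ≠ 0
      rw [Fintype.card_piFinset, prod_const, card_univ, Fintype.card_fin] at h1
      exact_mod_cast h1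
  · rw [mem_filter] at hT
    have h1 := sz (box K H) _ (pl1_ne hT.2) (pl_deg _ T)
    have h2 := sz (box K H) _ (pl2_ne hT.2) (pl_deg _ T)
    refine (h1.or h2).mono (fun c _ h3 => ?_) (by linarith)
    rw [pl1_eval, pl2_eval]
    exact h3

end sz

/-- the number of the exceptional vectors -/
theorem exc_card (K : Type) [Field K] [NumberField K] {ε : ℝ} (hε : 0 < ε) : ∃ C : ℝ, 1 ≤ C ∧
    ∀ H : ℕ, 1 ≤ H → ∀ (Y R₁ R₂ : ℝ) (E : ℕ), 1 ≤ Y → 1 ≤ R₁ → R₁ ≤ R₂ →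
      Cnt (box K H) (Exc Y R₁ R₂ E)
        (C * ((H : ℝ) ^ Module.finrank ℚ K) ^ 4 * (R₁ / H + R₂ / (R₁ * H) +
          (H : ℝ) ^ ε / Y + (H : ℝ) ^ ε / H +
          ((box K E).card : ℝ) ^ 3 / (H : ℝ) ^ Module.finrank ℚ K)) := by
  classical
  obtain ⟨CA, hCA, hA⟩ := cntA K
  obtain ⟨CB, hCB, hB⟩ := cntB K
  obtain ⟨CC, hCC, hC⟩ := cntC K
  obtain ⟨CD, hCD, hD⟩ := cntD K hε
  obtain ⟨CE, hCE, hE⟩ := cntE K hε
  set d := Module.finrank ℚ K with hd
  have hd1 : 1 ≤ d := Module.finrank_pos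
  set b : ℝ := 3 ^ d with hb
  have hb1 : 1 ≤ b := one_le_pow₀ (by norm_num)
  refine ⟨b ^ 3 * (4 * CA + 6 * CB + 16 * CC + 6 * CD + 24 * CE ^ 2 + 72), ?_,
    fun H hH Y R₁ R₂ E hY hR₁ hR₂ => ?_⟩
  · refine one_le_mul_of_one_le_of_one_le (one_le_pow₀ hb1) ?_
    nlinarith [sq_nonneg CE]
  have hHR : (1 : ℝ) ≤ H := by exact_mod_cast hH
  set X : ℝ := (H : ℝ) ^ d with hX
  have hX1 : 1 ≤ X := one_le_pow₀ hHR
  have hHX : (H : ℝ) ≤ X := le_self_pow₀ hHR (by omega)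
  have hBX (t : ℕ) (ht : t ≤ 3) : ((box K H).card : ℝ) ^ t ≤ b ^ 3 * X ^ t := by
    have h1 := card_box_le K hH t
    push_cast at h1
    refine h1.trans ?_
    rw [pow_mul]
    exact mul_le_mul_of_nonneg_right (pow_le_pow_right₀ hb1 ht) (by positivity)
  set h : ℝ := (H : ℝ) ^ ε with hh
  have hh1 : 1 ≤ h := Real.one_le_rpow hHR hε.le
  set e : ℝ := ((box K E).card : ℝ) ^ 3 with he
  have he0 : 0 ≤ e := by positivity
  -- the terms
  have hH0 : (0 : ℝ) < H := by linarith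
  have hY0 : (0 : ℝ) < Y := by linarith
  have hR0 : (0 : ℝ) < R₁ := by linarith
  have hR20 : (0 : ℝ) < R₂ := by linarith
  have tot := (((((hA H hH R₁ hR₁).or (hB H hH R₁ R₂ hR₁ hR₂)).or (hC H hH Y hY)).or
    (hD H hH Y hY)).or (hE H hH Y hY)).or ((cntF (K := K) H).or (cntG (K := K) H E))
  refine tot.mono (fun c hc hexc => ?_) ?_
  · by_cases a : ∃ b, ∃ σ : K →+* ℂ, ‖σ (c b : K)‖ ≤ R₁
    · exact Or.inl (Or.inl (Or.inl (Or.inl (Or.inl a))))
    have a' : ∀ b, ∀ σ : K →+* ℂ, R₁ < ‖σ (c b : K)‖ := by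
      push Not at a
      exact a
    have hnz : NZ c := by
      intro b h0
      have := a' b (Classical.arbitrary _)
      rw [h0] at this
      simp at this
      linarith
    by_cases a1 : ∃ m, ∃ σ : K →+* ℂ, ‖σ ((q m c : 𝓞 K) : K)‖ ≤ R₂
    · exact Or.inl (Or.inl (Or.inl (Or.inl (Or.inr ⟨a', a1⟩))))
    have hq : ∀ m, q m c ≠ 0 := by
      intro m h0
      apply a1
      refine ⟨m, Classical.arbitrary _, ?_⟩
      rw [h0]
      simp
      linarith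
    by_cases a2 : ∃ i j, i ≠ j ∧ ∃ I : Ideal (𝓞 K), Y ≤ Ideal.absNorm I ∧ c i ∈ I ∧ c j ∈ I
    · exact Or.inl (Or.inl (Or.inl (Or.inr ⟨hnz, a2⟩)))
    by_cases a3 : ∃ i j, i ≠ j ∧ (c i ^ 2 = c j ^ 2 ∨ c i ^ 2 = -c j ^ 2)
    · exact Or.inr (Or.inl a3)
    rcases hexc with h1 | h1 | h1 | h1 | h1 | h1 | h1
    · exact absurd h1 a
    · exact absurd h1 a1
    · exact absurd h1 a2
    · exact Or.inl (Or.inl (Or.inr ⟨hnz, hq, h1⟩))
    · exact Or.inl (Or.inr ⟨hnz, a2, a3, h1⟩)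
    · exact absurd h1 a3
    · exact Or.inr (Or.inr h1)
  · have e2 := hBX 2 (by norm_num)
    have e3 := hBX 3 le_rfl
    have hb0 : 0 ≤ b ^ 3 := by positivity
    have hXH : 1 ≤ X / H := by rwa [le_div_iff₀ hH0, one_mul]
    set t1 : ℝ := R₁ / H with ht1
    set t2 : ℝ := R₂ / (R₁ * H) with ht2
    set t3 : ℝ := h / Y with ht3
    set t4 : ℝ := h / H with ht4
    set t5 : ℝ := e / X with ht5
    have p1 : 0 ≤ t1 := by positivity
    have p2 : 0 ≤ t2 := by positivity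
    have p3 : 0 ≤ t3 := by positivity
    have p4 : 0 ≤ t4 := by positivity
    have p5 : 0 ≤ t5 := by positivity
    have u1 : 4 * (((box K H).card : ℝ) ^ 3 * (CA * X * (R₁ / H))) ≤
        b ^ 3 * X ^ 4 * (4 * CA * t1) := by
      have := mul_le_mul_of_nonneg_right e3 (show 0 ≤ CA * X * (R₁ / H) by positivity)
      calc 4 * (((box K H).card : ℝ) ^ 3 * (CA * X * (R₁ / H))) ≤
          4 * (b ^ 3 * X ^ 3 * (CA * X * (R₁ / H))) := by linarith
        _ = _ := by rw [ht1]; ring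
    have u2 : 6 * (((box K H).card : ℝ) ^ 3 * (CB * X * (R₂ / R₁ / H))) ≤
        b ^ 3 * X ^ 4 * (6 * CB * t2) := by
      have := mul_le_mul_of_nonneg_right e3 (show 0 ≤ CB * X * (R₂ / R₁ / H) by positivity)
      calc 6 * (((box K H).card : ℝ) ^ 3 * (CB * X * (R₂ / R₁ / H))) ≤
          6 * (b ^ 3 * X ^ 3 * (CB * X * (R₂ / R₁ / H))) := by linarith
        _ = _ := by rw [ht2, div_div]; ring
    have u3 : 16 * (((box K H).card : ℝ) ^ 2 * (CC * X ^ 2 / Y)) ≤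
        b ^ 3 * X ^ 4 * (16 * CC * t3) := by
      have := mul_le_mul_of_nonneg_right e2 (show 0 ≤ CC * X ^ 2 / Y by positivity)
      calc 16 * (((box K H).card : ℝ) ^ 2 * (CC * X ^ 2 / Y)) ≤
          16 * (b ^ 3 * X ^ 2 * (CC * X ^ 2 / Y)) := by linarith
        _ = b ^ 3 * X ^ 4 * (16 * CC * (1 / Y)) := by ring
        _ ≤ _ := by
          have : 1 / Y ≤ t3 := div_le_div_of_nonneg_right hh1 hY0.le
          gcongr
    have u4 : 6 * (((box K H).card : ℝ) ^ 2 * (CD * X ^ 2 / Y * h)) ≤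
        b ^ 3 * X ^ 4 * (6 * CD * t3) := by
      have := mul_le_mul_of_nonneg_right e2 (show 0 ≤ CD * X ^ 2 / Y * h by positivity)
      calc 6 * (((box K H).card : ℝ) ^ 2 * (CD * X ^ 2 / Y * h)) ≤
          6 * (b ^ 3 * X ^ 2 * (CD * X ^ 2 / Y * h)) := by linarith
        _ = _ := by rw [ht3]; ring
    have u5 : 24 * (((box K H).card : ℝ) ^ 3 * (CE * h * (1 + CE * X / Y ^ 2))) ≤
        b ^ 3 * X ^ 4 * (24 * CE ^ 2 * (t3 + t4)) := by
      have h1 : CE * h * (1 + CE * X / Y ^ 2) ≤ X * (CE ^ 2 * (t3 + t4)) := by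
        have h2 : 1 ≤ CE * (X / H) := one_le_mul_of_one_le_of_one_le hCE hXH
        have h3 : CE * X / Y ^ 2 ≤ CE * X / Y := by
          refine div_le_div_of_nonneg_left (by positivity) hY0 ?_
          nlinarith
        calc CE * h * (1 + CE * X / Y ^ 2) ≤ CE * h * (CE * (X / H) + CE * X / Y) := by
              gcongr
          _ = _ := by rw [ht3, ht4]; ring
      have h4 : 0 ≤ CE * h * (1 + CE * X / Y ^ 2) := by positivity
      calc 24 * (((box K H).card : ℝ) ^ 3 * (CE * h * (1 + CE * X / Y ^ 2))) ≤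
          24 * (b ^ 3 * X ^ 3 * (X * (CE ^ 2 * (t3 + t4)))) := by
            gcongr
        _ = _ := by ring
    have u6 : 16 * (((box K H).card : ℝ) ^ 3 * 4) ≤ b ^ 3 * X ^ 4 * (64 * t4) := by
      have h1 : 1 ≤ X * t4 := by
        have : X * t4 = X / H * h := by rw [ht4]; ring
        rw [this]
        exact one_le_mul_of_one_le_of_one_le hXH hh1
      calc 16 * (((box K H).card : ℝ) ^ 3 * 4) ≤ 16 * (b ^ 3 * X ^ 3 * 4) := by linarith
        _ = 64 * (b ^ 3 * X ^ 3) * 1 := by ring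
        _ ≤ 64 * (b ^ 3 * X ^ 3) * (X * t4) := by gcongr
        _ = _ := by ring
    have u7 : e * (8 * ((box K H).card : ℝ) ^ 3) ≤ b ^ 3 * X ^ 4 * (8 * t5) := by
      have h1 : e = X * t5 := by
        rw [ht5, mul_div_cancel₀]
        positivity
      calc e * (8 * ((box K H).card : ℝ) ^ 3) ≤ (X * t5) * (8 * (b ^ 3 * X ^ 3)) := by
            rw [← h1]
            exact mul_le_mul_of_nonneg_left (by linarith) he0
        _ = _ := by ring
    have c0 : 0 ≤ CE ^ 2 := sq_nonneg _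
    have c1 : 0 ≤ CA := by linarith
    have c2 : 0 ≤ CB := by linarith
    have c3 : 0 ≤ CC := by linarith
    have c4 : 0 ≤ CD := by linarith
    set U : ℝ := t1 + t2 + t3 + t4 + t5 with hU
    have v1 : 4 * CA * t1 ≤ 4 * CA * U := mul_le_mul_of_nonneg_left (by linarith) (by linarith)
    have v2 : 6 * CB * t2 ≤ 6 * CB * U := mul_le_mul_of_nonneg_left (by linarith) (by linarith)
    have v3 : 16 * CC * t3 ≤ 16 * CC * U :=
      mul_le_mul_of_nonneg_left (by linarith) (by linarith)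
    have v4 : 6 * CD * t3 ≤ 6 * CD * U := mul_le_mul_of_nonneg_left (by linarith) (by linarith)
    have v5 : 24 * CE ^ 2 * (t3 + t4) ≤ 24 * CE ^ 2 * U :=
      mul_le_mul_of_nonneg_left (by linarith) (by linarith)
    have hfin : 4 * CA * t1 + 6 * CB * t2 + 16 * CC * t3 + 6 * CD * t3 +
        24 * CE ^ 2 * (t3 + t4) + 64 * t4 + 8 * t5 ≤
        (4 * CA + 6 * CB + 16 * CC + 6 * CD + 24 * CE ^ 2 + 72) * U := by
      linarith
    have hbX : 0 ≤ b ^ 3 * X ^ 4 := by positivity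
    have h9 := mul_le_mul_of_nonneg_left hfin hbX
    have h10 : b ^ 3 * X ^ 4 * (4 * CA * t1 + 6 * CB * t2 + 16 * CC * t3 + 6 * CD * t3 +
        24 * CE ^ 2 * (t3 + t4) + 64 * t4 + 8 * t5) = b ^ 3 * X ^ 4 * (4 * CA * t1) +
        b ^ 3 * X ^ 4 * (6 * CB * t2) + b ^ 3 * X ^ 4 * (16 * CC * t3) +
        b ^ 3 * X ^ 4 * (6 * CD * t3) + b ^ 3 * X ^ 4 * (24 * CE ^ 2 * (t3 + t4)) +
        b ^ 3 * X ^ 4 * (64 * t4) + b ^ 3 * X ^ 4 * (8 * t5) := by ring
    have h11 : b ^ 3 * (4 * CA + 6 * CB + 16 * CC + 6 * CD + 24 * CE ^ 2 + 72) * X ^ 4 * U =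
        b ^ 3 * X ^ 4 * ((4 * CA + 6 * CB + 16 * CC + 6 * CD + 24 * CE ^ 2 + 72) * U) := by ring
    rw [h11]
    rw [h10] at h9
    linarith

end Pool.Agent.H433.TH
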