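import Pool.Agent.H433.TH.Div

/-!
Counting vectors by fibres; products and shifted small conjugates in boxes.
-/

set_option autoImplicit false
set_option linter.unusedSectionVars false

open NumberField IsDedekindDomain Finset

namespace Pool.Agent.H433.TH

open Pool.Agent.H433.AC

variable {K : Type} [Field K] [NumberField K]

theorem fiber1 (B : Finset (𝓞 K)) (S : Finset (Fin 4 → 𝓞 K)) (i : Fin 4) (N : ℝ) (hN0 : 0 ≤ N)
    (hS : ∀ a ∈ S, ∀ l, a l ∈ B)
    (hN : ∀ a ∈ S, ∀ T : Finset (𝓞 K), (∀ x ∈ T, Function.update a i x ∈ S) → (T.card : ℝ) ≤ N) :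
    (S.card : ℝ) ≤ (B.card : ℝ) ^ 3 * N := by
  classical
  set f : (Fin 4 → 𝓞 K) → (Fin 4 → 𝓞 K) := fun a => Function.update a i 0 with hf
  have h1 : (S.image f).card ≤ B.card ^ 3 := by
    have h2 : S.image f ⊆ Fintype.piFinset fun l : Fin 4 =>
        if l = i then ({0} : Finset (𝓞 K)) else B := by
      intro b hb
      obtain ⟨a, ha, rfl⟩ := mem_image.1 hb
      rw [Fintype.mem_piFinset]
      intro l
      rw [hf]
      by_cases h : l = i
      · subst h
        simp
      · simp [h, hS a ha l]
    refine (card_le_card h2).trans (le_of_eq ?_)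
    rw [Fintype.card_piFinset]
    have h4 : ∀ l : Fin 4, (if l = i then ({0} : Finset (𝓞 K)) else B).card =
        if l = i then 1 else B.card := by
      intro l
      split_ifs
      · exact card_singleton _
      · rfl
    simp only [h4]
    rw [prod_ite, prod_const_one, one_mul, prod_const]
    congr 1
    rw [filter_ne', card_erase_of_mem (mem_univ _), card_univ, Fintype.card_fin]
  have h2 : (S.card : ℝ) = ∑ b ∈ S.image f, ((S.filter fun a => f a = b).card : ℝ) := by
    exact_mod_cast card_eq_sum_card_image f S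
  rw [h2]
  refine (sum_le_card_nsmul _ _ N fun b hb => ?_).trans ?_
  · obtain ⟨a0, ha0, rfl⟩ := mem_image.1 hb
    have hup (a : Fin 4 → 𝓞 K) (h : f a = f a0) : Function.update a0 i (a i) = a := by
      funext l
      by_cases hl : l = i
      · subst hl
        simp
      · have := congrFun h l
        simp only [hf, Function.update_of_ne hl] at this
        rw [Function.update_of_ne hl, this]
    have h3 : ((S.filter fun a => f a = f a0).image fun a => a i).card =
        (S.filter fun a => f a = f a0).card := by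
      refine card_image_of_injOn fun a ha b hb h => ?_
      rw [mem_coe, mem_filter] at ha hb
      have h' : a i = b i := h
      rw [← hup a ha.2, ← hup b hb.2, h']
    rw [← h3]
    refine hN a0 ha0 _ fun x hx => ?_
    obtain ⟨a, ha, rfl⟩ := mem_image.1 hx
    rw [mem_filter] at ha
    rw [hup a ha.2]
    exact ha.1
  · rw [nsmul_eq_mul]
    refine mul_le_mul_of_nonneg_right ?_ hN0
    exact_mod_cast h1

theorem card_ne2 (i j : Fin 4) (h : i ≠ j) :
    (univ.filter fun x : Fin 4 => ¬ (x = i ∨ x = j)).card = 2 := by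
  revert i j
  decide

theorem fiber2 (B : Finset (𝓞 K)) (S : Finset (Fin 4 → 𝓞 K)) (i j : Fin 4) (hij : i ≠ j)
    (N : ℝ) (hN0 : 0 ≤ N) (hS : ∀ a ∈ S, ∀ l, a l ∈ B)
    (hN : ∀ a ∈ S, ∀ T : Finset (𝓞 K × 𝓞 K),
      (∀ x ∈ T, Function.update (Function.update a i x.1) j x.2 ∈ S) → (T.card : ℝ) ≤ N) :
    (S.card : ℝ) ≤ (B.card : ℝ) ^ 2 * N := by
  classical
  set f : (Fin 4 → 𝓞 K) → (Fin 4 → 𝓞 K) := fun a =>
    Function.update (Function.update a i 0) j 0 with hf
  have h1 : (S.image f).card ≤ B.card ^ 2 := by
    have h2 : S.image f ⊆ Fintype.piFinset fun l : Fin 4 =>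
        if l = i ∨ l = j then ({0} : Finset (𝓞 K)) else B := by
      intro b hb
      obtain ⟨a, ha, rfl⟩ := mem_image.1 hb
      rw [Fintype.mem_piFinset]
      intro l
      rw [hf]
      by_cases h : l = j
      · subst h
        simp
      · by_cases h' : l = i
        · subst h'
          simp [h]
        · simp [h, h', hS a ha l]
    refine (card_le_card h2).trans (le_of_eq ?_)
    rw [Fintype.card_piFinset]
    have h4 : ∀ l : Fin 4, (if l = i ∨ l = j then ({0} : Finset (𝓞 K)) else B).card =
        if l = i ∨ l = j then 1 else B.card := by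
      intro l
      split_ifs
      · exact card_singleton _
      · rfl
    simp only [h4]
    rw [prod_ite, prod_const_one, one_mul, prod_const]
    rw [card_ne2 i j hij]
  have h2 : (S.card : ℝ) = ∑ b ∈ S.image f, ((S.filter fun a => f a = b).card : ℝ) := by
    exact_mod_cast card_eq_sum_card_image f S
  rw [h2]
  refine (sum_le_card_nsmul _ _ N fun b hb => ?_).trans ?_
  · obtain ⟨a0, ha0, rfl⟩ := mem_image.1 hb
    have hup (a : Fin 4 → 𝓞 K) (h : f a = f a0) :
        Function.update (Function.update a0 i (a i)) j (a j) = a := by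
      funext l
      by_cases hl : l = j
      · subst hl
        simp
      · rw [Function.update_of_ne hl]
        by_cases hl' : l = i
        · subst hl'
          simp
        · have := congrFun h l
          simp only [hf, Function.update_of_ne hl, Function.update_of_ne hl'] at this
          rw [Function.update_of_ne hl', this]
    have h3 : ((S.filter fun a => f a = f a0).image fun a => (a i, a j)).card =
        (S.filter fun a => f a = f a0).card := by
      refine card_image_of_injOn fun a ha b hb h => ?_
      rw [mem_coe, mem_filter] at ha hb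
      rw [← hup a ha.2, ← hup b hb.2]
      simp only [Prod.mk.injEq] at h
      rw [h.1, h.2]
    rw [← h3]
    refine hN a0 ha0 _ fun x hx => ?_
    obtain ⟨a, ha, rfl⟩ := mem_image.1 hx
    rw [mem_filter] at ha
    simp only
    rw [hup a ha.2]
    exact ha.1
  · rw [nsmul_eq_mul]
    refine mul_le_mul_of_nonneg_right ?_ hN0
    exact_mod_cast h1

theorem box_mono {H H' : ℕ} (h : H ≤ H') {x : 𝓞 K} (hx : x ∈ box K H) : x ∈ box K H' := by
  rw [mem_box] at *
  intro i
  exact (hx i).trans (by exact_mod_cast h)

theorem add_mem_box {a b : ℕ} {x y : 𝓞 K} (hx : x ∈ box K a) (hy : y ∈ box K b) :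
    x + y ∈ box K (a + b) := by
  rw [mem_box] at *
  intro i
  have h1 := hx i
  have h2 := hy i
  rw [map_add, Finsupp.add_apply]
  have h3 := abs_add_le (((RingOfIntegers.basis K).repr x) i) (((RingOfIntegers.basis K).repr y) i)
  push_cast
  linarith

theorem neg_mem_box {a : ℕ} {x : 𝓞 K} (hx : x ∈ box K a) : -x ∈ box K a := by
  rw [mem_box] at *
  intro i
  rw [map_neg, Finsupp.neg_apply, abs_neg]
  exact hx i

/-- elements with small conjugates have small coordinates -/
theorem mem_box_of_conj (K : Type) [Field K] [NumberField K] : ∃ C : ℝ, 1 ≤ C ∧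
    ∀ (x : 𝓞 K) (R : ℝ) (H : ℕ), (∀ σ : K →+* ℂ, ‖σ (x : K)‖ ≤ R) → C * R ≤ H →
      x ∈ box K H := by
  classical
  set b := RingOfIntegers.basis K with hb
  -- the coordinates are linear functions of the canonical embedding
  set e := canonicalEmbedding.latticeBasis K with he
  have hbd (i : Module.Free.ChooseBasisIndex ℤ (𝓞 K)) :
      ∃ M : ℝ, 0 ≤ M ∧ ∀ z : (K →+* ℂ) → ℂ, ‖e.repr z i‖ ≤ M * ‖z‖ := by
    refine ⟨‖LinearMap.toContinuousLinearMap (e.coord i)‖,
      ContinuousLinearMap.opNorm_nonneg _, fun z => ?_⟩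
    have := (LinearMap.toContinuousLinearMap (e.coord i)).le_opNorm z
    simpa using this
  choose M hM0 hM using hbd
  refine ⟨1 + ∑ i, M i, ?_, fun x R H hx hR => ?_⟩
  · have : 0 ≤ ∑ i, M i := sum_nonneg fun i _ => hM0 i
    linarith
  have hR0 : 0 ≤ R := (norm_nonneg _).trans (hx (Classical.arbitrary _))
  rw [mem_box]
  intro i
  have h1 : ((((RingOfIntegers.basis K).repr x i : ℤ) : ℝ) : ℂ) =
      e.repr (canonicalEmbedding K (x : K)) i := by
    have h2 : canonicalEmbedding K (x : K) =
        ∑ j, (((RingOfIntegers.basis K).repr x j : ℤ) : ℂ) • e j := by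
      have h3 : (x : K) = ∑ j, ((RingOfIntegers.basis K).repr x j : ℤ) •
          ((RingOfIntegers.basis K j : 𝓞 K) : K) := by
        conv_lhs => rw [← (RingOfIntegers.basis K).sum_repr x]
        push_cast
        simp
      conv_lhs => rw [h3]
      rw [map_sum]
      refine sum_congr rfl fun j _ => ?_
      rw [map_zsmul, he, canonicalEmbedding.latticeBasis_apply, integralBasis_apply]
      funext σ
      simp
    rw [h2, map_sum, Finsupp.finsetSum_apply]
    simp only [map_smul, Finsupp.smul_apply, Module.Basis.repr_self, smul_eq_mul]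
    rw [sum_eq_single i]
    · simp
    · intro j _ hj
      simp [Finsupp.single_eq_of_ne hj.symm]
    · intro h
      exact absurd (mem_univ i) h
  have h4 : ‖e.repr (canonicalEmbedding K (x : K)) i‖ ≤ M i * R := by
    refine (hM i _).trans (mul_le_mul_of_nonneg_left ?_ (hM0 i))
    rw [pi_norm_le_iff_of_nonneg hR0]
    exact hx
  rw [← h1] at h4
  have h5 : |(((RingOfIntegers.basis K).repr x i : ℤ) : ℝ)| ≤ M i * R := by
    simpa using h4
  have h6 : M i * R ≤ H := by
    refine le_trans (mul_le_mul_of_nonneg_right ?_ hR0) hR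
    have := single_le_sum (f := M) (fun i _ => hM0 i) (mem_univ i)
    linarith
  exact_mod_cast h5.trans h6

end Pool.Agent.H433.TH
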