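import Pool.Agent.H433.TH.Bad

/-!
The double of a point of the Kummer surface has a large height.
-/

set_option autoImplicit false
set_option linter.unusedSectionVars false

open NumberField IsDedekindDomain Finset

namespace Pool.Agent.H433.TH

open Pool.Agent.H433.AC

section alg

variable {R : Type*} [CommRing R]

theorem rel1 {c y : Fin 4 → R} {s : Fin 6 → R} {e : R} (h : ∀ m, q m c * s m = e * Q m c y) :
    P1 ![(s 0 + s 1) - (s 2 + s 3), s 0 - s 1, s 2 - s 3] c = 0 := by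
  have h0 := h 0
  have h1 := h 1
  have h2 := h 2
  have h3 := h 3
  simp only [q, ja, ka, la, ep, Q, Fin.isValue, Matrix.cons_val_zero, Matrix.cons_val_one,
    Matrix.cons_val, Int.cast_one, Int.cast_neg] at h0 h1 h2 h3
  simp only [P1, Matrix.cons_val_zero, Matrix.cons_val_one, Matrix.cons_val]
  linear_combination (c 2 * c 3 + c 0 * c 1) * h0 + (c 2 * c 3 - c 0 * c 1) * h1 -
    (c 1 * c 3 + c 0 * c 2) * h2 - (c 1 * c 3 - c 0 * c 2) * h3

theorem rel2 {c y : Fin 4 → R} {s : Fin 6 → R} {e : R} (h : ∀ m, q m c * s m = e * Q m c y) :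
    P2 ![(s 0 + s 1) - (s 4 + s 5), s 0 - s 1, s 4 - s 5] c = 0 := by
  have h0 := h 0
  have h1 := h 1
  have h2 := h 4
  have h3 := h 5
  simp only [q, ja, ka, la, ep, Q, Fin.isValue, Matrix.cons_val_zero, Matrix.cons_val_one,
    Matrix.cons_val, Int.cast_one, Int.cast_neg] at h0 h1 h2 h3
  simp only [P2, Matrix.cons_val_zero, Matrix.cons_val_one, Matrix.cons_val]
  linear_combination (c 2 * c 3 + c 0 * c 1) * h0 + (c 2 * c 3 - c 0 * c 1) * h1 -
    (c 1 * c 2 + c 0 * c 3) * h2 - (c 1 * c 2 - c 0 * c 3) * h3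

theorem prop_of [IsDomain R] [CharZero R] {c y : Fin 4 → R} {s : Fin 6 → R} {e : R}
    (hc : ∀ b, c b ≠ 0) (he : e ≠ 0) (h : ∀ m, q m c * s m = e * Q m c y)
    (hT : (![(s 0 + s 1) - (s 2 + s 3), s 0 - s 1, s 2 - s 3] : Fin 3 → R) = 0)
    (hT' : (![(s 0 + s 1) - (s 4 + s 5), s 0 - s 1, s 4 - s 5] : Fin 3 → R) = 0) (i j : Fin 4) :
    y i * c j = y j * c i := by
  have a0 : (s 0 + s 1) - (s 2 + s 3) = 0 := by simpa using congrFun hT 0
  have a1 : s 0 - s 1 = 0 := by simpa using congrFun hT 1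
  have a2 : s 2 - s 3 = 0 := by simpa using congrFun hT 2
  have a3 : (s 0 + s 1) - (s 4 + s 5) = 0 := by simpa using congrFun hT' 0
  have a4 : s 4 - s 5 = 0 := by simpa using congrFun hT' 2
  have two : (2 : R) ≠ 0 := two_ne_zero
  have e1 : s 1 = s 0 := by linear_combination -a1
  have e2 : s 2 = s 0 := mul_left_cancel₀ two (by linear_combination -a0 - a1 + a2)
  have e3 : s 3 = s 0 := mul_left_cancel₀ two (by linear_combination -a0 - a1 - a2)
  have e4 : s 4 = s 0 := mul_left_cancel₀ two (by linear_combination -a3 - a1 + a4)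
  have e5 : s 5 = s 0 := mul_left_cancel₀ two (by linear_combination -a3 - a1 - a4)
  have h0 := h 0
  have h1 := h 1
  have h2 := h 2
  have h3 := h 3
  have h4 := h 4
  have h5 := h 5
  simp only [q, ja, ka, la, ep, Q, Fin.isValue, Matrix.cons_val_zero, Matrix.cons_val_one,
    Matrix.cons_val, Int.cast_one, Int.cast_neg, e1, e2, e3, e4, e5] at h0 h1 h2 h3 h4 h5
  have p01 : e * (c 0 * y 1 + c 1 * y 0) = s 0 * (c 0 * c 1) :=
    mul_left_cancel₀ two (by linear_combination -h0 - h1)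
  have p23 : e * (c 2 * y 3 + c 3 * y 2) = s 0 * (c 2 * c 3) :=
    mul_left_cancel₀ two (by linear_combination -h0 + h1)
  have p02 : e * (c 0 * y 2 + c 2 * y 0) = s 0 * (c 0 * c 2) :=
    mul_left_cancel₀ two (by linear_combination -h2 - h3)
  have p13 : e * (c 1 * y 3 + c 3 * y 1) = s 0 * (c 1 * c 3) :=
    mul_left_cancel₀ two (by linear_combination -h2 + h3)
  have p03 : e * (c 0 * y 3 + c 3 * y 0) = s 0 * (c 0 * c 3) :=
    mul_left_cancel₀ two (by linear_combination -h4 - h5)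
  have p12 : e * (c 1 * y 2 + c 2 * y 1) = s 0 * (c 1 * c 2) :=
    mul_left_cancel₀ two (by linear_combination -h4 + h5)
  have k01 : y 0 * c 1 = y 1 * c 0 := mul_left_cancel₀ (mul_ne_zero he (hc 2)) (by
    linear_combination c 1 * p02 - c 0 * p12)
  have k02 : y 0 * c 2 = y 2 * c 0 := mul_left_cancel₀ (mul_ne_zero he (hc 1)) (by
    linear_combination c 2 * p01 - c 0 * p12)
  have k03 : y 0 * c 3 = y 3 * c 0 := mul_left_cancel₀ (mul_ne_zero he (hc 1)) (by
    linear_combination c 3 * p01 - c 0 * p13)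
  have k12 : y 1 * c 2 = y 2 * c 1 := mul_left_cancel₀ (mul_ne_zero he (hc 0)) (by
    linear_combination c 2 * p01 - c 1 * p02)
  have k13 : y 1 * c 3 = y 3 * c 1 := mul_left_cancel₀ (mul_ne_zero he (hc 0)) (by
    linear_combination c 3 * p01 - c 1 * p03)
  have k23 : y 2 * c 3 = y 3 * c 2 := mul_left_cancel₀ (mul_ne_zero he (hc 0)) (by
    linear_combination c 3 * p02 - c 2 * p03)
  fin_cases i <;> fin_cases j <;> first
    | rfl
    | exact k01
    | exact k02
    | exact k03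
    | exact k12
    | exact k13
    | exact k23
    | exact k01.symm
    | exact k02.symm
    | exact k03.symm
    | exact k12.symm
    | exact k13.symm
    | exact k23.symm

end alg

variable {K : Type} [Field K] [NumberField K]

theorem Z_co (k : Fin 4) (u w : Fin 4 → 𝓞 K) :
    ((Z k u w : 𝓞 K) : K) = Z k (fun i => (u i : K)) (fun i => (w i : K)) := by
  fin_cases k <;> simp [Z]

theorem Q_co (m : Fin 6) (u w : Fin 4 → 𝓞 K) :
    ((Q m u w : 𝓞 K) : K) = Q m (fun i => (u i : K)) (fun i => (w i : K)) := by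
  fin_cases m <;> simp [Q]

theorem two_co (e s : Fin 4) (c : Fin 4 → 𝓞 K) (j : Fin 4) :
    ((two e s c j : 𝓞 K) : K) = two e s (fun i => (c i : K)) j := by
  fin_cases e <;> fin_cases s <;> fin_cases j <;> simp [two]

theorem le_of_simple {v : HeightOneSpectrum (𝓞 K)} {a : 𝓞 K} (h2 : a ∉ v.asIdeal ^ 2)
    {y : K} (hy : v.valuation K y < 1) : v.valuation K y ≤ v.valuation K (a : K) := by
  have ha : a ≠ 0 := by
    rintro rfl
    exact h2 (Ideal.zero_mem _)
  rcases eq_or_ne (v.valuation K y) 0 with h0 | h0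
  · rw [h0]
    exact zero_le
  have h3 : v.valuation K (a : K) = v.intValuation a :=
    HeightOneSpectrum.valuation_of_algebraMap _ _
  have h4 : v.intValuation a ≠ 0 := v.intValuation_ne_zero a ha
  have h5 : ¬ v.intValuation a ≤ WithZero.exp (-(2 : ℕ) : ℤ) := by
    rw [v.intValuation_le_pow_iff_mem]
    exact h2
  rw [← WithZero.log_le_iff_le_exp h4, not_le] at h5
  rw [← WithZero.exp_zero, ← WithZero.log_lt_iff_lt_exp h0] at hy
  rw [h3, ← WithZero.log_le_log h0 h4]
  push_cast at h5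
  omega

/-- the values of the forms at the double of a point are divisible by the theta constants -/
theorem Q_mem {c : Fin 4 → 𝓞 K} (hc : Theta fun i => (c i : K)) {x : Fin 4 → K}
    (hx : Kummer (fun i => (c i : K)) x) {t : K} {y : Fin 4 → 𝓞 K}
    (hy : ∀ i, (y i : K) = t * dbl (fun i => (c i : K)) x i) (m : Fin 6)
    (v : HeightOneSpectrum (𝓞 K)) (h2 : (2 : 𝓞 K) ∉ v.asIdeal) (hb : ∀ b, c b ∉ v.asIdeal)
    (hk : ∀ k, Z k c c ∉ v.asIdeal) (hq : q m c ∈ v.asIdeal) (hq2 : q m c ∉ v.asIdeal ^ 2) :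
    Q m c y ∈ v.asIdeal := by
  set w := v.valuation K with hw
  have e2' : w ((2 : 𝓞 K) : K) = 1 := (v.valuation_eq_one_iff_notMem (K := K) (r := 2)).2 h2
  have e2 : w 2 = 1 := by
    rw [← e2']
    congr 1
  have eb (b : Fin 4) : w (c b : K) = 1 := (v.valuation_eq_one_iff_notMem (K := K)).2 (hb b)
  have ek (k : Fin 4) : w (Z k (fun i => (c i : K)) (fun i => (c i : K))) = 1 := by
    rw [← Z_co]
    exact (v.valuation_eq_one_iff_notMem (K := K)).2 (hk k)
  have eq : w (Q m (fun i => (c i : K)) (fun i => (c i : K))) = w ((q m c : 𝓞 K) : K) := by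
    have h : ((2 * q m c : 𝓞 K) : K) = ((2 : 𝓞 K) : K) * ((q m c : 𝓞 K) : K) := by
      simp
    rw [← Q_co, Q_q, h, map_mul, e2', one_mul]
  have e3 : w ((q m c : 𝓞 K) : K) < 1 := (v.valuation_lt_one_iff_mem (K := K) _).2 hq
  have hm0 := hc.2.2 m
  rw [← v.valuation_lt_one_iff_mem (K := K)]
  have e4 : ((Q m c y : 𝓞 K) : K) = Q m (fun i => (c i : K)) (t • dbl (fun i => (c i : K)) x) := by
    rw [Q_co]
    congr 1
    funext i
    rw [hy]
    rfl
  show w ((Q m c y : 𝓞 K) : K) < 1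
  rw [e4]
  refine dbl_simple (w := w) e2 eb ek (by rw [eq]; exact e3) (fun y hy => ?_) hm0 hx fun b => ?_
  · rw [eq]
    exact le_of_simple hq2 hy
  · rw [← hy]
    exact v.valuation_le_one _

end Pool.Agent.H433.TH
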