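import Pool.Agent.H433.TH.Key

/-!
The double of a point of the Kummer surface has a large height.
-/

set_option autoImplicit false
set_option linter.unusedSectionVars false

open NumberField IsDedekindDomain Finset

namespace Pool.Agent.H433.TH

open Pool.Agent.H433.AC

variable {K : Type} [Field K] [NumberField K]

theorem exists_e {Y R₁ R₂ : ℝ} {E : ℕ} (hY : 1 ≤ Y) (hR₂ : 0 ≤ R₂) {c : Fin 4 → 𝓞 K}
    (hc : ¬ Exc Y R₁ R₂ E c) (m : Fin 6) : ∃ e : ℕ, e ≠ 0 ∧
      (e : ℝ) ≤ 2 ^ Module.finrank ℚ K * Y ^ 27 ∧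
      ∀ z : 𝓞 K, (∀ v : HeightOneSpectrum (𝓞 K), (2 : 𝓞 K) ∉ v.asIdeal →
        (∀ b, c b ∉ v.asIdeal) → (∀ k, Z k c c ∉ v.asIdeal) → q m c ∈ v.asIdeal →
        q m c ∉ v.asIdeal ^ 2 → z ∈ v.asIdeal) → q m c ∣ (e : 𝓞 K) * z := by
  set d := Module.finrank ℚ K with hd
  have hx : q m c ≠ 0 := by
    intro h0
    apply hc
    refine Or.inr (Or.inl ⟨m, Classical.arbitrary _, ?_⟩)
    rw [h0]
    simpa using hR₂
  have h := bad_part (univ : Finset (Option (Fin 4 ⊕ Fin 4))) hx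
    (fun τ => Option.elim τ 2 (Sum.elim c fun k => Z k c c))
    (fun τ => Option.elim τ (2 ^ d) (Sum.elim (fun _ => Y ^ 2) fun _ => Y ^ 4)) hY
    (fun τ _ I h1 h2 => ?_) (fun I hI => ?_)
  · obtain ⟨e, he, hb, h⟩ := h
    refine ⟨e, he, hb.trans (le_of_eq ?_), fun z hz => h z fun v h1 h2 h3 => ?_⟩
    · rw [Fintype.prod_option, Fintype.prod_sum_type]
      simp only [Option.elim_none, Option.elim_some, Sum.elim_inl, Sum.elim_inr, prod_const,
        card_univ, Fintype.card_fin]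
      ring
    · exact hz v (h3 none (mem_univ _)) (fun b => h3 (some (Sum.inl b)) (mem_univ _))
        (fun k => h3 (some (Sum.inr k)) (mem_univ _)) h1 h2
  · rcases τ with _ | b | k
    · simp only [Option.elim_none] at h2 ⊢
      have h3 : Ideal.absNorm I ∣ 2 ^ d := by
        have h4 : Ideal.span {(2 : 𝓞 K)} ≤ I := by
          rw [Ideal.span_singleton_le_iff_mem]
          exact h2
        have h5 := Ideal.absNorm_dvd_absNorm_of_le h4
        have h6 : Ideal.absNorm (Ideal.span {(2 : 𝓞 K)}) = 2 ^ d := by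
          have h7 : ((Ideal.absNorm (Ideal.span {(2 : 𝓞 K)}) : ℕ) : ℝ) = 2 ^ d := by
            have h8 := Nm_emb (2 : 𝓞 K)
            unfold Nm at h8
            rw [h8, hd, ← Embeddings.card K ℂ, ← card_univ, ← prod_const]
            refine prod_congr rfl fun σ _ => ?_
            have h9 : ((2 : 𝓞 K) : K) = 2 := map_ofNat (algebraMap (𝓞 K) K) 2
            rw [h9, map_ofNat]
            norm_num
          exact_mod_cast h7
        rwa [h6] at h5
      exact_mod_cast Nat.le_of_dvd (by positivity) h3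
    · simp only [Option.elim_some, Sum.elim_inl] at h2 ⊢
      by_contra hcon
      rw [not_le] at hcon
      exact hc (Or.inr (Or.inr (Or.inl (two_coord hY h1 h2 hcon.le))))
    · simp only [Option.elim_some, Sum.elim_inr] at h2 ⊢
      by_contra hcon
      rw [not_le] at hcon
      exact hc (Or.inr (Or.inr (Or.inr (Or.inr (Or.inl ⟨m, k, I, hcon.le, h1, h2⟩)))))
  · by_contra hcon
    rw [not_le] at hcon
    exact hc (Or.inr (Or.inr (Or.inr (Or.inl ⟨m, I, hcon.le, hI⟩))))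

theorem norm_Q_le {σ : K →+* ℂ} {c y : Fin 4 → 𝓞 K} {A B : ℝ} (hA : ∀ i, ‖σ (c i : K)‖ ≤ A)
    (hB : ∀ i, ‖σ (y i : K)‖ ≤ B) (m : Fin 6) : ‖σ ((Q m c y : 𝓞 K) : K)‖ ≤ 4 * (A * B) := by
  have hA0 : 0 ≤ A := (norm_nonneg _).trans (hA 0)
  have h (i j : Fin 4) : ‖σ (c i : K) * σ (y j : K)‖ ≤ A * B := by
    rw [norm_mul]
    exact mul_le_mul (hA i) (hB j) (norm_nonneg _) hA0
  have h4 (a b c d : ℂ) : ‖a + b + (c + d)‖ ≤ ‖a‖ + ‖b‖ + (‖c‖ + ‖d‖) :=
    (norm_add_le _ _).trans (add_le_add (norm_add_le _ _) (norm_add_le _ _))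
  have h5 (a b c d : ℂ) : ‖a + b - (c + d)‖ ≤ ‖a‖ + ‖b‖ + (‖c‖ + ‖d‖) :=
    (norm_sub_le _ _).trans (add_le_add (norm_add_le _ _) (norm_add_le _ _))
  have g := h 0 1
  have g1 := h 1 0
  have g2 := h 2 3
  have g3 := h 3 2
  have g4 := h 0 2
  have g5 := h 2 0
  have g6 := h 1 3
  have g7 := h 3 1
  have g8 := h 0 3
  have g9 := h 3 0
  have g10 := h 1 2
  have g11 := h 2 1
  rw [Q_co]
  fin_cases m <;> simp only [Q, Fin.zero_eta, Fin.mk_one, Fin.reduceFinMk, Matrix.cons_val_zero,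
    Matrix.cons_val_one, Matrix.cons_val, map_add, map_sub, map_mul]
  · exact (h4 _ _ _ _).trans (by linarith)
  · exact (h5 _ _ _ _).trans (by linarith)
  · exact (h4 _ _ _ _).trans (by linarith)
  · exact (h5 _ _ _ _).trans (by linarith)
  · exact (h4 _ _ _ _).trans (by linarith)
  · exact (h5 _ _ _ _).trans (by linarith)

/-- If `c` is not exceptional, then the height of the double of a point of the Kummer surface,
which is not a point of order two, is large. -/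
theorem key (K : Type) [Field K] [NumberField K] : ∃ C : ℝ, 1 ≤ C ∧ ∀ H : ℕ,
    ∀ (Y R₁ R₂ : ℝ) (E : ℕ), 1 ≤ Y → 0 < R₂ → ∀ c : Fin 4 → 𝓞 K, (∀ l, c l ∈ box K H) →
      ¬ Exc Y R₁ R₂ E c → (Theta fun i => (c i : K)) → ∀ x : Fin 4 → K,
      Kummer (fun i => (c i : K)) x →
      ¬ Prop2 (dbl (fun i => (c i : K)) x) (fun i => (c i : K)) →
      (E : ℝ) ≤ C * Y ^ 162 * H *
        Height.mulHeight (dbl (fun i => (c i : K)) x) ^ ((Module.finrank ℚ K : ℝ)⁻¹) / R₂ := by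
  obtain ⟨C₀, hC₀, hsz⟩ := box_size K
  obtain ⟨C₁, hC₁, hbx⟩ := mem_box_of_conj K
  obtain ⟨C₂, hC₂, hrep⟩ := exists_rep K
  set d := Module.finrank ℚ K with hd
  refine ⟨C₁ * (16 * (2 ^ d) ^ 6 * C₀ * C₂), ?_, fun H Y R₁ R₂ E hY hR₂ c hcB hc hT x hx hne => ?_⟩
  · have h1 : (1 : ℝ) ≤ (2 ^ d) ^ 6 := one_le_pow₀ (one_le_pow₀ (by norm_num))
    have h2 : (1 : ℝ) ≤ 16 * (2 ^ d) ^ 6 := by linarith
    exact one_le_mul_of_one_le_of_one_le hC₁ (one_le_mul_of_one_le_of_one_le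
      (one_le_mul_of_one_le_of_one_le h2 hC₀) hC₂)
  set cK : Fin 4 → K := fun i => (c i : K) with hcK
  have hX : dbl cK x ≠ 0 := dbl_ne hT.1 hT.2.1 hx.1
  obtain ⟨t, y, ht0, hy, hyσ⟩ := hrep _ hX
  set h := Height.mulHeight (dbl cK x) ^ ((d : ℝ)⁻¹) with hh
  choose e he0 heb hez using exists_e hY hR₂.le hc
  set e' : ℕ := ∏ m, e m with he'
  have he'0 : e' ≠ 0 := prod_ne_zero_iff.2 fun m _ => he0 m
  have he'b : (e' : ℝ) ≤ (2 ^ d) ^ 6 * Y ^ 162 := by
    rw [he']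
    push_cast
    refine (prod_le_prod (fun m _ => Nat.cast_nonneg _) fun m _ => heb m).trans (le_of_eq ?_)
    rw [prod_const, card_univ, Fintype.card_fin]
    ring
  have hdiv (m : Fin 6) : ∃ s : 𝓞 K, q m c * s = (e' : 𝓞 K) * Q m c y := by
    obtain ⟨s, hs⟩ := hez m (Q m c y) fun v h2 hb hk hq hq2 =>
      Q_mem hT hx hy m v h2 hb hk hq hq2
    obtain ⟨u, hu⟩ := dvd_prod_of_mem e (mem_univ m)
    refine ⟨u * s, ?_⟩
    have h3 : (e' : 𝓞 K) = (e m : 𝓞 K) * u := by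
      rw [he', hu]
      push_cast
      rfl
    rw [h3]
    linear_combination -(u : 𝓞 K) * hs
  choose s hs using hdiv
  have hh0 : 0 ≤ h := Real.rpow_nonneg (zero_le_one.trans (Height.one_le_mulHeight _)) _
  set B : ℝ := (2 ^ d) ^ 6 * Y ^ 162 * (4 * (C₀ * H * (C₂ * h))) / R₂ with hB
  have hY0 : 0 < Y := by linarith
  have hB0 : 0 ≤ B := by positivity
  have hsB (σ : K →+* ℂ) (m : Fin 6) : ‖σ (s m : K)‖ ≤ B := by
    have h1 : R₂ < ‖σ ((q m c : 𝓞 K) : K)‖ := by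
      by_contra hcon
      rw [not_lt] at hcon
      exact hc (Or.inr (Or.inl ⟨m, σ, hcon⟩))
    have h2 : ‖σ ((q m c : 𝓞 K) : K)‖ * ‖σ (s m : K)‖ =
        e' * ‖σ ((Q m c y : 𝓞 K) : K)‖ := by
      have h3 := congrArg (fun z : 𝓞 K => ‖σ (z : K)‖) (hs m)
      simpa using h3
    have h4 := norm_Q_le (σ := σ) (fun i => hsz H _ (hcB i) σ) (fun i => hyσ σ i) m
    rw [hB, le_div_iff₀ hR₂]
    calc ‖σ (s m : K)‖ * R₂ ≤ ‖σ (s m : K)‖ * ‖σ ((q m c : 𝓞 K) : K)‖ :=
          mul_le_mul_of_nonneg_left h1.le (norm_nonneg _)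
      _ = e' * ‖σ ((Q m c y : 𝓞 K) : K)‖ := by rw [mul_comm, h2]
      _ ≤ _ := mul_le_mul he'b h4 (norm_nonneg _) (by positivity)
  by_contra hcon
  rw [not_le] at hcon
  have hbig : C₁ * (4 * B) ≤ E := by
    refine le_trans (le_of_eq ?_) hcon.le
    rw [hB]
    ring
  have hmem (z : 𝓞 K) (hz : ∀ σ : K →+* ℂ, ‖σ (z : K)‖ ≤ 4 * B) : z ∈ box K E :=
    hbx z _ _ hz hbig
  have n2 (i j : Fin 6) : s i - s j ∈ box K E := by
    refine hmem _ fun σ => ?_
    have h1 := hsB σ i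
    have h2 := hsB σ j
    have h3 : σ ((s i - s j : 𝓞 K) : K) = σ (s i : K) - σ (s j : K) := by simp
    rw [h3]
    exact (norm_sub_le _ _).trans (by linarith)
  have n4 (i j k l : Fin 6) : (s i + s j) - (s k + s l) ∈ box K E := by
    refine hmem _ fun σ => ?_
    have h1 := hsB σ i
    have h2 := hsB σ j
    have h3 := hsB σ k
    have h4 := hsB σ l
    have h5 : σ (((s i + s j) - (s k + s l) : 𝓞 K) : K) =
      (σ (s i : K) + σ (s j : K)) - (σ (s k : K) + σ (s l : K)) := by simp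
    rw [h5]
    refine (norm_sub_le _ _).trans ?_
    have h6 := norm_add_le (σ (s i : K)) (σ (s j : K))
    have h7 := norm_add_le (σ (s k : K)) (σ (s l : K))
    linarith
  have hT1 : (![(s 0 + s 1) - (s 2 + s 3), s 0 - s 1, s 2 - s 3] : Fin 3 → 𝓞 K) = 0 := by
    by_contra h0
    refine hc (Or.inr (Or.inr (Or.inr (Or.inr (Or.inr (Or.inr ⟨_, ?_, h0, Or.inl (rel1 hs)⟩))))))
    intro i
    fin_cases i
    · exact n4 0 1 2 3
    · exact n2 0 1
    · exact n2 2 3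
  have hT2 : (![(s 0 + s 1) - (s 4 + s 5), s 0 - s 1, s 4 - s 5] : Fin 3 → 𝓞 K) = 0 := by
    by_contra h0
    refine hc (Or.inr (Or.inr (Or.inr (Or.inr (Or.inr (Or.inr ⟨_, ?_, h0, Or.inr (rel2 hs)⟩))))))
    intro i
    fin_cases i
    · exact n4 0 1 4 5
    · exact n2 0 1
    · exact n2 4 5
  have hc0 (b : Fin 4) : c b ≠ 0 := by
    intro h0
    have := hT.1 b
    rw [hcK] at this
    simp only [h0] at this
    simp at this
  have hprop := prop_of hc0 (Nat.cast_ne_zero.2 he'0) hs hT1 hT2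
  apply hne
  intro i j
  have h1 := hprop i j
  have h2 : (y i : K) * (c j : K) = (y j : K) * (c i : K) := by exact_mod_cast h1
  rw [hy, hy] at h2
  refine mul_left_cancel₀ ht0 ?_
  rw [hcK]
  linear_combination h2

/-- the places where the point is congruent to a point of order two -/
theorem twist (K : Type) [Field K] [NumberField K] : ∃ C : ℝ, 1 ≤ C ∧ ∀ H : ℕ,
    ∀ c : Fin 4 → 𝓞 K, (∀ l, c l ∈ box K H) → (Theta fun i => (c i : K)) → ∀ x : Fin 4 → K,
      Kummer (fun i => (c i : K)) x →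
      ¬ Prop2 (dbl (fun i => (c i : K)) x) (fun i => (c i : K)) →
      ∀ S : Finset (HeightOneSpectrum (𝓞 K)), (∀ v ∈ S, TwoMod c x v) →
      ∏ v ∈ S, (nv v : ℝ) ≤ C * (H : ℝ) ^ Module.finrank ℚ K *
        Height.mulHeight (dbl (fun i => (c i : K)) x) := by
  obtain ⟨C₀, hC₀, hsz⟩ := box_size K
  obtain ⟨C₂, hC₂, hrep⟩ := exists_rep K
  set d := Module.finrank ℚ K with hd
  have hd0 : d ≠ 0 := Module.finrank_pos.ne'
  refine ⟨(2 * C₀ * C₂) ^ d, one_le_pow₀ ?_, fun H c hcB hT x hx hne S hS => ?_⟩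
  · exact one_le_mul_of_one_le_of_one_le (by linarith) hC₂
  set cK : Fin 4 → K := fun i => (c i : K) with hcK
  have hX : dbl cK x ≠ 0 := dbl_ne hT.1 hT.2.1 hx.1
  obtain ⟨t, y, ht0, hy, hyσ⟩ := hrep _ hX
  have hM0 : 0 ≤ Height.mulHeight (dbl cK x) := zero_le_one.trans (Height.one_le_mulHeight _)
  set h := Height.mulHeight (dbl cK x) ^ ((d : ℝ)⁻¹) with hh
  have hhd : h ^ d = Height.mulHeight (dbl cK x) := by
    rw [hh, ← Real.rpow_natCast, ← Real.rpow_mul hM0, inv_mul_cancel₀ (by exact_mod_cast hd0),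
      Real.rpow_one]
  have hh0 : 0 ≤ h := Real.rpow_nonneg hM0 _
  obtain ⟨i, j, hij⟩ : ∃ i j, c i * y j - c j * y i ≠ 0 := by
    by_contra hcon
    push Not at hcon
    apply hne
    intro i j
    have h1 := hcon i j
    have h2 : (c i : K) * (y j : K) - (c j : K) * (y i : K) = 0 := by exact_mod_cast h1
    rw [hy, hy] at h2
    refine mul_left_cancel₀ ht0 ?_
    rw [hcK]
    linear_combination -h2
  set M : 𝓞 K := c i * y j - c j * y i with hM
  have h1 : ∀ v ∈ S, v.asIdeal ∣ Ideal.span {M} := by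
    intro v hv
    rw [Ideal.dvd_span_singleton]
    obtain ⟨h2, hk, hm, e, s, hes⟩ := hS v hv
    rw [← v.valuation_lt_one_iff_mem (K := K)]
    set w := v.valuation K with hw
    have e2' : w ((2 : 𝓞 K) : K) = 1 := (v.valuation_eq_one_iff_notMem (K := K) (r := 2)).2 h2
    have e2 : w 2 = 1 := by
      rw [← e2']
      congr 1
    have ek (k : Fin 4) : w (Z k cK cK) = 1 := by
      rw [hcK, ← Z_co]
      exact (v.valuation_eq_one_iff_notMem (K := K)).2 (hk k)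
    have em (m : Fin 6) : w (Q m cK cK) = 1 := by
      rw [hcK, ← Q_co]
      exact (v.valuation_eq_one_iff_notMem (K := K)).2 (hm m)
    have h3 := dbl_two (w := w) e2 hT.1 (fun b => v.valuation_le_one (c b)) ek em hx
      (e := e) (s := s) (fun i j => ?_) (t := t) (fun b => ?_) i j
    · have h4 : (M : K) = cK i * (t * dbl cK x j) - cK j * (t * dbl cK x i) := by
        rw [← hy, ← hy, hM]
        simp [hcK]
      show w (M : K) < 1
      rw [h4]
      exact h3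
    · obtain ⟨l, hl⟩ := hes i j
      rw [two_co, two_co] at hl
      exact ⟨l, hl⟩
    · rw [← hy]
      exact v.valuation_le_one _
  have h2 := Ideal.absNorm_dvd_absNorm_of_le (Ideal.dvd_iff_le.1 (prod_one_dvd S _ h1))
  rw [map_prod] at h2
  have h3 : ∏ v ∈ S, nv v ≤ Nm M := Nat.le_of_dvd (Nat.pos_of_ne_zero (Nm_ne hij)) h2
  have h4 : (Nm M : ℝ) ≤ (2 * (C₀ * H * (C₂ * h))) ^ d := by
    rw [Nm_emb, hd, ← Embeddings.card K ℂ, ← card_univ, ← prod_const]
    refine prod_le_prod (fun _ _ => norm_nonneg _) fun σ _ => ?_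
    have h5 (i j : Fin 4) : ‖σ (c i : K) * σ (y j : K)‖ ≤ C₀ * H * (C₂ * h) := by
      rw [norm_mul]
      exact mul_le_mul (hsz H _ (hcB i) σ) (hyσ σ j) (norm_nonneg _) (by positivity)
    have h6 : σ (M : K) = σ (c i : K) * σ (y j : K) - σ (c j : K) * σ (y i : K) := by
      rw [hM]
      simp
    rw [h6]
    refine (norm_sub_le _ _).trans ?_
    have h7 := h5 i j
    have h8 := h5 j i
    linarith
  have h5 : (∏ v ∈ S, (nv v : ℝ)) ≤ Nm M := by exact_mod_cast h3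
  refine (h5.trans h4).trans (le_of_eq ?_)
  rw [← hhd]
  ring

end Pool.Agent.H433.TH
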