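import Pool.Agent.H433.TH.Key2

/-!
The theorem of Lang and Silverman for almost all principally polarised abelian surfaces.
-/

set_option autoImplicit false
set_option linter.unusedSectionVars false

open NumberField IsDedekindDomain Finset Filter Topology

namespace Pool.Agent.H433.TH

open Pool.Agent.H433.AC

variable {K : Type} [Field K] [NumberField K]

/-- the height of an integral vector -/
theorem height_int {c : Fin 4 → 𝓞 K} (hc : ∀ b, c b ≠ 0) :
    (∏ w : InfinitePlace K, (⨆ i, w (c i : K)) ^ w.mult) /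
        Ideal.absNorm (Ideal.span (Set.range c)) = Height.mulHeight (fun i => (c i : K)) := by
  have hne : (fun i => (c i : K)) ≠ 0 := by
    intro h0
    have := congrFun h0 0
    simp only [Pi.zero_apply] at this
    exact hc 0 (by exact_mod_cast this)
  have hc0 : c ≠ 0 := fun h0 => hc 0 (congrFun h0 0)
  rw [NumberField.mulHeight_eq hne, div_eq_mul_inv]
  congr 1
  exact (eq_inv_of_mul_eq_one_right
    (NumberField.absNorm_mul_finprod_finitePlace_eq_one hc0)).symm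

theorem height_up (K : Type) [Field K] [NumberField K] : ∃ C : ℝ, 0 ≤ C ∧ ∀ H : ℕ, 1 ≤ H →
    ∀ c : Fin 4 → 𝓞 K, (∀ l, c l ∈ box K H) → (∀ b, c b ≠ 0) →
      Height.logHeight (fun i => (c i : K)) ≤ Module.finrank ℚ K * Real.log H + C := by
  obtain ⟨C₀, hC₀, hsz⟩ := box_size K
  set d := Module.finrank ℚ K with hd
  refine ⟨d * Real.log C₀, mul_nonneg (Nat.cast_nonneg _) (Real.log_nonneg hC₀),
    fun H hH c hcB hc => ?_⟩
  have hHR : (1 : ℝ) ≤ H := by exact_mod_cast hH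
  have hH0 : (0 : ℝ) < H := by linarith
  have h1 : Height.mulHeight (fun i => (c i : K)) ≤ (C₀ * H) ^ d := by
    rw [← height_int hc]
    have hI : Ideal.span (Set.range c) ≠ ⊥ := by
      intro h0
      rw [Ideal.span_eq_bot] at h0
      exact hc 0 (h0 _ ⟨0, rfl⟩)
    have h2 : (1 : ℝ) ≤ Ideal.absNorm (Ideal.span (Set.range c)) := by
      have : Ideal.absNorm (Ideal.span (Set.range c)) ≠ 0 := by
        rwa [Ne, Ideal.absNorm_eq_zero_iff]
      exact_mod_cast Nat.one_le_iff_ne_zero.2 this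
    have hs0 (w : InfinitePlace K) : 0 ≤ ⨆ i, w (c i : K) :=
      Real.iSup_nonneg fun i => apply_nonneg _ _
    refine (div_le_self (prod_nonneg fun w _ => pow_nonneg (hs0 w) _) h2).trans ?_
    have h3 : (C₀ * H) ^ d = ∏ w : InfinitePlace K, (C₀ * (H : ℝ)) ^ w.mult := by
      rw [prod_pow_eq_pow_sum, InfinitePlace.sum_mult_eq]
    rw [h3]
    refine prod_le_prod (fun w _ => pow_nonneg (hs0 w) _) fun w _ => ?_
    refine pow_le_pow_left₀ (hs0 w) (ciSup_le fun i => ?_) _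
    have := hsz H (c i) (hcB i) w.embedding
    rwa [InfinitePlace.norm_embedding_eq] at this
  have h4 := Real.log_le_log (zero_lt_one.trans_le (Height.one_le_mulHeight _)) h1
  rw [Real.log_pow, Real.log_mul (by positivity) hH0.ne'] at h4
  unfold Height.logHeight
  linarith

theorem height_low {Y R₁ R₂ : ℝ} {E : ℕ} (hR : 0 < R₁) {c : Fin 4 → 𝓞 K}
    (hc : ¬ Exc Y R₁ R₂ E c) (hc0 : ∀ b, c b ≠ 0) (hY : 0 < Y) :
    Module.finrank ℚ K * Real.log R₁ - Real.log Y ≤ Height.logHeight (fun i => (c i : K)) := by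
  set d := Module.finrank ℚ K with hd
  have h1 : R₁ ^ d / Y ≤ Height.mulHeight (fun i => (c i : K)) := by
    rw [← height_int hc0]
    have hI : Ideal.span (Set.range c) ≠ ⊥ := by
      intro h0
      rw [Ideal.span_eq_bot] at h0
      exact hc0 0 (h0 _ ⟨0, rfl⟩)
    have h2 : (0 : ℝ) < Ideal.absNorm (Ideal.span (Set.range c)) := by
      have : Ideal.absNorm (Ideal.span (Set.range c)) ≠ 0 := by
        rwa [Ne, Ideal.absNorm_eq_zero_iff]
      exact_mod_cast Nat.pos_of_ne_zero this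
    have h5 : (Ideal.absNorm (Ideal.span (Set.range c)) : ℝ) ≤ Y := by
      by_contra hcon
      rw [not_le] at hcon
      exact hc (Or.inr (Or.inr (Or.inl ⟨0, 1, by decide, _, hcon.le,
        Ideal.subset_span ⟨0, rfl⟩, Ideal.subset_span ⟨1, rfl⟩⟩)))
    refine div_le_div₀ ?_ ?_ h2 h5
    · exact prod_nonneg fun w _ => pow_nonneg (Real.iSup_nonneg fun i => apply_nonneg _ _) _
    · have h3 : R₁ ^ d = ∏ w : InfinitePlace K, R₁ ^ w.mult := by
        rw [prod_pow_eq_pow_sum, InfinitePlace.sum_mult_eq]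
      rw [h3]
      refine prod_le_prod (fun w _ => by positivity) fun w _ => pow_le_pow_left₀ hR.le ?_ _
      have h6 : R₁ < ‖w.embedding (c 0 : K)‖ := by
        by_contra hcon
        rw [not_lt] at hcon
        exact hc (Or.inl ⟨0, _, hcon⟩)
      rw [InfinitePlace.norm_embedding_eq] at h6
      exact h6.le.trans (le_ciSup (f := fun i => w (c i : K)) (Set.finite_range _).bddAbove 0)
  have h4 := Real.log_le_log (by positivity) h1
  rw [Real.log_div (by positivity) hY.ne', Real.log_pow] at h4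
  exact h4

/-- the real inequalities -/
theorem real_ineq {L P h m g u C₂ C₃ C₄ C₅ ε ε₁ κ : ℝ} (hε₁ : 0 < ε₁) (hεε : ε₁ ≤ ε)
    (hε2 : ε₁ ≤ 1 / 200) (hκ : κ = ε₁ / 500) (hP : P = ε₁ * L) (hL : 0 ≤ L)
    (hC₂ : 0 ≤ C₂) (hC₃ : 0 ≤ C₃) (hC₄ : 0 ≤ C₄) (hC₅ : 0 ≤ C₅)
    (hbig : 100 * (C₂ + C₃ + C₄ + C₅) ≤ P)
    (hm : (4 / 3 - 165 * κ) * L - C₂ ≤ m) (hsp : m - h - C₄ ≤ 4 * g) (hh0 : 0 ≤ h)
    (hup : h ≤ L + C₅) (hS0 : 0 ≤ u) (hS : u ≤ C₃ + L + m) :
    (1 / 12 - ε) * h ≤ g ∧ (1 / 172 - ε) * (12 * h + u) ≤ g := by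
  have hκL : κ * L = P / 500 := by
    rw [hκ, hP]
    ring
  have h1 : 4 / 3 * L - 165 * (P / 500) - C₂ ≤ m := by
    rw [← hκL]
    linarith
  have h2 : 1 / 3 * L - 165 * (P / 500) - C₂ - C₄ - C₅ ≤ 4 * g := by linarith
  have hP0 : 0 ≤ P := by
    rw [hP]
    positivity
  have h3 : (1 / 12 - ε₁) * h ≤ (1 / 12 - ε₁) * (L + C₅) :=
    mul_le_mul_of_nonneg_left hup (by linarith)
  have h4 : (1 / 12 - ε) * h ≤ (1 / 12 - ε₁) * h := mul_le_mul_of_nonneg_right (by linarith) hh0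
  have h5 : (1 / 12 - ε₁) * (L + C₅) = 1 / 12 * L - P + 1 / 12 * C₅ - ε₁ * C₅ := by
    rw [hP]
    ring
  have h6 : 0 ≤ ε₁ * C₅ := by positivity
  have ha : (1 / 12 - ε₁) * h ≤ g := by linarith
  have hg0 : 0 ≤ g := le_trans (mul_nonneg (by linarith) hh0) ha
  refine ⟨h4.trans ha, ?_⟩
  have h7 : 12 * h + u ≤ 14 * L + 4 * g + (C₃ + C₄ + 13 * C₅) := by linarith
  have h8 : 0 ≤ 12 * h + u := by linarith
  have h9 : (1 / 172 - ε) * (12 * h + u) ≤ (1 / 172 - ε₁) * (12 * h + u) :=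
    mul_le_mul_of_nonneg_right (by linarith) h8
  have h10 : (1 / 172 - ε₁) * (12 * h + u) ≤
      (1 / 172 - ε₁) * (14 * L + 4 * g + (C₃ + C₄ + 13 * C₅)) :=
    mul_le_mul_of_nonneg_left h7 (by linarith)
  have h11 : (1 / 172 - ε₁) * (14 * L + 4 * g + (C₃ + C₄ + 13 * C₅)) =
      (14 * L + 4 * g + (C₃ + C₄ + 13 * C₅)) / 172 - 14 * P - 4 * (ε₁ * g) -
        ε₁ * (C₃ + C₄ + 13 * C₅) := by
    rw [hP]
    ring
  have h12 : 0 ≤ ε₁ * g := by positivity
  have h13 : 0 ≤ ε₁ * (C₃ + C₄ + 13 * C₅) := by positivity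
  linarith

theorem good (K : Type) [Field K] [NumberField K] {ε ε₁ κ : ℝ} (hε₁ : 0 < ε₁) (hεε : ε₁ ≤ ε)
    (hε2 : ε₁ ≤ 1 / 200) (hκ : κ = ε₁ / 500) : ∃ L₀ : ℝ, 0 ≤ L₀ ∧ ∀ H : ℕ, 1 ≤ H →
    L₀ ≤ Module.finrank ℚ K * Real.log H →
    ∀ c : Fin 4 → 𝓞 K, (∀ l, c l ∈ box K H) →
      ¬ Exc ((H : ℝ) ^ κ) ((H : ℝ) ^ (1 - κ)) ((H : ℝ) ^ (2 - 2 * κ)) ⌊(H : ℝ) ^ (1 / 3 - κ)⌋₊ c →
      LangSilverman ε H c := by
  obtain ⟨C₂, hC₂, hkey⟩ := key K
  obtain ⟨C₃, hC₃, htw⟩ := twist K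
  obtain ⟨C₄, hC₄, hsp⟩ := hhat_spec K
  obtain ⟨C₅, hC₅, hup⟩ := height_up K
  set d := Module.finrank ℚ K with hd
  have hd1 : 1 ≤ d := Module.finrank_pos
  have hdR : (1 : ℝ) ≤ d := by exact_mod_cast hd1
  set D₂ : ℝ := d * Real.log (2 * C₂) with hD₂
  have hD₂0 : 0 ≤ D₂ := mul_nonneg (by linarith) (Real.log_nonneg (by linarith))
  set D₃ : ℝ := Real.log C₃ with hD₃
  have hD₃0 : 0 ≤ D₃ := Real.log_nonneg hC₃
  refine ⟨100 * (D₂ + D₃ + C₄ + C₅) / ε₁, by positivity, fun H hH hL c hcB hc => ?_⟩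
  have hκ0 : 0 < κ := by
    rw [hκ]
    positivity
  have hκ1 : κ ≤ 1 / 1000 := by
    rw [hκ]
    linarith
  have hHR : (1 : ℝ) ≤ H := by exact_mod_cast hH
  have hH0 : (0 : ℝ) < H := by linarith
  set l := Real.log H with hl
  have hl0 : 0 ≤ l := Real.log_nonneg hHR
  set L := (d : ℝ) * l with hLd
  have hL0 : 0 ≤ L := by positivity
  have hlL : l ≤ L := le_mul_of_one_le_left hl0 hdR
  rw [div_le_iff₀ hε₁] at hL
  set Y : ℝ := (H : ℝ) ^ κ with hY
  set R₁ : ℝ := (H : ℝ) ^ (1 - κ) with hR₁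
  set R₂ : ℝ := (H : ℝ) ^ (2 - 2 * κ) with hR₂
  set E : ℕ := ⌊(H : ℝ) ^ (1 / 3 - κ)⌋₊ with hE
  have hY1 : 1 ≤ Y := Real.one_le_rpow hHR hκ0.le
  have hR₁1 : 1 ≤ R₁ := Real.one_le_rpow hHR (by linarith)
  have hR₂1 : 1 ≤ R₂ := Real.one_le_rpow hHR (by linarith)
  have hlY : Real.log Y = κ * l := by rw [hY, Real.log_rpow hH0]
  have hlR₁ : Real.log R₁ = (1 - κ) * l := by rw [hR₁, Real.log_rpow hH0]
  have hlR₂ : Real.log R₂ = (2 - 2 * κ) * l := by rw [hR₂, Real.log_rpow hH0]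
  -- the theta constants do not vanish
  have hcb (b : Fin 4) : c b ≠ 0 := by
    intro h0
    refine hc (Or.inl ⟨b, Classical.arbitrary _, ?_⟩)
    rw [h0]
    simp
    linarith
  have hcq (m : Fin 6) : q m c ≠ 0 := by
    intro h0
    refine hc (Or.inr (Or.inl ⟨m, Classical.arbitrary _, ?_⟩))
    rw [h0]
    simp
    linarith
  have hcZ (k : Fin 4) : Z k c c ≠ 0 := by
    intro h0
    refine hc (Or.inr (Or.inr (Or.inr (Or.inr (Or.inl
      ⟨0, k, Ideal.span {q 0 c}, ?_, Ideal.mem_span_singleton_self _, ?_⟩)))))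
    · have h1 : R₂ ^ d ≤ (Nm (q 0 c) : ℝ) := by
        rw [Nm_emb, hd, ← Embeddings.card K ℂ, ← card_univ, ← prod_const]
        refine prod_le_prod (fun _ _ => by linarith) fun σ _ => ?_
        by_contra hcon
        rw [not_le] at hcon
        exact hc (Or.inr (Or.inl ⟨0, σ, hcon.le⟩))
      have h2 : Y ^ 4 ≤ R₂ := by
        rw [hY, hR₂, ← Real.rpow_natCast, ← Real.rpow_mul hH0.le]
        refine Real.rpow_le_rpow_of_exponent_le hHR ?_
        push_cast
        linarith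
      have h3 : R₂ ≤ R₂ ^ d := le_self_pow₀ hR₂1 (by omega)
      exact (h2.trans h3).trans h1
    · rw [h0]
      exact Ideal.zero_mem _
  have hT : Theta fun i => (c i : K) := by
    refine ⟨fun b h0 => hcb b ?_, fun k h0 => hcZ k ?_, fun m h0 => hcq m ?_⟩
    · have h1 : (c b : K) = 0 := h0
      exact_mod_cast h1
    · rw [← Z_co] at h0
      exact_mod_cast h0
    · rw [← Q_co, Q_q] at h0
      have h1 : (2 : 𝓞 K) * q m c = 0 := by exact_mod_cast h0
      rcases mul_eq_zero.1 h1 with h2 | h2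
      · exact absurd h2 two_ne_zero
      · exact h2
  refine ⟨hT, ?_, fun x hx => ?_⟩
  · have h1 := height_low (by linarith) hc hcb (by linarith)
    rw [hlY, hlR₁] at h1
    have h2 : (1 - ε) * L ≤ (1 - 2 * κ) * L := by
      refine mul_le_mul_of_nonneg_right ?_ hL0
      rw [hκ]
      linarith
    have h3 : κ * l ≤ κ * L := mul_le_mul_of_nonneg_left hlL hκ0.le
    have h4 : (d : ℝ) * ((1 - κ) * l) = L - κ * L := by
      rw [hLd]
      ring
    rw [h4] at h1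
    linarith
  · obtain ⟨hlim, hlow⟩ := hsp _ x hT.1 hT.2.1 hx.1
    refine ⟨hlim, ?_⟩
    by_cases hne : Prop2 (dbl (fun i => (c i : K)) x) (fun i => (c i : K))
    · exact Or.inl hne
    refine Or.inr ?_
    have hM1 := Height.one_le_mulHeight (dbl (fun i => (c i : K)) x)
    set M := Height.mulHeight (dbl (fun i => (c i : K)) x) with hM
    have hM0 : 0 < M := by linarith
    have hk := hkey H Y R₁ R₂ E hY1 (by linarith) c hcB hc hT x hx hne
    have hm : (4 / 3 - 165 * κ) * L - D₂ ≤ Real.log M := by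
      have e1 : (1 : ℝ) ≤ (H : ℝ) ^ (1 / 3 - κ) := Real.one_le_rpow hHR (by linarith)
      have e2 : (H : ℝ) ^ (1 / 3 - κ) ≤ 2 * E := by
        have h1 : 1 ≤ E := Nat.le_floor (by exact_mod_cast e1)
        have h2 := Nat.lt_floor_add_one ((H : ℝ) ^ (1 / 3 - κ))
        have h3 : (1 : ℝ) ≤ E := by exact_mod_cast h1
        rw [← hE] at h2
        linarith
      rw [le_div_iff₀ (by linarith)] at hk
      have e3 : (H : ℝ) ^ (1 / 3 - κ) * R₂ ≤ 2 * C₂ * Y ^ 162 * H * M ^ ((d : ℝ)⁻¹) := by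
        have := mul_le_mul_of_nonneg_right e2 (show 0 ≤ R₂ by linarith)
        linarith
      have e4 := Real.log_le_log (by positivity) e3
      rw [Real.log_mul (by positivity) (by positivity), Real.log_rpow hH0, hlR₂,
        Real.log_mul (by positivity) (by positivity), Real.log_mul (by positivity) (by positivity),
        Real.log_mul (by positivity) (by positivity), Real.log_pow, hlY, Real.log_rpow hM0] at e4
      have e5 : (d : ℝ) * ((d : ℝ)⁻¹ * Real.log M) = Real.log M := by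
        rw [← mul_assoc, mul_inv_cancel₀ (by positivity), one_mul]
      have e6 := mul_le_mul_of_nonneg_left e4 (show (0 : ℝ) ≤ d by linarith)
      have e7 : (d : ℝ) * ((1 / 3 - κ) * l + (2 - 2 * κ) * l) = (7 / 3 - 3 * κ) * L := by
        rw [hLd]
        ring
      have e8 : (d : ℝ) * (Real.log (2 * C₂) + ((162 : ℕ) : ℝ) * (κ * l) + l +
          (d : ℝ)⁻¹ * Real.log M) = D₂ + 162 * κ * L + L + Real.log M := by
        rw [mul_add, mul_add, mul_add, e5, hD₂, hLd]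
        push_cast
        ring
      rw [e7, e8] at e6
      linarith
    have hmain (S : Finset (HeightOneSpectrum (𝓞 K))) (hS : ∀ v ∈ S, TwoMod c x v) :=
      real_ineq (L := L) (P := ε₁ * L) (h := Height.logHeight fun i => (c i : K))
        (m := Real.log M) (g := hhat (fun i => (c i : K)) x) (u := ∑ v ∈ S, Real.log (nv v))
        (C₂ := D₂) (C₃ := D₃) (C₄ := C₄) (C₅ := C₅) hε₁ hεε hε2 hκ rfl hL0 hD₂0 hD₃0 hC₄ hC₅
        (by linarith) hm hlow (Height.logHeight_nonneg _) (hup H hH c hcB hcb)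
        (sum_nonneg fun v _ => (log_nv_pos v).le) (by
          have h1 := htw H c hcB hT x hx hne S hS
          have h2 : (0 : ℝ) < ∏ v ∈ S, (nv v : ℝ) := prod_pos fun v _ => by
            exact_mod_cast zero_lt_one.trans (one_lt_nv v)
          have h3 := Real.log_le_log h2 h1
          rw [Real.log_prod, Real.log_mul (by positivity) (by positivity),
            Real.log_mul (by positivity) (by positivity), Real.log_pow] at h3
          · exact h3
          · intro v _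
            have := one_lt_nv v
            positivity)
    refine ⟨(hmain ∅ (by simp)).1, fun S hS => (hmain S hS).2⟩

open Classical in
/-- The inequality of Lang and Silverman for almost all principally polarised abelian surfaces. -/
theorem main (K : Type) [Field K] [NumberField K] {ε : ℝ} (hε : 0 < ε) : ∃ C δ : ℝ, 0 < δ ∧
    ∀ H : ℕ, 1 ≤ H →
      (((Fintype.piFinset fun _ : Fin 4 => box K H).filter fun c =>
        ¬ LangSilverman ε H c).card : ℝ) ≤
          C * (H : ℝ) ^ (-δ) * ((Fintype.piFinset fun _ : Fin 4 => box K H).card : ℝ) := by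
  set ε₁ : ℝ := min ε (1 / 200) with hε₁
  set κ : ℝ := ε₁ / 500 with hκ
  have hε₁0 : 0 < ε₁ := lt_min hε (by norm_num)
  have hε₁1 : ε₁ ≤ 1 / 200 := min_le_right _ _
  have hκ0 : 0 < κ := by positivity
  have hκ1 : κ ≤ 1 / 1000 := by
    rw [hκ]
    linarith
  obtain ⟨L₀, hL₀, hgood⟩ := good K (ε := ε) hε₁0 (min_le_left _ _) hε₁1 hκ
  obtain ⟨C₁, hC₁, hexc⟩ := exc_card K (ε := κ / 2) (by positivity)
  set d := Module.finrank ℚ K with hd
  have hd1 : 1 ≤ d := Module.finrank_pos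
  have hdR : (1 : ℝ) ≤ d := by exact_mod_cast hd1
  refine ⟨C₁ * (4 + 27 ^ d) + Real.exp L₀, κ / 2, by positivity, fun H hH => ?_⟩
  have hHR : (1 : ℝ) ≤ H := by exact_mod_cast hH
  have hH0 : (0 : ℝ) < H := by linarith
  have hcard : ((Fintype.piFinset fun _ : Fin 4 => box K H).card : ℝ) =
      ((2 * (H : ℝ) + 1) ^ d) ^ 4 := by
    rw [Fintype.card_piFinset]
    simp only [card_box, prod_const, card_univ, Fintype.card_fin]
    push_cast
    rfl
  rcases le_or_gt L₀ (d * Real.log H) with hL | hL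
  · set Y : ℝ := (H : ℝ) ^ κ with hY
    set R₁ : ℝ := (H : ℝ) ^ (1 - κ) with hR₁
    set R₂ : ℝ := (H : ℝ) ^ (2 - 2 * κ) with hR₂
    set E : ℕ := ⌊(H : ℝ) ^ (1 / 3 - κ)⌋₊ with hE
    have hY1 : 1 ≤ Y := Real.one_le_rpow hHR hκ0.le
    have hR₁1 : 1 ≤ R₁ := Real.one_le_rpow hHR (by linarith)
    have hRR : R₁ ≤ R₂ := Real.rpow_le_rpow_of_exponent_le hHR (by linarith)
    have h1 := hexc H hH Y R₁ R₂ E hY1 hR₁1 hRR
      ((Fintype.piFinset fun _ : Fin 4 => box K H).filter fun c => ¬ LangSilverman ε H c)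
      fun c hc => by
        rw [mem_filter, Fintype.mem_piFinset] at hc
        refine ⟨hc.1, ?_⟩
        by_contra hcon
        exact hc.2 (hgood H hH hL c hc.1 hcon)
    refine h1.trans ?_
    rw [hcard]
    have k (a b : ℝ) : (H : ℝ) ^ a / (H : ℝ) ^ b = (H : ℝ) ^ (a - b) := (Real.rpow_sub hH0 _ _).symm
    have k1 (a : ℝ) : (H : ℝ) ^ a / H = (H : ℝ) ^ (a - 1) := by
      rw [Real.rpow_sub hH0, Real.rpow_one]
    have t0 (a : ℝ) (ha : a ≤ -(κ / 2)) : (H : ℝ) ^ a ≤ (H : ℝ) ^ (-(κ / 2)) :=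
      Real.rpow_le_rpow_of_exponent_le hHR ha
    have t1 : R₁ / H ≤ (H : ℝ) ^ (-(κ / 2)) := by
      rw [hR₁, k1]
      exact t0 _ (by linarith)
    have t2 : R₂ / (R₁ * H) ≤ (H : ℝ) ^ (-(κ / 2)) := by
      rw [← div_div, hR₂, hR₁, k, k1]
      exact t0 _ (by linarith)
    have t3 : (H : ℝ) ^ (κ / 2) / Y ≤ (H : ℝ) ^ (-(κ / 2)) := by
      rw [hY, k]
      exact t0 _ (by linarith)
    have t4 : (H : ℝ) ^ (κ / 2) / H ≤ (H : ℝ) ^ (-(κ / 2)) := by
      rw [k1]
      exact t0 _ (by linarith)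
    have t5 : ((box K E).card : ℝ) ^ 3 / (H : ℝ) ^ d ≤ 27 ^ d * (H : ℝ) ^ (-(κ / 2)) := by
      rw [card_box, ← hd]
      push_cast
      have e1 : (1 : ℝ) ≤ (H : ℝ) ^ (1 / 3 - κ) := Real.one_le_rpow hHR (by linarith)
      have e2 : 2 * (E : ℝ) + 1 ≤ 3 * (H : ℝ) ^ (1 / 3 - κ) := by
        have := Nat.floor_le (zero_le_one.trans e1)
        rw [← hE] at this
        linarith
      have e3 : ((2 * (E : ℝ) + 1) ^ d) ^ 3 ≤ 27 ^ d * ((H : ℝ) ^ (1 / 3 - κ)) ^ (3 * d) := by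
        calc ((2 * (E : ℝ) + 1) ^ d) ^ 3 ≤ ((3 * (H : ℝ) ^ (1 / 3 - κ)) ^ d) ^ 3 := by
              gcongr
          _ = (3 ^ 3) ^ d * ((H : ℝ) ^ (1 / 3 - κ)) ^ (3 * d) := by
              rw [mul_pow, mul_pow, ← pow_mul, ← pow_mul, ← pow_mul, mul_comm d 3]
          _ = _ := by norm_num
      rw [div_le_iff₀ (by positivity)]
      refine e3.trans ?_
      rw [mul_assoc]
      refine mul_le_mul_of_nonneg_left ?_ (by positivity)
      rw [← Real.rpow_natCast, ← Real.rpow_natCast, ← Real.rpow_mul hH0.le, ← Real.rpow_add hH0]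
      refine Real.rpow_le_rpow_of_exponent_le hHR ?_
      push_cast
      nlinarith
    set T : ℝ := (H : ℝ) ^ (-(κ / 2)) with hT
    have hT0 : 0 < T := by positivity
    have hsum : R₁ / H + R₂ / (R₁ * H) + (H : ℝ) ^ (κ / 2) / Y + (H : ℝ) ^ (κ / 2) / H +
        ((box K E).card : ℝ) ^ 3 / (H : ℝ) ^ d ≤ (4 + 27 ^ d) * T := by
      linarith
    have e1 : ((H : ℝ) ^ d) ^ 4 ≤ ((2 * (H : ℝ) + 1) ^ d) ^ 4 := by
      gcongr
      linarith
    have e2 := Real.exp_pos L₀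
    have e3 : 0 ≤ C₁ := by linarith
    calc C₁ * ((H : ℝ) ^ d) ^ 4 * (R₁ / H + R₂ / (R₁ * H) + (H : ℝ) ^ (κ / 2) / Y +
          (H : ℝ) ^ (κ / 2) / H + ((box K E).card : ℝ) ^ 3 / (H : ℝ) ^ d)
        ≤ C₁ * ((2 * (H : ℝ) + 1) ^ d) ^ 4 * ((4 + 27 ^ d) * T) := by
          gcongr
      _ = C₁ * (4 + 27 ^ d) * T * ((2 * (H : ℝ) + 1) ^ d) ^ 4 := by ring
      _ ≤ (C₁ * (4 + 27 ^ d) + Real.exp L₀) * T * ((2 * (H : ℝ) + 1) ^ d) ^ 4 := by
          gcongr
          linarith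
  · have h1 : (((Fintype.piFinset fun _ : Fin 4 => box K H).filter fun c =>
        ¬ LangSilverman ε H c).card : ℝ) ≤ ((Fintype.piFinset fun _ : Fin 4 => box K H).card : ℝ) := by
      exact_mod_cast card_filter_le _ _
    refine h1.trans (le_mul_of_one_le_left (Nat.cast_nonneg _) ?_)
    have hl0 : 0 ≤ Real.log H := Real.log_nonneg hHR
    have h2 : Real.log H ≤ L₀ := (le_mul_of_one_le_left hl0 hdR).trans hL.le
    have h3 : (H : ℝ) ^ (κ / 2) ≤ Real.exp L₀ := by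
      rw [Real.rpow_def_of_pos hH0]
      refine Real.exp_le_exp.2 ?_
      nlinarith
    have h4 : (H : ℝ) ^ (κ / 2) ≤ C₁ * (4 + 27 ^ d) + Real.exp L₀ := by
      have : 0 ≤ C₁ * (4 + 27 ^ d) := mul_nonneg (by linarith) (by positivity)
      linarith
    rw [Real.rpow_neg hH0.le, ← div_eq_mul_inv, le_div_iff₀ (by positivity), one_mul]
    exact h4

end Pool.Agent.H433.TH
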